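import Pool.Agent.H891R2.KN.Sem

/-! KC1: the types are all cocycles of `K_6` with values `-1, 0, 1` on all cycles. -/

set_option autoImplicit false

namespace Pool.Agent.H891R2.KN.C1

open Pool.Agent.H891R2.KN

def CYL : List (List (List (Fin 6))) := [[[0, 1, 2]], [[0, 1, 3]], [[0, 2, 3], [1, 2, 3]], [[0, 1,
  4], [0, 3, 2, 1, 4]], [[0, 2, 4], [1, 2, 4], [0, 1, 3, 2, 4]], [[0, 3, 4], [1, 3, 4], [2, 3, 4],
  [0, 1, 4, 3, 2], [0, 2, 1, 3, 4]], [[0, 1, 5], [0, 4, 3, 1, 5], [0, 2, 4, 1, 5], [0, 3, 4, 2, 1,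
  5], [0, 4, 3, 2, 1, 5]], [[0, 2, 5], [1, 2, 5], [0, 3, 1, 2, 5], [0, 4, 3, 2, 5], [0, 1, 5, 2,
  3], [0, 3, 1, 5, 2, 4], [0, 2, 5, 1, 3, 4], [0, 1, 3, 4, 2, 5], [0, 2, 5, 1, 4, 3], [0, 3, 1, 4,
  2, 5]], [[0, 3, 5], [1, 3, 5], [2, 3, 5], [0, 2, 4, 3, 5], [1, 2, 5, 3, 4], [0, 4, 1, 3, 5], [0,
  1, 5, 3, 2], [0, 2, 4, 1, 5, 3], [0, 2, 3, 5, 1, 4], [0, 1, 4, 2, 5, 3], [0, 2, 5, 3, 1, 4]],
  [[0, 4, 5], [1, 4, 5], [2, 4, 5], [3, 4, 5], [0, 3, 2, 4, 5], [1, 3, 2, 5, 4], [0, 3, 2, 5, 4],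
  [0, 1, 5, 4, 3], [0, 1, 2, 4, 5], [0, 1, 4, 5, 2], [1, 2, 4, 5, 3], [0, 2, 1, 4, 5], [0, 1, 3,
  4, 5], [1, 3, 2, 4, 5], [0, 1, 2, 3, 4, 5], [0, 1, 2, 3, 5, 4], [0, 2, 1, 4, 5, 3], [0, 2, 1, 5,
  4, 3]]]

def TB : List (List (List ℕ × List ℕ)) := [[([0], [])], [([1], [])], [([2], []), ([0, 2], [1])],
  [([3], []), ([3], [2, 0])], [([4], []), ([0, 4], [3]), ([1, 4], [2])], [([5], []), ([1, 5],
  [3]), ([2, 5], [4]), ([3], [5, 2]), ([1, 5], [0])], [([6], []), ([6], [5, 1]), ([4, 6], [3]),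
  ([5, 6], [4, 0]), ([6], [5, 2, 0])], [([7], []), ([0, 7], [6]), ([0, 7], [1]), ([7], [5, 2]),
  ([6, 2], [7]), ([6, 4], [1, 7]), ([7, 1, 5], [6]), ([1, 5, 7], [4]), ([7, 3], [6, 5]), ([3, 7],
  [1, 4])], [([8], []), ([1, 8], [6]), ([2, 8], [7]), ([4, 8], [5]), ([0, 7, 5], [8, 3]), ([1, 8],
  [3]), ([6], [8, 2]), ([4, 6], [3, 8]), ([2, 8, 3], [6]), ([3, 7], [4, 8]), ([7, 3], [8, 1])],
  [([9], []), ([3, 9], [6]), ([4, 9], [7]), ([5, 9], [8]), ([4, 9], [2]), ([1, 7], [2, 9, 3]),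
  ([7], [2, 9]), ([6], [9, 5]), ([0, 4, 9], []), ([3, 9], [7]), ([0, 4, 9], [8, 1]), ([3, 9],
  [0]), ([1, 5, 9], []), ([1, 4, 9], [2, 6]), ([0, 2, 5, 9], []), ([0, 2, 8], [9]), ([3, 9], [0,
  8]), ([6], [0, 9, 5])]]

def TL : List (List ℕ × List ℕ) := [([0], []), ([1], []), ([3], []), ([6], []), ([2], []), ([4],
  []), ([7], []), ([5], []), ([8], []), ([9], []), ([0, 2], [1]), ([0, 4], [3]), ([0, 7], [6]),
  ([1, 5], [3]), ([1, 8], [6]), ([3, 9], [6]), ([2, 5], [4]), ([2, 8], [7]), ([4, 9], [7]), ([5,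
  9], [8])]

/-! ### the search -/

def sumAt (w : List ℕ) : List ℕ → ℕ
  | [] => 0
  | i :: l => Nat.add (w.getD i 0) (sumAt w l)

def ck1 (w : List ℕ) (p : List ℕ × List ℕ) : Bool :=
  and (Nat.ble (Nat.add (sumAt w p.1) p.2.length) (Nat.add (Nat.add (sumAt w p.2) p.1.length) 1))
    (Nat.ble (Nat.add (sumAt w p.2) p.1.length) (Nat.add (Nat.add (sumAt w p.1) p.2.length) 1))

def eqL (w : List ℕ) (t l : ℕ) : Bool :=
  Nat.beq (Nat.add (ty t l) (Nat.add (sumAt w (TL.getD l ([], [])).2) (TL.getD l ([], [])).1.length))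
    (Nat.add (sumAt w (TL.getD l ([], [])).1) (Nat.add (TL.getD l ([], [])).2.length 1))

def allB (P : ℕ → Bool) : ℕ → Bool
  | 0 => true
  | n + 1 => and (P n) (allB P n)

def anyB (P : ℕ → Bool) : ℕ → Bool
  | 0 => false
  | n + 1 => or (P n) (anyB P n)

def leaf (w : List ℕ) : Bool := anyB (fun t => allB (fun l => eqL w t l) 20) 151

def allL (w : List ℕ) : List (List ℕ × List ℕ) → Bool
  | [] => true
  | p :: l => and (ck1 w p) (allL w l)

def srch : ℕ → List ℕ → Bool
  | 0, w => leaf w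
  | n + 1, w => allB (fun x => cond (allL (w ++ [x]) (TB.getD (Nat.sub 9 n) [])) 
      (srch n (w ++ [x])) true) 3

theorem srch_true : srch 10 [] = true := by decide +kernel

theorem allB_spec {P : ℕ → Bool} : ∀ {n : ℕ}, allB P n = true → ∀ m < n, P m = true
  | 0, _, m, hm => absurd hm (by omega)
  | n + 1, h, m, hm => by
      simp only [allB, Bool.and_eq_true] at h
      rcases Nat.lt_succ_iff_lt_or_eq.1 hm with hm | rfl
      · exact allB_spec h.2 m hm
      · exact h.1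

theorem anyB_spec {P : ℕ → Bool} : ∀ {n : ℕ}, anyB P n = true → ∃ m < n, P m = true
  | 0, h => by simp [anyB] at h
  | n + 1, h => by
      simp only [anyB, Bool.or_eq_true] at h
      rcases h with h | h
      · exact ⟨n, by omega, h⟩
      · obtain ⟨m, hm, hp⟩ := anyB_spec h
        exact ⟨m, by omega, hp⟩

theorem allL_intro {w : List ℕ} : ∀ {l : List (List ℕ × List ℕ)}, (∀ p ∈ l, ck1 w p = true) →
    allL w l = true
  | [], _ => rfl
  | p :: l, h => by
      simp only [allL, Bool.and_eq_true]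
      exact ⟨h p (by simp), allL_intro fun q hq => h q (by simp [hq])⟩

/-! ### cycles -/

def posIdx : Fin 6 × Fin 6 → Option ℕ
  | (1, 2) => some 0
  | (1, 3) => some 1
  | (2, 3) => some 2
  | (1, 4) => some 3
  | (2, 4) => some 4
  | (3, 4) => some 5
  | (1, 5) => some 6
  | (2, 5) => some 7
  | (3, 5) => some 8
  | (4, 5) => some 9
  | _ => none

def tm (c : List (Fin 6)) : List ℕ × List ℕ :=
  ((edges c).filterMap posIdx, (edges c).filterMap fun e => posIdx e.swap)

def PR : List (Fin 6 × Fin 6) := [(1, 2), (1, 3), (2, 3), (1, 4), (2, 4), (3, 4), (1, 5), (2, 5),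
  (3, 5), (4, 5)]

theorem TB_eq : TB = CYL.map (List.map tm) := by decide +kernel

theorem TL_eq : TL = T6.map fun x => tm [x.1, x.2.1, x.2.2] := by decide +kernel

theorem CYL_cycle : ∀ L ∈ CYL, ∀ c ∈ L, 3 ≤ c.length ∧ c.Nodup := by decide +kernel

theorem TB_idx : ∀ k < 10, ∀ p ∈ TB.getD k [], (∀ i ∈ p.1, i ≤ k) ∧ ∀ i ∈ p.2, i ≤ k := by
  decide +kernel

theorem TL_idx : ∀ l < 20, (∀ i ∈ (TL.getD l ([], [])).1, i < 10) ∧ 
    ∀ i ∈ (TL.getD l ([], [])).2, i < 10 := by
  decide +kernel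

section

variable (f : Fin 6 → Fin 6 → ℤ)

/-- gauge -/
def FF (i j : Fin 6) : ℤ := f 0 i + f i j + f j 0

def gg (k : ℕ) : ℤ := FF f (PR.getD k (0, 0)).1 (PR.getD k (0, 0)).2

theorem FF_pt (hf : ∀ i j, f j i = - f i j) (e : Fin 6 × Fin 6) : 
    FF f e.1 e.2 = ((posIdx e).toList.map (gg f)).sum - ((posIdx e.swap).toList.map (gg f)).sum := by
  have h00 : f 0 0 = 0 := by have := hf 0 0; omega
  have h11 : f 1 1 = 0 := by have := hf 1 1; omega
  have h22 : f 2 2 = 0 := by have := hf 2 2; omega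
  have h33 : f 3 3 = 0 := by have := hf 3 3; omega
  have h44 : f 4 4 = 0 := by have := hf 4 4; omega
  have h55 : f 5 5 = 0 := by have := hf 5 5; omega
  obtain ⟨i, j⟩ := e
  have h01 := hf 0 1
  have h02 := hf 0 2
  have h03 := hf 0 3
  have h04 := hf 0 4
  have h05 := hf 0 5
  have h12 := hf 1 2
  have h13 := hf 1 3
  have h14 := hf 1 4
  have h15 := hf 1 5
  have h23 := hf 2 3
  have h24 := hf 2 4
  have h25 := hf 2 5
  have h34 := hf 3 4
  have h35 := hf 3 5
  have h45 := hf 4 5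
  fin_cases i <;> fin_cases j <;> 
    simp [FF, gg, PR, posIdx, Prod.swap] <;> omega

theorem FF_sum (hf : ∀ i j, f j i = - f i j) : ∀ E : List (Fin 6 × Fin 6), 
    (E.map fun e => FF f e.1 e.2).sum = ((E.filterMap posIdx).map (gg f)).sum - 
      ((E.filterMap fun e => posIdx e.swap).map (gg f)).sum
  | [] => by simp
  | e :: E => by
      have h1 := FF_pt f hf e
      have h2 := FF_sum hf E
      rw [List.map_cons, List.sum_cons, h1, h2]
      cases h3 : posIdx e <;> cases h4 : posIdx e.swap <;> 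
        simp [h3, h4] <;> ring

theorem edges_sum (hf : ∀ i j, f j i = - f i j) (c : List (Fin 6)) : 
    ((edges c).map fun e => FF f e.1 e.2).sum = ((edges c).map fun e => f e.1 e.2).sum := by
  have e1 : (edges c).map (fun e => FF f e.1 e.2) = 
      (edges c).map (fun e => (f e.1 e.2 + f 0 e.1) + (- f 0 e.2)) := by
    refine List.map_congr_left fun e _ => ?_
    have := hf 0 e.2
    simp only [FF]
    rw [this]; ring
  rw [e1, List.sum_map_add, List.sum_map_add]
  have e2 : ((edges c).map fun e => f 0 e.1).sum = (c.map (f 0)).sum := by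
    have : (edges c).map (fun e => f 0 e.1) = ((edges c).map Prod.fst).map (f 0) := by
      rw [List.map_map]; rfl
    rw [this, edges, List.map_fst_zip (by simp)]
  have e3 : ((edges c).map fun e => - f 0 e.2).sum = - (c.map (f 0)).sum := by
    have : (edges c).map (fun e => - f 0 e.2) = ((edges c).map Prod.snd).map (fun x => - f 0 x) := by
      rw [List.map_map]; rfl
    rw [this, edges, List.map_snd_zip (by simp)]
    have hp : (List.map (fun x => - f 0 x) (c.rotate 1)).sum = (List.map (fun x => - f 0 x) c).sum :=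
      ((List.rotate_perm c 1).map _).sum_eq
    have hneg : ∀ l : List (Fin 6), (l.map fun x => - f 0 x).sum = - (l.map (f 0)).sum := by
      intro l
      induction l with
      | nil => simp
      | cons a l ih => simp only [List.map_cons, List.sum_cons, ih]; ring
    rw [hp, hneg]
  rw [e2, e3]; ring

theorem gg_sum (hf : ∀ i j, f j i = - f i j) (c : List (Fin 6)) : 
    (((tm c).1.map (gg f)).sum - ((tm c).2.map (gg f)).sum) = 
      ((edges c).map fun e => f e.1 e.2).sum := by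
  rw [← edges_sum f hf, FF_sum f hf]; rfl

/-- the prefix of the assignment -/
def ww (k : ℕ) : List ℕ := (List.range k).map fun i => (gg f i + 1).toNat

theorem ww_succ (k : ℕ) : ww f (k + 1) = ww f k ++ [(gg f k + 1).toNat] := by
  simp [ww, List.range_succ]

theorem sumAt_ww (k : ℕ) (h1 : ∀ i < k, -1 ≤ gg f i) : ∀ l : List ℕ, (∀ i ∈ l, i < k) → 
    ((sumAt (ww f k) l : ℕ) : ℤ) = (l.map (gg f)).sum + l.length
  | [], _ => by simp [sumAt]
  | i :: l, h => by
      have h2 := sumAt_ww k h1 l (fun j hj => h j (by simp [hj]))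
      have hi : i < k := h i (by simp)
      have h3 : (ww f k).getD i 0 = (gg f i + 1).toNat := by
        rw [List.getD_eq_getElem _ _ (by simpa [ww] using hi)]
        simp [ww]
      have h4 : (((gg f i + 1).toNat : ℕ) : ℤ) = gg f i + 1 := Int.toNat_of_nonneg (by 
        have := h1 i hi; omega)
      show ((((ww f k).getD i 0) + sumAt (ww f k) l : ℕ) : ℤ) = _
      rw [h3, Nat.cast_add, h4, h2]
      simp only [List.map_cons, List.sum_cons, List.length_cons, Nat.cast_add, Nat.cast_one]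
      ring

end

theorem classify (f : Fin 6 → Fin 6 → ℤ) (hf : ∀ i j, f j i = - f i j)
    (hb : ∀ c : List (Fin 6), IsCycle c → |((edges c).map fun e => f e.1 e.2).sum| ≤ 1) :
    ∃ t < 151, ∀ l < 20, ((ty t l : ℕ) : ℤ) - 1 = 
      f (t6 l).1 (t6 l).2.1 + f (t6 l).2.1 (t6 l).2.2 + f (t6 l).2.2 (t6 l).1 := by
  have hg : ∀ i < 10, -1 ≤ gg f i ∧ gg f i ≤ 1 := by
    intro i hi
    have h1 : ∀ i < 10, IsCycle [0, (PR.getD i (0, 0)).1, (PR.getD i (0, 0)).2] := by
      unfold IsCycle; decide +kernel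
    have h2 := hb _ (h1 i hi)
    have h3 : ((edges [0, (PR.getD i (0, 0)).1, (PR.getD i (0, 0)).2]).map 
        fun e => f e.1 e.2).sum = gg f i := by
      simp [edges, gg, FF, List.rotate]; ring
    rw [h3] at h2
    exact abs_le.1 h2
  have hgl : ∀ k ≤ 10, ∀ i < k, -1 ≤ gg f i := fun k hk i hi => (hg i (by omega)).1
  have key : ∀ n ≤ 10, srch n (ww f (10 - n)) = true → leaf (ww f 10) = true := by
    intro n
    induction n with
    | zero => intro _ h; simpa [srch] using h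
    | succ n ih =>
      intro hn h
      apply ih (by omega)
      have hk : 10 - (n + 1) = 9 - n := by omega
      have hk2 : 10 - n = (9 - n) + 1 := by omega
      have hx : (gg f (9 - n) + 1).toNat < 3 := by
        have := hg (9 - n) (by omega); omega
      have h5 := allB_spec h _ hx
      rw [hk] at h5
      rw [hk2, ww_succ]
      have h6 : allL (ww f (9 - n) ++ [(gg f (9 - n) + 1).toNat]) (TB.getD (9 - n) []) = true := by
        apply allL_intro
        intro p hp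
        have hi := TB_idx (9 - n) (by omega) p hp
        have hp2 : ∃ c : List (Fin 6), IsCycle c ∧ p = tm c := by
          rw [TB_eq] at hp
          have hl : (CYL.map (List.map tm)).getD (9 - n) [] = (CYL.getD (9 - n) []).map tm := by
            rw [← List.map_nil (f := tm), List.getD_map]
          rw [hl] at hp
          obtain ⟨c, hc, rfl⟩ := List.mem_map.1 hp
          refine ⟨c, ?_, rfl⟩
          by_cases hlt : 9 - n < CYL.length
          · rw [List.getD_eq_getElem _ _ hlt] at hc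
            exact CYL_cycle _ (List.getElem_mem hlt) c hc
          · rw [List.getD_eq_default _ _ (by omega)] at hc
            simp at hc
        obtain ⟨c, hc, rfl⟩ := hp2
        have h7 := abs_le.1 (hb c hc)
        rw [← gg_sum f hf c] at h7
        rw [← ww_succ]
        have a1 := sumAt_ww f (9 - n + 1) (hgl _ (by omega)) (tm c).1 
          (fun i hi' => by have := hi.1 i hi'; omega)
        have a2 := sumAt_ww f (9 - n + 1) (hgl _ (by omega)) (tm c).2
          (fun i hi' => by have := hi.2 i hi'; omega)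
        simp only [ck1, Bool.and_eq_true, Nat.ble_eq, Nat.add_eq]
        constructor <;> zify <;> rw [a1, a2] <;> linarith [h7.1, h7.2]
      have h8 : (cond (allL (ww f (9 - n) ++ [(gg f (9 - n) + 1).toNat]) (TB.getD (9 - n) [])) 
          (srch n (ww f (9 - n) ++ [(gg f (9 - n) + 1).toNat])) true) = true := h5
      rw [h6] at h8
      exact h8
  have hleaf := key 10 le_rfl srch_true
  obtain ⟨t, ht, h9⟩ := anyB_spec hleaf
  refine ⟨t, ht, fun l hl => ?_⟩
  have h10 := allB_spec h9 l hl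
  have hi := TL_idx l hl
  have a1 := sumAt_ww f 10 (hgl _ le_rfl) _ hi.1
  have a2 := sumAt_ww f 10 (hgl _ le_rfl) _ hi.2
  have h11 := Nat.eq_of_beq_eq_true h10
  have h12 : TL.getD l ([], []) = tm [(t6 l).1, (t6 l).2.1, (t6 l).2.2] := by
    have hlen : l < T6.length := by simpa [T6] using hl
    rw [TL_eq, List.getD_eq_getElem _ _ (by simpa using hlen), List.getElem_map, t6, 
      List.getD_eq_getElem _ _ hlen]
  rw [h12] at a1 a2 h11
  have h13 := gg_sum f hf [(t6 l).1, (t6 l).2.1, (t6 l).2.2]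
  have h14 : ((edges [(t6 l).1, (t6 l).2.1, (t6 l).2.2]).map fun e => f e.1 e.2).sum = 
      f (t6 l).1 (t6 l).2.1 + f (t6 l).2.1 (t6 l).2.2 + f (t6 l).2.2 (t6 l).1 := by
    simp [edges, List.rotate]; ring
  rw [h14] at h13
  rw [← h13]
  have h15 : ((ty t l : ℕ) : ℤ) + (((sumAt (ww f 10) (tm [(t6 l).1, (t6 l).2.1, (t6 l).2.2]).2 : ℕ) : ℤ) + 
      ((tm [(t6 l).1, (t6 l).2.1, (t6 l).2.2]).1.length : ℕ)) = 
      ((sumAt (ww f 10) (tm [(t6 l).1, (t6 l).2.1, (t6 l).2.2]).1 : ℕ) : ℤ) + 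
      (((tm [(t6 l).1, (t6 l).2.1, (t6 l).2.2]).2.length : ℕ) + 1) := by
    exact_mod_cast h11
  rw [a1, a2] at h15
  linarith

end Pool.Agent.H891R2.KN.C1
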