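import Pool.Agent.H891R2.KN.Sem

set_option autoImplicit false

/-!
KC10: the case of a triangle of the third kind; normal form of the types of two disjoint triangles.
-/

namespace Pool.Agent.H891R2.KN.C10

/-- codes `2 l + s` of ordered triples of vertices of `K_6` (triangle number and sign) -/
def CDt : ℕ := 0x9e57d302602375102488064d01e71800701240c1800009a47920000000009c00216cf9408005cb7c06960054c038a10002702271098002068e0000000008e100054975b01400344f0080800258c060c90084058a8a000050800000000065754000134b24000001f7590067806d700471a0150026165000000000000001c50c100001344d1c04803cb14040e0090c030a200040184080000000000000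

def cd (p q r : ℕ) : ℕ :=
  Nat.mod (Nat.shiftRight CDt (Nat.mul 6 (Nat.add (Nat.mul 36 p) (Nat.add (Nat.mul 6 q) r)))) 64

/-- the signed value (plus 1) of the type `t` on an ordered triple -/
def svn (t s c : ℕ) : ℕ :=
  cond (Nat.beq (Nat.mod (Nat.add c s) 2) 0) (ty t (Nat.div c 2)) (Nat.sub 2 (ty t (Nat.div c 2)))

/-- permutations of three elements and their signs -/
def P3 : List (ℕ × ℕ × ℕ × ℕ) :=
  [(0, 1, 2, 0), (1, 2, 0, 0), (2, 0, 1, 0), (1, 0, 2, 1), (0, 2, 1, 1), (2, 1, 0, 1)]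

def app (p g : ℕ × ℕ × ℕ × ℕ) (i : ℕ) : ℕ :=
  if i = 0 then p.1 else if i = 1 then p.2.1 else if i = 2 then p.2.2.1 else
  if i = 3 then g.1 + 3 else if i = 4 then g.2.1 + 3 else g.2.2.1 + 3

def T6n : List (ℕ × ℕ × ℕ × ℕ) := [(0, 0, 1, 2), (1, 0, 1, 3), (2, 0, 1, 4), (3, 0, 1, 5),
  (4, 0, 2, 3), (5, 0, 2, 4), (6, 0, 2, 5), (7, 0, 3, 4), (8, 0, 3, 5), (9, 0, 4, 5),
  (10, 1, 2, 3), (11, 1, 2, 4), (12, 1, 2, 5), (13, 1, 3, 4), (14, 1, 3, 5), (15, 1, 4, 5),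
  (16, 2, 3, 4), (17, 2, 3, 5), (18, 2, 4, 5), (19, 3, 4, 5)]

def tn (l : ℕ) : ℕ × ℕ × ℕ := (T6n.getD l (0, 0, 0, 0)).2

/-- the type `t` becomes the type `t'` -/
def ok (t t' s : ℕ) (p g : ℕ × ℕ × ℕ × ℕ) : Bool :=
  T6n.all fun x => Nat.beq (ty t' x.1) (svn t s (cd (app p g x.2.1) (app p g x.2.2.1) (app p g x.2.2.2)))

def chk (t u : ℕ) : Bool :=
  P3.any fun β => P3.any fun γ => (ok t 143 0 β γ || ok t 143 1 β γ) &&
    (P3.any fun α => [0, 1].any fun e => ok t 143 (e + α.2.2.2) β γ &&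
      (ok u 30 (e + β.2.2.2) α γ || ok u 143 (e + β.2.2.2) α γ || ok u 147 (e + β.2.2.2) α γ))

def chkAll : Bool :=
  (List.range 151).all fun t => Nat.beq (ty t 0) 1 || Nat.beq (ty t 7) 1 ||
    (List.range 151).all fun u => !(Nat.beq (ty u 0) (ty t 0)) || chk t u

theorem chkAll_true : chkAll = true := by decide +kernel

theorem ty_lt : ((List.range 151).all fun t => (List.range 20).all fun l =>
    Nat.blt (ty t l) 3) = true := by decide +kernel

theorem ty_le (t l : ℕ) (ht : t < 151) (hl : l < 20) : ty t l ≤ 2 := by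
  have h := ty_lt
  rw [List.all_eq_true] at h
  have h1 := h t (List.mem_range.2 ht)
  rw [List.all_eq_true] at h1
  have h2 := h1 l (List.mem_range.2 hl)
  have h3 : ty t l < 3 := Nat.blt_eq.mp h2
  omega

/-- base vertices and local vertices of the triangles 0 and 64 -/
def V (c i : ℕ) : Fin 9 := if c = 0 then Fin.ofNat 9 i else Fin.ofNat 9 (i + 3)

def v (c i : ℕ) : Fin 9 :=
  if c = 0 then Fin.ofNat 9 (i + 3) else if i < 3 then Fin.ofNat 9 i else Fin.ofNat 9 (i + 3)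

def CdP (p q r : ℕ) : Prop := (p ≠ q ∧ p ≠ r ∧ q ≠ r) → cd p q r / 2 < 20 ∧
    ((cd p q r % 2 = 0 ∧ ((p, q, r) = tn (cd p q r / 2) ∨
        (q, r, p) = tn (cd p q r / 2) ∨ (r, p, q) = tn (cd p q r / 2))) ∨
     (cd p q r % 2 = 1 ∧ ((q, p, r) = tn (cd p q r / 2) ∨
        (p, r, q) = tn (cd p q r / 2) ∨ (r, q, p) = tn (cd p q r / 2))))

instance (p q r : ℕ) : Decidable (CdP p q r) := by unfold CdP; infer_instance

theorem cd_facts : ∀ p < 6, ∀ q < 6, ∀ r < 6, CdP p q r := by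
  decide +kernel

theorem tr_facts : ∀ c < 2, tr (64 * c) = (V c 0, V c 1, V c 2) ∧ ∀ l < 20,
    tr (nb (64 * c) l / 32) = (v c (tn l).1, v c (tn l).2.1, v c (tn l).2.2) := by
  decide +kernel

def NdP (c p q r : ℕ) : Prop := (p ≠ q ∧ p ≠ r ∧ q ≠ r) →
    [V c 0, V c 1, V c 2, v c p, v c q, v c r].Nodup

instance (c p q r : ℕ) : Decidable (NdP c p q r) := by unfold NdP; infer_instance

theorem nodup_facts : ∀ c < 2, ∀ p < 6, ∀ q < 6, ∀ r < 6, NdP c p q r := by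
  decide +kernel

theorem tn_facts : ∀ l < 20, (l, tn l) ∈ T6n ∧ (tn l).1 < 6 ∧ (tn l).2.1 < 6 ∧ (tn l).2.2 < 6 ∧
    (tn l).1 ≠ (tn l).2.1 ∧ (tn l).1 ≠ (tn l).2.2 ∧ (tn l).2.1 ≠ (tn l).2.2 := by
  decide +kernel

theorem app_facts : ∀ β ∈ P3, ∀ γ ∈ P3, ∀ i < 6, app β γ i < 6 ∧ ∀ j < 6, i ≠ j →
    app β γ i ≠ app β γ j := by
  decide +kernel

/-- the permutation of the nine vertices -/
def g9 (α β γ : ℕ × ℕ × ℕ × ℕ) (i : Fin 9) : Fin 9 :=
  if i.1 < 6 then Fin.ofNat 9 (app α β i.1) else Fin.ofNat 9 (app α γ (i.1 - 3) + 3)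

theorem g9_inj : ∀ α ∈ P3, ∀ β ∈ P3, ∀ γ ∈ P3, ∀ i j : Fin 9, g9 α β γ i = g9 α β γ j → i = j := by
  decide +kernel

theorem g9_facts : ∀ α ∈ P3, ∀ β ∈ P3, ∀ γ ∈ P3,
    (g9 α β γ (V 0 0) = V 0 α.1 ∧ g9 α β γ (V 0 1) = V 0 α.2.1 ∧ g9 α β γ (V 0 2) = V 0 α.2.2.1) ∧
    (g9 α β γ (V 1 0) = V 1 β.1 ∧ g9 α β γ (V 1 1) = V 1 β.2.1 ∧ g9 α β γ (V 1 2) = V 1 β.2.2.1) ∧
    ∀ i < 6, g9 α β γ (v 0 i) = v 0 (app β γ i) ∧ g9 α β γ (v 1 i) = v 1 (app α γ i) := by
  decide +kernel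

/-- statement of `tri_perm` -/
def TriPerm : Prop := ∀ (ω : Fin 9 → Fin 9 → Fin 9 → Fin 9 → ℤ) (_ : Good ω) (a b c d e f : Fin 9)
    (_ : [a, b, c, d, e, f].Nodup),
    tri ω b c a d e f = tri ω a b c d e f ∧ tri ω b a c d e f = - tri ω a b c d e f ∧
    tri ω a b c e f d = tri ω a b c d e f ∧ tri ω a b c e d f = - tri ω a b c d e f

theorem left_perm (hperm : TriPerm) (ω : Fin 9 → Fin 9 → Fin 9 → Fin 9 → ℤ) (hω : Good ω)
    (a b c d e f : Fin 9) (h : [a, b, c, d, e, f].Nodup) :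
    tri ω b c a d e f = tri ω a b c d e f ∧ tri ω c a b d e f = tri ω a b c d e f ∧
    tri ω b a c d e f = - tri ω a b c d e f ∧ tri ω a c b d e f = - tri ω a b c d e f ∧
    tri ω c b a d e f = - tri ω a b c d e f := by
  have h1 : [b, c, a, d, e, f].Nodup := by
    simp only [List.nodup_cons, List.mem_cons, List.not_mem_nil, or_false, not_or] at h ⊢
    tauto
  have h2 : [b, a, c, d, e, f].Nodup := by
    simp only [List.nodup_cons, List.mem_cons, List.not_mem_nil, or_false, not_or] at h ⊢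
    tauto
  have h3 : [a, c, b, d, e, f].Nodup := by
    simp only [List.nodup_cons, List.mem_cons, List.not_mem_nil, or_false, not_or] at h ⊢
    tauto
  have e1 := hperm ω hω a b c d e f h
  have e2 := hperm ω hω b c a d e f h1
  have e3 := hperm ω hω b a c d e f h2
  have e4 := hperm ω hω a c b d e f h3
  have q1 := e1.1
  have q2 := e2.1
  have q3 := e1.2.1
  have q4 := e3.1
  have q5 := e4.1
  refine ⟨q1, q2.trans q1, q3, q4.trans q3, q5.trans (q4.trans q3)⟩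

theorem right_perm (hperm : TriPerm) (ω : Fin 9 → Fin 9 → Fin 9 → Fin 9 → ℤ) (hω : Good ω)
    (a b c d e f : Fin 9) (h : [a, b, c, d, e, f].Nodup) :
    tri ω a b c e f d = tri ω a b c d e f ∧ tri ω a b c f d e = tri ω a b c d e f ∧
    tri ω a b c e d f = - tri ω a b c d e f ∧ tri ω a b c d f e = - tri ω a b c d e f ∧
    tri ω a b c f e d = - tri ω a b c d e f := by
  have h1 : [a, b, c, e, f, d].Nodup := by
    simp only [List.nodup_cons, List.mem_cons, List.not_mem_nil, or_false, not_or] at h ⊢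
    tauto
  have h2 : [a, b, c, e, d, f].Nodup := by
    simp only [List.nodup_cons, List.mem_cons, List.not_mem_nil, or_false, not_or] at h ⊢
    tauto
  have h3 : [a, b, c, d, f, e].Nodup := by
    simp only [List.nodup_cons, List.mem_cons, List.not_mem_nil, or_false, not_or] at h ⊢
    tauto
  have e1 := hperm ω hω a b c d e f h
  have e2 := hperm ω hω a b c e f d h1
  have e3 := hperm ω hω a b c e d f h2
  have e4 := hperm ω hω a b c d f e h3
  have q1 := e1.2.2.1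
  have q2 := e2.2.2.1
  have q3 := e1.2.2.2
  have q4 := e3.2.2.1
  have q5 := e4.2.2.1
  refine ⟨q1, q2.trans q1, q3, q4.trans q3, q5.trans (q4.trans q3)⟩

/-- sign of a number -/
def sg (s : ℕ) : ℤ := if s % 2 = 0 then 1 else -1

theorem svn_sg (t s c : ℕ) (ht : t < 151) (hc : c / 2 < 20) :
    ((svn t s c : ℕ) : ℤ) - 1 = sg s * (sg c * (((ty t (c / 2) : ℕ) : ℤ) - 1)) := by
  have h := ty_le t (c / 2) ht hc
  have h1 : svn t s c = if (c + s) % 2 = 0 then ty t (c / 2) else 2 - ty t (c / 2) := by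
    unfold svn
    show (bif Nat.beq ((c + s) % 2) 0 then ty t (c / 2) else 2 - ty t (c / 2)) = _
    rcases Nat.mod_two_eq_zero_or_one (c + s) with h2 | h2
    · rw [h2]; rfl
    · rw [h2]; rfl
  rw [h1]
  unfold sg
  rcases Nat.mod_two_eq_zero_or_one c with hc2 | hc2 <;>
    rcases Nat.mod_two_eq_zero_or_one s with hs2 | hs2
  · have : (c + s) % 2 = 0 := by omega
    simp [this, hc2, hs2]
  · have : (c + s) % 2 = 1 := by omega
    simp [this, hc2, hs2, Nat.cast_sub h]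
    ring
  · have : (c + s) % 2 = 1 := by omega
    simp [this, hc2, hs2, Nat.cast_sub h]
    ring
  · have : (c + s) % 2 = 0 := by omega
    simp [this, hc2, hs2]

/-- the values of a triangle of type `t` on ordered triples -/
theorem tri_val (hperm : TriPerm) (ω : Fin 9 → Fin 9 → Fin 9 → Fin 9 → ℤ) (hω : Good ω)
    (c t : ℕ) (hc : c < 2) (ht : HasType ω (64 * c) t) (p q r : ℕ) (hp : p < 6) (hq : q < 6)
    (hr : r < 6) (hpq : p ≠ q) (hpr : p ≠ r) (hqr : q ≠ r) :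
    tri ω (V c 0) (V c 1) (V c 2) (v c p) (v c q) (v c r) =
      sg (cd p q r) * (((ty t (cd p q r / 2) : ℕ) : ℤ) - 1) := by
  obtain ⟨hl, hcase⟩ := cd_facts p hp q hq r hr ⟨hpq, hpr, hqr⟩
  obtain ⟨htr, htr2⟩ := tr_facts c hc
  have h1 := ht.2 _ hl
  rw [val, htr, htr2 _ hl] at h1
  simp only at h1
  have hnd := nodup_facts c hc p hp q hq r hr ⟨hpq, hpr, hqr⟩
  obtain ⟨r1, r2, r3, r4, r5⟩ := right_perm hperm ω hω _ _ _ _ _ _ hnd
  rcases hcase with ⟨hs, hcase⟩ | ⟨hs, hcase⟩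
  · have hsg : sg (cd p q r) = 1 := by simp [sg, hs]
    rw [hsg, one_mul, h1]
    rcases hcase with h | h | h
    · rw [← h]
    · rw [← h]; exact r1.symm
    · rw [← h]; exact r2.symm
  · have hsg : sg (cd p q r) = -1 := by simp [sg, hs]
    rw [hsg, h1]
    rcases hcase with h | h | h
    · rw [← h]
      show _ = -1 * tri ω (V c 0) (V c 1) (V c 2) (v c q) (v c p) (v c r)
      rw [r3]; ring
    · rw [← h]
      show _ = -1 * tri ω (V c 0) (V c 1) (V c 2) (v c p) (v c r) (v c q)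
      rw [r4]; ring
    · rw [← h]
      show _ = -1 * tri ω (V c 0) (V c 1) (V c 2) (v c r) (v c q) (v c p)
      rw [r5]; ring

theorem left_sg (hperm : TriPerm) (ω : Fin 9 → Fin 9 → Fin 9 → Fin 9 → ℤ) (hω : Good ω)
    (W : ℕ → Fin 9) (α : ℕ × ℕ × ℕ × ℕ) (hα : α ∈ P3) (d e f : Fin 9)
    (h : [W 0, W 1, W 2, d, e, f].Nodup) :
    tri ω (W α.1) (W α.2.1) (W α.2.2.1) d e f = sg α.2.2.2 * tri ω (W 0) (W 1) (W 2) d e f := by
  obtain ⟨r1, r2, r3, r4, r5⟩ := left_perm hperm ω hω _ _ _ _ _ _ h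
  simp only [P3, List.mem_cons, List.not_mem_nil, or_false] at hα
  rcases hα with rfl | rfl | rfl | rfl | rfl | rfl
  · simp [sg]
  · simp [sg, r1]
  · simp [sg, r2]
  · simp [sg, r3]
  · simp [sg, r4]
  · simp [sg, r5]

/-- change of the type under a relabelling -/
theorem hasType_map (hperm : TriPerm)
    (htm : ∀ (ω : Fin 9 → Fin 9 → Fin 9 → Fin 9 → ℤ) (g : Fin 9 → Fin 9) (ε : ℤ)
      (a b c d e f : Fin 9), tri (fun i j k l => ε * ω (g i) (g j) (g k) (g l)) a b c d e f =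
      ε * tri ω (g a) (g b) (g c) (g d) (g e) (g f))
    (ω : Fin 9 → Fin 9 → Fin 9 → Fin 9 → ℤ) (hω : Good ω)
    (c t t' s : ℕ) (hc : c < 2) (ht : HasType ω (64 * c) t) (ht' : t' < 151)
    (α β γ : ℕ × ℕ × ℕ × ℕ) (hα : α ∈ P3) (hβ : β ∈ P3) (hγ : γ ∈ P3) (G : Fin 9 → Fin 9) (ε : ℤ)
    (hG0 : G (V c 0) = V c α.1) (hG1 : G (V c 1) = V c α.2.1) (hG2 : G (V c 2) = V c α.2.2.1)
    (hGv : ∀ i < 6, G (v c i) = v c (app β γ i)) (hok : ok t t' s β γ = true)
    (hε : ε * sg α.2.2.2 = sg s) :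
    HasType (fun i j k l => ε * ω (G i) (G j) (G k) (G l)) (64 * c) t' := by
  refine ⟨ht', fun l hl => ?_⟩
  obtain ⟨hmem, a1, a2, a3, a4, a5, a6⟩ := tn_facts l hl
  obtain ⟨htr, htr2⟩ := tr_facts c hc
  have b1 := app_facts β hβ γ hγ _ a1
  have b2 := app_facts β hβ γ hγ _ a2
  have b3 := app_facts β hβ γ hγ _ a3
  have c1 := b1.2 _ a2 a4
  have c2 := b1.2 _ a3 a5
  have c3 := b2.2 _ a3 a6
  rw [ok, List.all_eq_true] at hok
  have h1 := Nat.eq_of_beq_eq_true (hok _ hmem)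
  simp only at h1
  rw [h1, val, htr, htr2 l hl]
  simp only
  rw [htm, hG0, hG1, hG2, hGv _ a1, hGv _ a2, hGv _ a3]
  have hnd := nodup_facts c hc _ b1.1 _ b2.1 _ b3.1 ⟨c1, c2, c3⟩
  rw [left_sg hperm ω hω (V c) α hα _ _ _ hnd, ← mul_assoc, hε,
    tri_val hperm ω hω c t hc ht _ _ _ b1.1 b2.1 b3.1 c1 c2 c3]
  exact svn_sg t s _ ht.1 (cd_facts _ b1.1 _ b2.1 _ b3.1 ⟨c1, c2, c3⟩).1

theorem sg_add (a b : ℕ) : sg (a + b) = sg a * sg b := by
  unfold sg
  rcases Nat.mod_two_eq_zero_or_one a with ha | ha <;>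
    rcases Nat.mod_two_eq_zero_or_one b with hb | hb
  · have : (a + b) % 2 = 0 := by omega
    simp [this, ha, hb]
  · have : (a + b) % 2 = 1 := by omega
    simp [this, ha, hb]
  · have : (a + b) % 2 = 1 := by omega
    simp [this, ha, hb]
  · have : (a + b) % 2 = 0 := by omega
    simp [this, ha, hb]

/-- KC10 (uses KC2, KC9): the case of a triangle of the third kind -/
theorem wlog_S2
    (exists_type : ∀ (ω : Fin 9 → Fin 9 → Fin 9 → Fin 9 → ℤ) (_ : Good ω) (T : ℕ) (_ : T < 84),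
      ∃ t, HasType ω T t)
    (good_map : ∀ (ω : Fin 9 → Fin 9 → Fin 9 → Fin 9 → ℤ) (_ : Good ω) (g : Equiv.Perm (Fin 9))
      (ε : ℤ) (_ : ε = 1 ∨ ε = -1), Good (fun i j k l => ε * ω (g i) (g j) (g k) (g l)))
    (tri_perm : ∀ (ω : Fin 9 → Fin 9 → Fin 9 → Fin 9 → ℤ) (_ : Good ω) (a b c d e f : Fin 9)
      (_ : [a, b, c, d, e, f].Nodup),
      tri ω b c a d e f = tri ω a b c d e f ∧ tri ω b a c d e f = - tri ω a b c d e f ∧
      tri ω a b c e f d = tri ω a b c d e f ∧ tri ω a b c e d f = - tri ω a b c d e f)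
    (tri_map : ∀ (ω : Fin 9 → Fin 9 → Fin 9 → Fin 9 → ℤ) (g : Fin 9 → Fin 9) (ε : ℤ)
      (a b c d e f : Fin 9), tri (fun i j k l => ε * ω (g i) (g j) (g k) (g l)) a b c d e f =
      ε * tri ω (g a) (g b) (g c) (g d) (g e) (g f))
    (ω : Fin 9 → Fin 9 → Fin 9 → Fin 9 → ℤ) (hω : Good ω) (h : S2 ω) :
    ∃ ω' : Fin 9 → Fin 9 → Fin 9 → Fin 9 → ℤ, Good ω' ∧ HasType ω' 0 143 ∧
      (HasType ω' 64 30 ∨ HasType ω' 64 143 ∨ HasType ω' 64 147) := by
  obtain ⟨x, y, z, w, a, b, c, d, hnd, h1, h2⟩ := h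
  -- the ninth vertex
  obtain ⟨n, hn⟩ : ∃ n : Fin 9, n ∉ [x, y, z, w, a, b, c, d] := by
    by_contra hcon
    push Not at hcon
    have h3 : (Finset.univ : Finset (Fin 9)) ⊆ [x, y, z, w, a, b, c, d].toFinset := by
      intro i _
      exact List.mem_toFinset.2 (hcon i)
    have h4 := Finset.card_le_card h3
    have h5 := List.toFinset_card_le [x, y, z, w, a, b, c, d]
    simp only [Finset.card_univ, Fintype.card_fin, List.length_cons, List.length_nil] at h4 h5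
    omega
  have hnd' : [n, x, y, z, w, a, b, c, d].Nodup := List.nodup_cons.2 ⟨hn, hnd⟩
  have hnd'' : [x, y, z, w, a, b, c, d, n].Nodup := by
    have := List.nodup_append_comm.1 (show ([n] ++ [x, y, z, w, a, b, c, d]).Nodup from hnd')
    exact this
  let g0 : Fin 9 → Fin 9 := [x, y, z, w, a, b, c, d, n].get
  have hg0 : Function.Injective g0 := List.nodup_iff_injective_get.1 hnd''
  let g : Equiv.Perm (Fin 9) := Equiv.ofBijective g0 (Finite.injective_iff_bijective.1 hg0)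
  let ω1 : Fin 9 → Fin 9 → Fin 9 → Fin 9 → ℤ := fun i j k l => 1 * ω (g i) (g j) (g k) (g l)
  have hω1 : Good ω1 := good_map ω hω g 1 (Or.inl rfl)
  have k1 : tri ω1 (V 0 0) (V 0 1) (V 0 2) (v 0 0) (v 0 1) (v 0 2) ≠ 0 := by
    have : tri ω1 (V 0 0) (V 0 1) (V 0 2) (v 0 0) (v 0 1) (v 0 2) = 1 * tri ω x y z w a b :=
      tri_map ω g 1 _ _ _ _ _ _
    rw [this, one_mul]
    exact h1
  have k2 : tri ω1 (V 0 0) (V 0 1) (V 0 2) (v 0 0) (v 0 3) (v 0 4) ≠ 0 := by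
    have : tri ω1 (V 0 0) (V 0 1) (V 0 2) (v 0 0) (v 0 3) (v 0 4) = 1 * tri ω x y z w c d :=
      tri_map ω g 1 _ _ _ _ _ _
    rw [this, one_mul]
    exact h2
  obtain ⟨t, ht⟩ := exists_type ω1 hω1 0 (by norm_num)
  obtain ⟨u, hu⟩ := exists_type ω1 hω1 64 (by norm_num)
  have v1 := tri_val tri_perm ω1 hω1 0 t (by norm_num) ht 0 1 2 (by norm_num) (by norm_num)
    (by norm_num) (by norm_num) (by norm_num) (by norm_num)
  have v2 := tri_val tri_perm ω1 hω1 0 t (by norm_num) ht 0 3 4 (by norm_num) (by norm_num)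
    (by norm_num) (by norm_num) (by norm_num) (by norm_num)
  have v3 := tri_val tri_perm ω1 hω1 1 u (by norm_num) hu 0 1 2 (by norm_num) (by norm_num)
    (by norm_num) (by norm_num) (by norm_num) (by norm_num)
  have c1 : cd 0 1 2 = 0 := by decide +kernel
  have c2 : cd 0 3 4 = 14 := by decide +kernel
  rw [c1] at v1 v3
  rw [c2] at v2
  have s0 : sg 0 = 1 := rfl
  have s14 : sg 14 = 1 := rfl
  rw [s0, one_mul] at v1 v3
  rw [s14, one_mul] at v2
  have hsym : tri ω1 (V 0 0) (V 0 1) (V 0 2) (v 0 0) (v 0 1) (v 0 2) =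
      tri ω1 (V 1 0) (V 1 1) (V 1 2) (v 1 0) (v 1 1) (v 1 2) :=
    hω1.symm 0 1 2 3 4 5 (by decide)
  have t0 : ty t 0 ≠ 1 := by
    intro h0
    apply k1
    rw [v1]
    show ((ty t 0 : ℕ) : ℤ) - 1 = 0
    rw [h0]; norm_num
  have t7 : ty t 7 ≠ 1 := by
    intro h0
    apply k2
    rw [v2]
    show ((ty t 7 : ℕ) : ℤ) - 1 = 0
    rw [h0]; norm_num
  have u0 : ty u 0 = ty t 0 := by
    have h3 : ((ty t 0 : ℕ) : ℤ) - 1 = ((ty u 0 : ℕ) : ℤ) - 1 := (v1.symm.trans hsym).trans v3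
    have h4 : ((ty t 0 : ℕ) : ℤ) = ((ty u 0 : ℕ) : ℤ) := by linarith
    exact_mod_cast h4.symm
  have hchk := chkAll_true
  rw [chkAll, List.all_eq_true] at hchk
  have hc1 := hchk t (List.mem_range.2 ht.1)
  have e1 : Nat.beq (ty t 0) 1 = false := by
    rw [Bool.eq_false_iff]; intro h0; exact t0 (Nat.eq_of_beq_eq_true h0)
  have e2 : Nat.beq (ty t 7) 1 = false := by
    rw [Bool.eq_false_iff]; intro h0; exact t7 (Nat.eq_of_beq_eq_true h0)
  rw [e1, e2, Bool.false_or, Bool.false_or, List.all_eq_true] at hc1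
  have hc2 := hc1 u (List.mem_range.2 hu.1)
  have e3 : Nat.beq (ty u 0) (ty t 0) = true := by rw [u0]; exact Nat.beq_refl _
  rw [e3, Bool.not_true, Bool.false_or, chk, List.any_eq_true] at hc2
  obtain ⟨β, hβ, hc3⟩ := hc2
  rw [List.any_eq_true] at hc3
  obtain ⟨γ, hγ, hc4⟩ := hc3
  rw [Bool.and_eq_true, List.any_eq_true] at hc4
  obtain ⟨-, α, hα, hc5⟩ := hc4
  rw [List.any_eq_true] at hc5
  obtain ⟨e, -, hc6⟩ := hc5
  rw [Bool.and_eq_true, Bool.or_eq_true, Bool.or_eq_true] at hc6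
  obtain ⟨ok1, ok2⟩ := hc6
  let G : Equiv.Perm (Fin 9) := Equiv.ofBijective (g9 α β γ)
    (Finite.injective_iff_bijective.1 (fun i j hij => g9_inj α hα β hβ γ hγ i j hij))
  have hε : sg e = 1 ∨ sg e = -1 := by
    unfold sg
    split
    · exact Or.inl rfl
    · exact Or.inr rfl
  obtain ⟨⟨f1, f2, f3⟩, ⟨f4, f5, f6⟩, f7⟩ := g9_facts α hα β hβ γ hγ
  refine ⟨fun i j k l => sg e * ω1 (G i) (G j) (G k) (G l), good_map ω1 hω1 G (sg e) hε, ?_, ?_⟩
  · exact hasType_map tri_perm tri_map ω1 hω1 0 t 143 (e + α.2.2.2) (by norm_num) ht (by norm_num)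
      α β γ hα hβ hγ G (sg e) f1 f2 f3 (fun i hi => (f7 i hi).1) ok1 (sg_add _ _).symm
  · have key : ∀ t' < 151, ok u t' (e + β.2.2.2) α γ = true →
        HasType (fun i j k l => sg e * ω1 (G i) (G j) (G k) (G l)) 64 t' := fun t' ht' hok =>
      hasType_map tri_perm tri_map ω1 hω1 1 u t' (e + β.2.2.2) (by norm_num) hu ht'
        β α γ hβ hα hγ G (sg e) f4 f5 f6 (fun i hi => (f7 i hi).2) hok (sg_add _ _).symm
    rcases ok2 with (ok2 | ok2) | ok2
    · exact Or.inl (key 30 (by norm_num) ok2)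
    · exact Or.inr (Or.inl (key 143 (by norm_num) ok2))
    · exact Or.inr (Or.inr (key 147 (by norm_num) ok2))

end Pool.Agent.H891R2.KN.C10
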