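import Pool.Agent.H891R2.KN.Sem

set_option autoImplicit false

/-! Task KC11: `type_lt`, `wlog_E`. -/

namespace Pool.Agent.H891R2.KN.C11

open Pool.Agent.H891R2.KN

/-! ### permutations of the vertices of a triangle -/

/-- the statement of `tri_perm` -/
def TP : Prop := ∀ (ω : Fin 9 → Fin 9 → Fin 9 → Fin 9 → ℤ) (_ : Good ω) (a b c d e f : Fin 9)
    (_ : [a, b, c, d, e, f].Nodup),
    tri ω b c a d e f = tri ω a b c d e f ∧ tri ω b a c d e f = - tri ω a b c d e f ∧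
    tri ω a b c e f d = tri ω a b c d e f ∧ tri ω a b c e d f = - tri ω a b c d e f

/-- rotation of a triple -/
def rot (i : ℕ) (x : Fin 9 × Fin 9 × Fin 9) : Fin 9 × Fin 9 × Fin 9 :=
  match i with
  | 0 => x
  | 1 => (x.2.1, x.2.2, x.1)
  | _ => (x.2.2, x.1, x.2.1)

theorem rotL (tp : TP) (ω : Fin 9 → Fin 9 → Fin 9 → Fin 9 → ℤ) (hω : Good ω) (i : ℕ)
    (x : Fin 9 × Fin 9 × Fin 9) (a b c : Fin 9) (h : [x.1, x.2.1, x.2.2, a, b, c].Nodup) :
    tri ω (rot i x).1 (rot i x).2.1 (rot i x).2.2 a b c = tri ω x.1 x.2.1 x.2.2 a b c := by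
  obtain ⟨p, q, r⟩ := x
  match i with
  | 0 => rfl
  | 1 => exact (tp ω hω p q r a b c h).1
  | i + 2 =>
    show tri ω r p q a b c = tri ω p q r a b c
    have h' : [r, p, q, a, b, c].Nodup := by
      simp only [List.nodup_cons, List.mem_cons, List.not_mem_nil, not_or, or_false] at h ⊢
      grind
    exact ((tp ω hω r p q a b c h').1).symm

theorem rotR (tp : TP) (ω : Fin 9 → Fin 9 → Fin 9 → Fin 9 → ℤ) (hω : Good ω) (i : ℕ)
    (x : Fin 9 × Fin 9 × Fin 9) (a b c : Fin 9) (h : [a, b, c, x.1, x.2.1, x.2.2].Nodup) :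
    tri ω a b c (rot i x).1 (rot i x).2.1 (rot i x).2.2 = tri ω a b c x.1 x.2.1 x.2.2 := by
  obtain ⟨p, q, r⟩ := x
  match i with
  | 0 => rfl
  | 1 => exact (tp ω hω a b c p q r h).2.2.1
  | i + 2 =>
    show tri ω a b c r p q = tri ω a b c p q r
    have h' : [a, b, c, r, p, q].Nodup := by
      simp only [List.nodup_cons, List.mem_cons, List.not_mem_nil, not_or, or_false] at h ⊢
      grind
    exact ((tp ω hω a b c r p q h').2.2.1).symm

/-! ### the types `t ≥ 31` -/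

/-- some pairs of triangles of `K_6` with exactly one common vertex -/
def LM : List (ℕ × ℕ) := [(0, 7), (0, 13), (0, 16), (1, 16), (2, 16), (3, 17), (1, 6), (1, 12),
  (4, 12), (4, 14), (5, 8), (5, 15), (6, 15), (11, 14), (11, 17), (13, 17), (13, 18), (14, 18)]

theorem chk0 : ∀ p ∈ LM, p.1 < 20 ∧ p.2 < 20 := by decide +kernel

theorem chk1 : ∀ t < 151, 31 ≤ t → ∃ p ∈ LM, ty t p.1 ≠ 1 ∧ ty t p.2 ≠ 1 := by decide +kernel

theorem chk2 : ∀ T < 84, ∀ p ∈ LM, ∃ i < 3, ∃ j < 3,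
    (rot i (tr (nb T p.1 / 32))).1 = (rot j (tr (nb T p.2 / 32))).1 ∧
    [(tr T).1, (tr T).2.1, (tr T).2.2, (rot i (tr (nb T p.1 / 32))).1,
      (rot i (tr (nb T p.1 / 32))).2.1, (rot i (tr (nb T p.1 / 32))).2.2,
      (rot j (tr (nb T p.2 / 32))).2.1, (rot j (tr (nb T p.2 / 32))).2.2].Nodup := by
  decide +kernel

theorem chk3 : ∀ T < 84, ∀ l < 20,
    [(tr T).1, (tr T).2.1, (tr T).2.2, (tr (nb T l / 32)).1, (tr (nb T l / 32)).2.1,
      (tr (nb T l / 32)).2.2].Nodup := by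
  decide +kernel

theorem val_ne {t l : ℕ} {x : ℤ} (h : ((ty t l : ℕ) : ℤ) - 1 = x) (h' : ty t l ≠ 1) : x ≠ 0 := by
  intro h0
  apply h'
  omega

theorem type_lt' (tp : TP) (ω : Fin 9 → Fin 9 → Fin 9 → Fin 9 → ℤ) (hω : Good ω) (h : ¬ S2 ω)
    (T t : ℕ) (hT : T < 84) (ht : HasType ω T t) : t < 31 := by
  by_contra hge
  push Not at hge
  obtain ⟨p, hp, h1, h2⟩ := chk1 t ht.1 hge
  obtain ⟨hl, hm⟩ := chk0 p hp
  obtain ⟨i, -, j, -, e, hn⟩ := chk2 T hT p hp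
  have v1 := val_ne (ht.2 _ hl) h1
  have v2 := val_ne (ht.2 _ hm) h2
  apply h
  refine ⟨(tr T).1, (tr T).2.1, (tr T).2.2, _, _, _, _, _, hn, ?_, ?_⟩
  · rw [rotR tp ω hω i (tr (nb T p.1 / 32)) _ _ _ (chk3 T hT _ hl)]
    exact v1
  · rw [e, rotR tp ω hω j (tr (nb T p.2 / 32)) _ _ _ (chk3 T hT _ hm)]
    exact v2

/-! ### sorting -/

/-- sign of the sorting permutation -/
def sg (a b c : Fin 9) : ℤ :=
  (if a < b then 1 else -1) * (if a < c then 1 else -1) * (if b < c then 1 else -1)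

/-- the sorted triple -/
def so (a b c : Fin 9) : Fin 9 × Fin 9 × Fin 9 :=
  if a < b then (if b < c then (a, b, c) else if a < c then (a, c, b) else (c, a, b))
  else (if a < c then (b, a, c) else if b < c then (b, c, a) else (c, b, a))

theorem sort_tri (tp : TP) (ω : Fin 9 → Fin 9 → Fin 9 → Fin 9 → ℤ) (hω : Good ω)
    (x y z a b c : Fin 9) (h : [x, y, z, a, b, c].Nodup) :
    tri ω x y z a b c = sg a b c * tri ω x y z (so a b c).1 (so a b c).2.1 (so a b c).2.2 := by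
  have h1 : [x, y, z, b, c, a].Nodup := by
    simp only [List.nodup_cons, List.mem_cons, List.not_mem_nil, not_or, or_false] at h ⊢
    grind
  have h2 : [x, y, z, c, a, b].Nodup := by
    simp only [List.nodup_cons, List.mem_cons, List.not_mem_nil, not_or, or_false] at h ⊢
    grind
  obtain ⟨-, -, e1, e2⟩ := tp ω hω x y z a b c h
  obtain ⟨-, -, e3, e4⟩ := tp ω hω x y z b c a h1
  obtain ⟨-, -, e5, e6⟩ := tp ω hω x y z c a b h2
  have hab : a ≠ b := by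
    simp only [List.nodup_cons, List.mem_cons, List.not_mem_nil, not_or, or_false] at h
    tauto
  have hac : a ≠ c := by
    simp only [List.nodup_cons, List.mem_cons, List.not_mem_nil, not_or, or_false] at h
    tauto
  have hbc : b ≠ c := by
    simp only [List.nodup_cons, List.mem_cons, List.not_mem_nil, not_or, or_false] at h
    tauto
  unfold sg so
  rcases lt_or_gt_of_ne hab with q1 | q1 <;> rcases lt_or_gt_of_ne hac with q2 | q2 <;>
    rcases lt_or_gt_of_ne hbc with q3 | q3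
  · simp only [q1, q2, q3, if_true]; ring
  · simp only [q1, q2, q3, not_lt_of_gt q3, if_true, if_false]
    linarith
  · exact absurd (q1.trans q3) (not_lt_of_gt q2)
  · simp only [q1, q2, q3, not_lt_of_gt q3, not_lt_of_gt q2, if_true, if_false]
    linarith
  · simp only [q1, q2, q3, not_lt_of_gt q1, if_true, if_false]
    linarith
  · exact absurd (q3.trans q1) (not_lt_of_gt q2)
  · simp only [q1, q2, q3, not_lt_of_gt q1, not_lt_of_gt q2, if_true, if_false]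
    linarith
  · simp only [q1, q2, q3, not_lt_of_gt q1, not_lt_of_gt q2, not_lt_of_gt q3, if_true, if_false]
    linarith

/-! ### relabelling -/

/-- the relabelling -/
def gf (i j : ℕ) (v : Fin 9) : Fin 9 :=
  if v.val < 3 then Fin.ofNat 9 ((v.val + i) % 3)
  else if v.val < 6 then Fin.ofNat 9 (3 + (v.val - 3 + j) % 3) else v

theorem gf_inj : ∀ i < 3, ∀ j < 3, ∀ u v : Fin 9, gf i j u = gf i j v → u = v := by
  decide +kernel

theorem gf_rot : ∀ i < 3, ∀ j < 3,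
    (gf i j 0, gf i j 1, gf i j 2) = rot i (0, 1, 2) ∧
    (gf i j 3, gf i j 4, gf i j 5) = rot j (3, 4, 5) := by
  decide +kernel

/-- the sign -/
def sn (e : ℕ) : ℤ := if e = 0 then 1 else -1

/-- the check for one triangle -/
def Chk (T t i j e : ℕ) : Prop := ∀ l < 20, ∃ l' < 20,
  tr (nb T l' / 32) = so (gf i j (tr (nb T l / 32)).1) (gf i j (tr (nb T l / 32)).2.1)
    (gf i j (tr (nb T l / 32)).2.2) ∧
  ((ty 30 l : ℕ) : ℤ) - 1 = sn e * (sg (gf i j (tr (nb T l / 32)).1) (gf i j (tr (nb T l / 32)).2.1)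
    (gf i j (tr (nb T l / 32)).2.2) * (((ty t l' : ℕ) : ℤ) - 1))

instance (T t i j e : ℕ) : Decidable (Chk T t i j e) := by
  unfold Chk
  infer_instance

/-- there is a relabelling -/
def Ex (t u : ℕ) : Prop := ∃ i < 3, ∃ j < 3, ∃ e < 2, Chk 0 t i j e ∧ Chk 64 u i j e

instance (t u : ℕ) : Decidable (Ex t u) := by
  unfold Ex
  infer_instance

theorem chk4 : ∀ t < 31, ∀ u < 31, ty t 0 ≠ 1 → ty u 0 = ty t 0 → Ex t u := by
  decide +kernel

/-- the values on the pairs of triangles after relabelling -/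
theorem hasType_map (tp : TP) (tm : ∀ (ω : Fin 9 → Fin 9 → Fin 9 → Fin 9 → ℤ) (g : Fin 9 → Fin 9)
      (ε : ℤ) (a b c d e f : Fin 9),
      tri (fun i j k l => ε * ω (g i) (g j) (g k) (g l)) a b c d e f =
        ε * tri ω (g a) (g b) (g c) (g d) (g e) (g f))
    (ω : Fin 9 → Fin 9 → Fin 9 → Fin 9 → ℤ) (hω : Good ω) (T t i j e r : ℕ) (hT : T < 84)
    (ht : HasType ω T t) (hc : Chk T t i j e)
    (hg : ∀ u v : Fin 9, gf i j u = gf i j v → u = v)
    (hr : (gf i j (tr T).1, gf i j (tr T).2.1, gf i j (tr T).2.2) = rot r (tr T)) :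
    HasType (fun a b c d => sn e * ω (gf i j a) (gf i j b) (gf i j c) (gf i j d)) T 30 := by
  refine ⟨by norm_num, ?_⟩
  intro l hl
  obtain ⟨l', hl', h1, h2⟩ := hc l hl
  have hn := chk3 T hT l hl
  have hn2 : [gf i j (tr T).1, gf i j (tr T).2.1, gf i j (tr T).2.2,
      gf i j (tr (nb T l / 32)).1, gf i j (tr (nb T l / 32)).2.1,
      gf i j (tr (nb T l / 32)).2.2].Nodup := by
    have := List.Nodup.map (f := gf i j) (fun u v h => hg u v h) hn
    simpa using this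
  have hr1 : gf i j (tr T).1 = (rot r (tr T)).1 := by rw [← hr]
  have hr2 : gf i j (tr T).2.1 = (rot r (tr T)).2.1 := by rw [← hr]
  have hr3 : gf i j (tr T).2.2 = (rot r (tr T)).2.2 := by rw [← hr]
  have hn3 : [(tr T).1, (tr T).2.1, (tr T).2.2,
      gf i j (tr (nb T l / 32)).1, gf i j (tr (nb T l / 32)).2.1,
      gf i j (tr (nb T l / 32)).2.2].Nodup := by
    rw [hr1, hr2, hr3] at hn2
    match r with
    | 0 => exact hn2
    | 1 =>
      simp only [rot, List.nodup_cons, List.mem_cons, List.not_mem_nil, not_or, or_false] at hn2 ⊢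
      grind
    | r + 2 =>
      simp only [rot, List.nodup_cons, List.mem_cons, List.not_mem_nil, not_or, or_false] at hn2 ⊢
      grind
  have h3 : tri ω (gf i j (tr T).1) (gf i j (tr T).2.1) (gf i j (tr T).2.2)
      (gf i j (tr (nb T l / 32)).1) (gf i j (tr (nb T l / 32)).2.1)
      (gf i j (tr (nb T l / 32)).2.2) =
      tri ω (tr T).1 (tr T).2.1 (tr T).2.2 (gf i j (tr (nb T l / 32)).1)
        (gf i j (tr (nb T l / 32)).2.1) (gf i j (tr (nb T l / 32)).2.2) := by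
    rw [hr1, hr2, hr3]
    exact rotL tp ω hω r (tr T) _ _ _ hn3
  have h4 := sort_tri tp ω hω _ _ _ _ _ _ hn3
  have h5 := ht.2 l' hl'
  unfold val at h5 ⊢
  rw [tm, h3, h4, ← h1, ← h5, h2]

/-- the ten relabellings -/
def G10 : List (Fin 9 → Fin 9) := [![0, 1, 2, 3, 4, 5, 6, 7, 8], ![0, 1, 3, 2, 4, 5, 6, 7, 8],
  ![0, 1, 4, 2, 3, 5, 6, 7, 8], ![0, 1, 5, 2, 3, 4, 6, 7, 8], ![0, 2, 3, 1, 4, 5, 6, 7, 8],
  ![0, 2, 4, 1, 3, 5, 6, 7, 8], ![0, 2, 5, 1, 3, 4, 6, 7, 8], ![0, 3, 4, 1, 2, 5, 6, 7, 8],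
  ![0, 3, 5, 1, 2, 4, 6, 7, 8], ![0, 4, 5, 1, 2, 3, 6, 7, 8]]

theorem G10_inj : ∀ g ∈ G10, ∀ u v : Fin 9, g u = g v → u = v := by
  intro g hg
  simp only [G10, List.mem_cons, List.not_mem_nil, or_false] at hg
  rcases hg with rfl | rfl | rfl | rfl | rfl | rfl | rfl | rfl | rfl | rfl <;> decide

theorem exists_ne (ω : Fin 9 → Fin 9 → Fin 9 → Fin 9 → ℤ) (hω : Good ω) :
    ∃ g ∈ G10, tri ω (g 0) (g 1) (g 2) (g 3) (g 4) (g 5) ≠ 0 := by
  by_contra hcon
  push Not at hcon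
  have h := hω.parity 0 1 2 3 4 5 (by decide)
  have z : ten ω 0 1 2 3 4 5 = 0 := by
    unfold ten
    have e0 := hcon ![0, 1, 2, 3, 4, 5, 6, 7, 8] (by simp [G10])
    have e1 := hcon ![0, 1, 3, 2, 4, 5, 6, 7, 8] (by simp [G10])
    have e2 := hcon ![0, 1, 4, 2, 3, 5, 6, 7, 8] (by simp [G10])
    have e3 := hcon ![0, 1, 5, 2, 3, 4, 6, 7, 8] (by simp [G10])
    have e4 := hcon ![0, 2, 3, 1, 4, 5, 6, 7, 8] (by simp [G10])
    have e5 := hcon ![0, 2, 4, 1, 3, 5, 6, 7, 8] (by simp [G10])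
    have e6 := hcon ![0, 2, 5, 1, 3, 4, 6, 7, 8] (by simp [G10])
    have e7 := hcon ![0, 3, 4, 1, 2, 5, 6, 7, 8] (by simp [G10])
    have e8 := hcon ![0, 3, 5, 1, 2, 4, 6, 7, 8] (by simp [G10])
    have e9 := hcon ![0, 4, 5, 1, 2, 3, 6, 7, 8] (by simp [G10])
    change tri ω 0 1 2 3 4 5 = 0 at e0
    change tri ω 0 1 3 2 4 5 = 0 at e1
    change tri ω 0 1 4 2 3 5 = 0 at e2
    change tri ω 0 1 5 2 3 4 = 0 at e3
    change tri ω 0 2 3 1 4 5 = 0 at e4
    change tri ω 0 2 4 1 3 5 = 0 at e5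
    change tri ω 0 2 5 1 3 4 = 0 at e6
    change tri ω 0 3 4 1 2 5 = 0 at e7
    change tri ω 0 3 5 1 2 4 = 0 at e8
    change tri ω 0 4 5 1 2 3 = 0 at e9
    rw [e0, e1, e2, e3, e4, e5, e6, e7, e8, e9]
    rfl
  rw [z] at h
  exact absurd h (by decide)

/-- a relabelling does not create pairs of linked triangles with one common vertex -/
theorem S2_map (tm : ∀ (ω : Fin 9 → Fin 9 → Fin 9 → Fin 9 → ℤ) (g : Fin 9 → Fin 9)
      (ε : ℤ) (a b c d e f : Fin 9),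
      tri (fun i j k l => ε * ω (g i) (g j) (g k) (g l)) a b c d e f =
        ε * tri ω (g a) (g b) (g c) (g d) (g e) (g f))
    (ω : Fin 9 → Fin 9 → Fin 9 → Fin 9 → ℤ) (g : Fin 9 → Fin 9) (ε : ℤ)
    (hg : ∀ u v : Fin 9, g u = g v → u = v)
    (h : S2 (fun i j k l => ε * ω (g i) (g j) (g k) (g l))) : S2 ω := by
  obtain ⟨x, y, z, v, a, b, c, d, hn, h1, h2⟩ := h
  rw [tm] at h1 h2
  refine ⟨g x, g y, g z, g v, g a, g b, g c, g d, ?_, right_ne_zero_of_mul h1,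
    right_ne_zero_of_mul h2⟩
  have := List.Nodup.map (f := g) (fun u v h => hg u v h) hn
  simpa using this

/-- KC11 (uses KC9) -/
theorem type_lt
    (tri_perm : ∀ (ω : Fin 9 → Fin 9 → Fin 9 → Fin 9 → ℤ) (hω : Good ω) (a b c d e f : Fin 9)
      (h : [a, b, c, d, e, f].Nodup),
      tri ω b c a d e f = tri ω a b c d e f ∧ tri ω b a c d e f = - tri ω a b c d e f ∧
      tri ω a b c e f d = tri ω a b c d e f ∧ tri ω a b c e d f = - tri ω a b c d e f)
    (ω : Fin 9 → Fin 9 → Fin 9 → Fin 9 → ℤ) (hω : Good ω) (h : ¬ S2 ω) (T t : ℕ)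
    (hT : T < 84) (ht : HasType ω T t) : t < 31 :=
  type_lt' tri_perm ω hω h T t hT ht

/-- KC11 (uses KC2, KC9) -/
theorem wlog_E
    (exists_type : ∀ (ω : Fin 9 → Fin 9 → Fin 9 → Fin 9 → ℤ) (hω : Good ω) (T : ℕ) (hT : T < 84),
      ∃ t, HasType ω T t)
    (good_map : ∀ (ω : Fin 9 → Fin 9 → Fin 9 → Fin 9 → ℤ) (hω : Good ω) (g : Equiv.Perm (Fin 9))
      (ε : ℤ) (hε : ε = 1 ∨ ε = -1), Good (fun i j k l => ε * ω (g i) (g j) (g k) (g l)))
    (tri_perm : ∀ (ω : Fin 9 → Fin 9 → Fin 9 → Fin 9 → ℤ) (hω : Good ω) (a b c d e f : Fin 9)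
      (h : [a, b, c, d, e, f].Nodup),
      tri ω b c a d e f = tri ω a b c d e f ∧ tri ω b a c d e f = - tri ω a b c d e f ∧
      tri ω a b c e f d = tri ω a b c d e f ∧ tri ω a b c e d f = - tri ω a b c d e f)
    (tri_map : ∀ (ω : Fin 9 → Fin 9 → Fin 9 → Fin 9 → ℤ) (g : Fin 9 → Fin 9) (ε : ℤ)
      (a b c d e f : Fin 9),
      tri (fun i j k l => ε * ω (g i) (g j) (g k) (g l)) a b c d e f =
        ε * tri ω (g a) (g b) (g c) (g d) (g e) (g f))
    (ω : Fin 9 → Fin 9 → Fin 9 → Fin 9 → ℤ) (hω : Good ω) (h : ¬ S2 ω) :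
    ∃ ω' : Fin 9 → Fin 9 → Fin 9 → Fin 9 → ℤ, Good ω' ∧ ¬ S2 ω' ∧ HasType ω' 0 30 ∧
      HasType ω' 64 30 := by
  -- injective functions are relabellings
  have gm : ∀ (ω : Fin 9 → Fin 9 → Fin 9 → Fin 9 → ℤ), Good ω → ∀ (g : Fin 9 → Fin 9),
      (∀ u v : Fin 9, g u = g v → u = v) → ∀ ε : ℤ, (ε = 1 ∨ ε = -1) →
      Good (fun i j k l => ε * ω (g i) (g j) (g k) (g l)) := by
    intro ω hω g hg ε hε
    exact good_map ω hω (Equiv.ofBijective g (Finite.injective_iff_bijective.1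
      (fun u v h => hg u v h))) ε hε
  obtain ⟨g, hgm, hne⟩ := exists_ne ω hω
  have hg := G10_inj g hgm
  set ω₁ : Fin 9 → Fin 9 → Fin 9 → Fin 9 → ℤ := fun i j k l => 1 * ω (g i) (g j) (g k) (g l)
    with hω₁
  have good₁ : Good ω₁ := gm ω hω g hg 1 (Or.inl rfl)
  have s₁ : ¬ S2 ω₁ := fun hs => h (S2_map tri_map ω g 1 hg hs)
  have ne₁ : tri ω₁ 0 1 2 3 4 5 ≠ 0 := by
    rw [hω₁, tri_map, one_mul]
    exact hne
  obtain ⟨t, ht⟩ := exists_type ω₁ good₁ 0 (by norm_num)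
  obtain ⟨u, hu⟩ := exists_type ω₁ good₁ 64 (by norm_num)
  have t31 := type_lt tri_perm ω₁ good₁ s₁ 0 t (by norm_num) ht
  have u31 := type_lt tri_perm ω₁ good₁ s₁ 64 u (by norm_num) hu
  have n0 : tr (nb 0 0 / 32) = (3, 4, 5) := by decide +kernel
  have n1 : tr (nb 64 0 / 32) = (0, 1, 2) := by decide +kernel
  have m0 : tr 0 = (0, 1, 2) := by decide +kernel
  have m1 : tr 64 = (3, 4, 5) := by decide +kernel
  have v0 := ht.2 0 (by norm_num)
  have v1 := hu.2 0 (by norm_num)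
  unfold val at v0 v1
  rw [n0, m0] at v0
  rw [n1, m1] at v1
  have sy := good₁.symm 0 1 2 3 4 5 (by decide)
  have c0 : ty t 0 ≠ 1 := by
    intro hc
    apply ne₁
    rw [← v0, hc]
    norm_num
  have c1 : ty u 0 = ty t 0 := by
    have : ((ty u 0 : ℕ) : ℤ) - 1 = ((ty t 0 : ℕ) : ℤ) - 1 := by
      rw [v0, v1]
      exact sy.symm
    omega
  obtain ⟨i, hi, j, hj, e, he, k0, k1⟩ := chk4 t t31 u u31 c0 c1
  have hgf := gf_inj i hi j hj
  obtain ⟨r0, r1⟩ := gf_rot i hi j hj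
  have hsn : sn e = 1 ∨ sn e = -1 := by
    unfold sn
    by_cases h0 : e = 0
    · left; rw [if_pos h0]
    · right; rw [if_neg h0]
  refine ⟨fun a b c d => sn e * ω₁ (gf i j a) (gf i j b) (gf i j c) (gf i j d),
    gm ω₁ good₁ (gf i j) hgf (sn e) hsn,
    fun hs => s₁ (S2_map tri_map ω₁ (gf i j) (sn e) hgf hs), ?_, ?_⟩
  · exact hasType_map tri_perm tri_map ω₁ good₁ 0 t i j e i (by norm_num) ht k0 hgf
      (by rw [m0]; exact r0)
  · exact hasType_map tri_perm tri_map ω₁ good₁ 64 u i j e j (by norm_num) hu k1 hgf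
      (by rw [m1]; exact r1)

end Pool.Agent.H891R2.KN.C11
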