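import Pool.Agent.H891R2.KN.Sem

set_option autoImplicit false

/-! KC2: every triangle has a type (uses the classification KC1 as a hypothesis). -/

namespace Pool.Agent.H891R2.KN.C2

open Pool.Agent.H891R2.KN

/-- the vertices of the complement of the triangle `T` -/
def cpl (T : ℕ) : List (Fin 9) :=
  ([0, 1, 2, 3, 4, 5, 6, 7, 8] : List (Fin 9)).filter
    (fun v => !(v == (tr T).1) && !(v == (tr T).2.1) && !(v == (tr T).2.2))

/-- the `i`-th vertex of the complement of the triangle `T` -/
def cp (T : ℕ) (i : Fin 6) : Fin 9 := (cpl T).getD i.val 0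

theorem chk1 : ∀ T < 84, ∀ i j : Fin 6, i ≠ j →
    [(tr T).1, (tr T).2.1, (tr T).2.2, cp T i, cp T j].Nodup := by
  decide +kernel

theorem chk2 : ∀ T < 84, ∀ l < 20,
    tr (nb T l / 32) = (cp T (t6 l).1, cp T (t6 l).2.1, cp T (t6 l).2.2) := by
  decide +kernel

theorem chk3 : ∀ l < 20, (t6 l).1 ≠ (t6 l).2.1 ∧ (t6 l).2.1 ≠ (t6 l).2.2 ∧
    (t6 l).2.2 ≠ (t6 l).1 := by
  decide +kernel

theorem edges_map {n m : ℕ} (g : Fin n → Fin m) (c : List (Fin n)) :
    edges (c.map g) = (edges c).map (Prod.map g g) := by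
  unfold edges
  rw [← List.map_rotate, List.zip_map]

theorem edges_ne {n : ℕ} (c : List (Fin n)) (hc : IsCycle c) (e : Fin n × Fin n)
    (he : e ∈ edges c) : e.1 ≠ e.2 := by
  unfold edges at he
  obtain ⟨k, hk, rfl⟩ := List.mem_iff_getElem.mp he
  have hlen : (c.zip (c.rotate 1)).length = c.length := by simp
  have hk' : k < c.length := by rw [← hlen]; exact hk
  rw [List.getElem_zip]
  simp only [List.getElem_rotate]
  intro h
  have h1 := (List.Nodup.getElem_inj_iff hc.2).mp h
  have h3 := hc.1
  rcases Nat.lt_or_ge (k + 1) c.length with h2 | h2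
  · rw [Nat.mod_eq_of_lt h2] at h1
    omega
  · have h4 : k + 1 = c.length := by omega
    rw [h4, Nat.mod_self] at h1
    omega

theorem total3 {n : ℕ} (ω : Fin n → Fin n → Fin n → Fin n → ℤ) (x y z : Fin n)
    (c : List (Fin n)) :
    total ω [x, y, z] c = ((edges c).map fun f =>
      ω x y f.1 f.2 + ω y z f.1 f.2 + ω z x f.1 f.2).sum := by
  have h : edges [x, y, z] = [(x, y), (y, z), (z, x)] := rfl
  unfold total
  rw [h, List.sum_map_add, List.sum_map_add]
  simp only [List.map_cons, List.map_nil, List.sum_cons, List.sum_nil]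
  ring

/-- KC2 (uses KC1) -/
theorem exists_type
    (classify : ∀ (f : Fin 6 → Fin 6 → ℤ), (∀ i j, f j i = - f i j) →
      (∀ c : List (Fin 6), IsCycle c → |((edges c).map fun e => f e.1 e.2).sum| ≤ 1) →
      ∃ t < 151, ∀ l < 20, ((ty t l : ℕ) : ℤ) - 1 =
        f (t6 l).1 (t6 l).2.1 + f (t6 l).2.1 (t6 l).2.2 + f (t6 l).2.2 (t6 l).1)
    (ω : Fin 9 → Fin 9 → Fin 9 → Fin 9 → ℤ) (hω : Good ω) (T : ℕ) (hT : T < 84) :
    ∃ t, HasType ω T t := by
  have hnd := chk1 T hT
  have hc2 := chk2 T hT
  set x := (tr T).1 with hx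
  set y := (tr T).2.1 with hy
  set z := (tr T).2.2 with hz
  set f : Fin 6 → Fin 6 → ℤ := fun i j => if i = j then 0 else
    ω x y (cp T i) (cp T j) + ω y z (cp T i) (cp T j) + ω z x (cp T i) (cp T j) with hf
  have hfne : ∀ i j, i ≠ j → f i j =
      ω x y (cp T i) (cp T j) + ω y z (cp T i) (cp T j) + ω z x (cp T i) (cp T j) := by
    intro i j hij
    simp only [hf, if_neg hij]
  have hinj : ∀ i j, i ≠ j → cp T i ≠ cp T j := by
    intro i j hij
    have h := hnd i j hij
    simp only [List.nodup_cons, List.mem_cons, List.not_mem_nil, or_false, not_or] at h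
    tauto
  have hne : ∀ i, cp T i ≠ x ∧ cp T i ≠ y ∧ cp T i ≠ z := by
    intro i
    obtain ⟨j, hj⟩ : ∃ j : Fin 6, i ≠ j := by
      by_cases h : i = 0
      · exact ⟨1, by rw [h]; decide⟩
      · exact ⟨0, h⟩
    have h := hnd i j hj
    simp only [List.nodup_cons, List.mem_cons, List.not_mem_nil, or_false, not_or] at h
    refine ⟨?_, ?_, ?_⟩
    · exact fun h' => h.1.2.2.1 h'.symm
    · exact fun h' => h.2.1.2.1 h'.symm
    · exact fun h' => h.2.2.1.1 h'.symm
  obtain ⟨t, ht, htl⟩ := classify f
    (by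
      intro i j
      by_cases hij : i = j
      · subst hij
        simp [hf]
      · rw [hfne i j hij, hfne j i (Ne.symm hij)]
        have h := hnd i j hij
        simp only [List.nodup_cons, List.mem_cons, List.not_mem_nil, or_false, not_or] at h
        rw [hω.anti₂ x y (cp T i) (cp T j) (by simp; tauto),
          hω.anti₂ y z (cp T i) (cp T j) (by simp; tauto),
          hω.anti₂ z x (cp T i) (cp T j) (by simp; tauto)]
        ring)
    (by
      intro c hc
      have h1 : ((edges c).map fun e => f e.1 e.2).sum = total ω [x, y, z] (c.map (cp T)) := by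
        rw [total3, edges_map, List.map_map]
        congr 1
        apply List.map_congr_left
        intro e he
        rw [hfne e.1 e.2 (edges_ne c hc e he)]
        rfl
      rw [h1]
      apply hω.bound
      · refine ⟨by simp, ?_⟩
        have h := hnd 0 1 (by decide)
        simp only [List.nodup_cons, List.mem_cons, List.not_mem_nil, or_false, not_or] at h
        simp
        tauto
      · refine ⟨by simpa using hc.1, ?_⟩
        apply List.Nodup.map _ hc.2
        intro i j hij
        by_contra hcon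
        exact hinj i j hcon hij
      · intro v hv hv'
        rw [List.mem_map] at hv'
        obtain ⟨i, _, rfl⟩ := hv'
        have h := hne i
        simp only [List.mem_cons, List.not_mem_nil, or_false] at hv
        tauto)
  refine ⟨t, ht, ?_⟩
  intro l hl
  rw [htl l hl]
  obtain ⟨ha, hb, hc⟩ := chk3 l hl
  rw [hfne _ _ ha, hfne _ _ hb, hfne _ _ hc]
  unfold val tri
  rw [hc2 l hl, total3]
  have h : edges [cp T (t6 l).1, cp T (t6 l).2.1, cp T (t6 l).2.2] =
      [(cp T (t6 l).1, cp T (t6 l).2.1), (cp T (t6 l).2.1, cp T (t6 l).2.2),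
        (cp T (t6 l).2.2, cp T (t6 l).1)] := rfl
  rw [h]
  simp only [List.map_cons, List.map_nil, List.sum_cons, List.sum_nil]
  rw [← hx, ← hy, ← hz]
  ring

end Pool.Agent.H891R2.KN.C2
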