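import Pool.Agent.H891R2.KN.Sem

set_option autoImplicit false

/-! States. -/

namespace Pool.Agent.H891R2.KN.C6

open Pool.Agent.H891R2.KN

theorem full_eq : full = 2 ^ 151 - 1 := by decide +kernel

theorem non_spec (s T m : ℕ) (τ : ℕ → ℕ) (hT : T < 84) (hs : Sat s τ) (h : non s T m = true) : 
    Nat.testBit m (τ T) = false := by
  have h1 : (s >>> (151 * T)) &&& m = 0 := Nat.eq_of_beq_eq_true h
  have h2 : Nat.testBit ((s >>> (151 * T)) &&& m) (τ T) = false := by rw [h1]; exact Nat.zero_testBit _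
  rw [Nat.testBit_and, Nat.testBit_shiftRight, hs T hT, Bool.true_and] at h2
  exact h2

theorem rmv_spec (s U m : ℕ) (τ : ℕ → ℕ) (hτ : ∀ T < 84, τ T < 151) (hm : m < 2 ^ 151) 
    (hs : Sat s τ) (h : Nat.testBit m (τ U) = false) : Sat (rmv s U m) τ := by
  intro T hT
  have e : rmv s U m = s ^^^ (s &&& (m <<< (151 * U))) := rfl
  rw [e, Nat.testBit_xor, Nat.testBit_and, hs T hT, Bool.true_and, Nat.testBit_shiftLeft]
  have ht := hτ T hT
  rcases lt_trichotomy T U with h1 | h1 | h1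
  · have : ¬ (151 * T + τ T ≥ 151 * U) := by omega
    simp [this]
  · subst h1
    have : 151 * T + τ T - 151 * T = τ T := by omega
    rw [this, h]
    simp
  · have h2 : 151 ≤ 151 * T + τ T - 151 * U := by omega
    have h3 : Nat.testBit m (151 * T + τ T - 151 * U) = false := 
      Nat.testBit_lt_two_pow (lt_of_lt_of_le hm (Nat.pow_le_pow_right (by norm_num) h2))
    rw [h3]
    simp

theorem mask_false (t : ℕ) (ht : t < 151) : 
    Nat.testBit (Nat.xor full (Nat.shiftLeft 1 t)) t = false := by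
  have e : Nat.xor full (Nat.shiftLeft 1 t) = full ^^^ (1 <<< t) := rfl
  rw [e, Nat.testBit_xor, full_eq, Nat.testBit_two_pow_sub_one, Nat.testBit_shiftLeft]
  simp [ht]

theorem mask_lt (t : ℕ) (ht : t < 151) : Nat.xor full (Nat.shiftLeft 1 t) < 2 ^ 151 := by
  have e : Nat.xor full (Nat.shiftLeft 1 t) = full ^^^ (1 <<< t) := rfl
  rw [e]
  apply Nat.xor_lt_two_pow
  · rw [full_eq]; exact Nat.sub_lt (by positivity) (by norm_num)
  · rw [Nat.one_shiftLeft]; exact Nat.pow_lt_pow_right (by norm_num) ht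

theorem ones (k : ℕ) : Nat.sub (Nat.shiftLeft 1 k) 1 = 2 ^ k - 1 := by
  have : Nat.sub (Nat.shiftLeft 1 k) 1 = (1 <<< k) - 1 := rfl
  rw [this, Nat.one_shiftLeft]

theorem all_sat (τ : ℕ → ℕ) (hτ : ∀ T < 84, τ T < 151) : Sat all τ := by
  intro T hT
  have e : all = 2 ^ 12684 - 1 := ones 12684
  rw [e, Nat.testBit_two_pow_sub_one]
  have := hτ T hT
  simp
  omega

theorem start_spec (t u : ℕ) (ht : t < 151) (hu : u < 151) (τ : ℕ → ℕ) (hτ : ∀ T < 84, τ T < 151) 
    (h0 : τ 0 = t) (h1 : τ 64 = u) : Sat (start t u) τ := by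
  refine rmv_spec _ _ _ τ hτ (mask_lt u hu) (rmv_spec _ _ _ τ hτ (mask_lt t ht) (all_sat τ hτ) ?_) ?_
  · rw [h0]; exact mask_false t ht
  · rw [h1]; exact mask_false u hu

theorem all31_bit (n : ℕ) : ∀ T r : ℕ, T < n → r < 31 → Nat.testBit (all31 n) (151 * T + r) = true := by
  induction n with
  | zero => intro T r hT; omega
  | succ n ih =>
    intro T r hT hr
    have e : all31 (n + 1) = 2 ^ 151 * all31 n + (2 ^ 31 - 1) := by
      show Nat.add (all31 n <<< 151) 2147483647 = _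
      rw [Nat.shiftLeft_eq, mul_comm]
      rfl
    rw [e, Nat.testBit_two_pow_mul_add _ (by norm_num)]
    cases T with
    | zero =>
      have h1 : 151 * 0 + r < 151 := by omega
      rw [if_pos h1, Nat.testBit_two_pow_sub_one]
      simp [hr]
    | succ T =>
      have h1 : ¬ (151 * (T + 1) + r < 151) := by omega
      rw [if_neg h1]
      have h2 : 151 * (T + 1) + r - 151 = 151 * T + r := by omega
      rw [h2]
      exact ih T r (by omega) hr

theorem start31_spec (t u : ℕ) (ht : t < 151) (hu : u < 151) (τ : ℕ → ℕ) 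
    (hτ : ∀ T < 84, τ T < 31) (h0 : τ 0 = t) (h1 : τ 64 = u) : Sat (start31 t u) τ := by
  have hτ' : ∀ T < 84, τ T < 151 := fun T hT => (hτ T hT).trans (by norm_num)
  refine rmv_spec _ _ _ τ hτ' (mask_lt u hu) 
    (rmv_spec _ _ _ τ hτ' (mask_lt t ht) (fun T hT => all31_bit 84 T (τ T) hT (hτ T hT)) ?_) ?_
  · rw [h0]; exact mask_false t ht
  · rw [h1]; exact mask_false u hu

end Pool.Agent.H891R2.KN.C6
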