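import Pool.Agent.H891R2.KN.Sem

set_option autoImplicit false

namespace Pool.Agent.H891R2.KN.C8

open Pool.Agent.H891R2.KN

theorem cyc_lt : ∀ c ∈ CYC, ∀ p ∈ c, p.1 < 10 := by decide

theorem compat_congr (s : ℕ) (x y x' y' : ℕ → ℤ) (hx : ∀ k < 10, x k = x' k)
    (hy : ∀ k < 10, y k = y' k) (h : compat s x y) : compat s x' y' := by
  intro c hc
  have h1 := h c hc
  have h2 : (c.map fun p => p.2 * (x p.1 + (if s = 0 then 1 else -1) * y p.1)) =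
      (c.map fun p => p.2 * (x' p.1 + (if s = 0 then 1 else -1) * y' p.1)) := by
    apply List.map_congr_left
    intro p hp
    have h3 := cyc_lt c hc p hp
    rw [hx _ h3, hy _ h3]
  rw [h2] at h1
  exact h1

theorem odd_of (n : ℕ) (v : ℕ → ℤ) (t : ℕ → ℕ) (h : ∀ i < n, t i < 3 ∧ ((t i : ℕ) : ℤ) - 1 = v i)
    (ho : Odd (∑ i ∈ Finset.range n, v i)) :
    Odd (∑ i ∈ Finset.range n, (if t i = 1 then 0 else 1 : ℕ)) := by
  have h1 : ∀ i, ∃ k : ℤ, i < n → v i = ((if t i = 1 then 0 else 1 : ℕ) : ℤ) + 2 * k := by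
    intro i
    by_cases hi : i < n
    · obtain ⟨h2, h3⟩ := h i hi
      have h4 : t i = 0 ∨ t i = 1 ∨ t i = 2 := by omega
      rcases h4 with h4 | h4 | h4
      · refine ⟨-1, fun _ => ?_⟩
        rw [← h3, h4]; norm_num
      · refine ⟨0, fun _ => ?_⟩
        rw [← h3, h4]; norm_num
      · refine ⟨0, fun _ => ?_⟩
        rw [← h3, h4]; norm_num
    · exact ⟨0, fun h => absurd h hi⟩
  choose k hk using h1
  have h2 : ∑ i ∈ Finset.range n, v i =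
      ((∑ i ∈ Finset.range n, (if t i = 1 then 0 else 1 : ℕ) : ℕ) : ℤ) +
        2 * ∑ i ∈ Finset.range n, k i := by
    rw [Nat.cast_sum, Finset.mul_sum, ← Finset.sum_add_distrib]
    exact Finset.sum_congr rfl fun i hi => hk i (Finset.mem_range.mp hi)
  rw [h2] at ho
  obtain ⟨j, hj⟩ := ho
  have h3 : Odd (((∑ i ∈ Finset.range n, (if t i = 1 then 0 else 1 : ℕ) : ℕ)) : ℤ) :=
    ⟨j - ∑ i ∈ Finset.range n, k i, by linarith⟩
  exact (Int.odd_coe_nat _).mp h3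

theorem model_of_good
    (compat_val : ∀ (ω : Fin 9 → Fin 9 → Fin 9 → Fin 9 → ℤ) (_ : Good ω) (T a : ℕ) (_ : T < 84)
      (_ : a < 18),
      (∀ k < 10, nb T (rl (ad T a / 16 % 8) k) / 32 =
        nb (ad T a / 128) (rl (ad T a / 2 % 8) k) / 32) ∧
      compat (ad T a % 2) (fun k => val ω T (nb T (rl (ad T a / 16 % 8) k) / 32))
        (fun k => val ω (ad T a / 128) (nb (ad T a / 128) (rl (ad T a / 2 % 8) k) / 32)))
    (nb_facts : ∀ (T l : ℕ) (_ : T < 84) (_ : l < 20),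
      nb T l / 32 < 84 ∧ nb T l % 32 < 20 ∧ nb (nb T l / 32) (nb T l % 32) = 32 * T + l ∧
      [(tr T).1, (tr T).2.1, (tr T).2.2, (tr (nb T l / 32)).1, (tr (nb T l / 32)).2.1,
        (tr (nb T l / 32)).2.2].Nodup)
    (ad_facts : ∀ (T a : ℕ) (_ : T < 84) (_ : a < 18),
      ad T a / 128 < 84 ∧ ad T a / 16 % 8 < 6 ∧ ad T a / 2 % 8 < 6 ∧
      ∀ o < 6, ∀ k < 10, rl o k < 20)
    (sx_facts : ∀ (x i : ℕ) (_ : x < 84) (_ : i < 10), sx x i / 32 < 84 ∧ sx x i % 32 < 20)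
    (val_symm : ∀ (ω : Fin 9 → Fin 9 → Fin 9 → Fin 9 → ℤ) (_ : Good ω) (T l : ℕ) (_ : T < 84)
      (_ : l < 20), val ω T (nb T l / 32) = val ω (nb T l / 32) T)
    (val_parity : ∀ (ω : Fin 9 → Fin 9 → Fin 9 → Fin 9 → ℤ) (_ : Good ω) (x : ℕ) (_ : x < 84),
      Odd (∑ i ∈ Finset.range 10, val ω (sx x i / 32) (nb (sx x i / 32) (sx x i % 32) / 32)))
    (vm_spec : ∀ (v l t : ℕ) (_ : v < 3) (_ : l < 20) (_ : t < 151),
      (Nat.testBit (vm v l) t = true ↔ ty t l = v) ∧ ty t l < 3)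
    (rm_spec : ∀ (o c t : ℕ) (_ : o < 6) (_ : c < 51) (_ : t < 151),
      Nat.testBit (rm o c) t = true ↔ ∀ k < 10, ty t (rl o k) = cv c k)
    (cm_spec : ∀ (s o c t : ℕ) (_ : s < 2) (_ : o < 6) (_ : c < 51) (_ : t < 151)
      (_ : compat s (fun k => ((ty t (rl o k) : ℕ) : ℤ) - 1) (fun k => ((cv c k : ℕ) : ℤ) - 1)),
      Nat.testBit (cm s o c) t = true)
    (ω : Fin 9 → Fin 9 → Fin 9 → Fin 9 → ℤ) (hω : Good ω) (τ : ℕ → ℕ)
    (hτ : ∀ T < 84, HasType ω T (τ T)) : Model τ := by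
  refine ⟨fun T hT => (hτ T hT).1, ?_, ?_, ?_⟩
  · intro T hT l hl
    obtain ⟨h1, h2, h3, -⟩ := nb_facts T l hT hl
    refine ⟨h1, h2, ?_⟩
    have e1 := (hτ T hT).2 l hl
    have e2 := (hτ _ h1).2 _ h2
    have e3 : nb (nb T l / 32) (nb T l % 32) / 32 = T := by rw [h3]; omega
    rw [e3, ← val_symm ω hω T l hT hl] at e2
    have e4 : ((ty (τ T) l : ℕ) : ℤ) = ((ty (τ (nb T l / 32)) (nb T l % 32) : ℕ) : ℤ) := by
      linarith
    exact_mod_cast e4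
  · intro T hT a ha c hc
    obtain ⟨h1, h2, h3, h4⟩ := ad_facts T a hT ha
    refine ⟨h1, h3, ?_⟩
    intro hrm
    rw [rm_spec _ _ _ h3 hc (hτ _ h1).1] at hrm
    apply cm_spec _ _ _ _ (Nat.mod_lt _ (by norm_num)) h2 hc (hτ T hT).1
    refine compat_congr _ _ _ _ _ ?_ ?_ (compat_val ω hω T a hT ha).2
    · intro k hk
      exact ((hτ T hT).2 _ (h4 _ h2 k hk)).symm
    · intro k hk
      have e1 := (hτ _ h1).2 _ (h4 _ h3 k hk)
      rw [hrm k hk] at e1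
      exact e1.symm
  · intro x hx
    refine ⟨fun i hi => sx_facts x i hx hi, ?_⟩
    refine odd_of 10 _ _ ?_ (val_parity ω hω x hx)
    intro i hi
    obtain ⟨h1, h2⟩ := sx_facts x i hx hi
    exact ⟨(vm_spec 0 _ _ (by norm_num) h2 (hτ _ h1).1).2, (hτ _ h1).2 _ h2⟩

end Pool.Agent.H891R2.KN.C8
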