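import Mathlib

set_option autoImplicit false

/-!
Polygonal embeddings of complete graphs in space and their linking numbers.
-/

namespace Pool.Agent.H891R2.KN

/-- points of space; the third coordinate is the height -/
abbrev Pt : Type := ℝ × ℝ × ℝ

/-- twice the signed area of the triangle spanned by the projections of three points to the plane
of the first two coordinates -/
def area (a b c : Pt) : ℝ := (b.1 - a.1) * (c.2.1 - a.2.1) - (b.2.1 - a.2.1) * (c.1 - a.1)

open Classical in
/-- the orientation of the projections of three points: `1` counterclockwise, `-1` clockwise, `0`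
collinear -/
noncomputable def orient (a b c : Pt) : ℤ :=
  if 0 < area a b c then 1 else if area a b c < 0 then -1 else 0

/-- the sign of the crossing of the projections of the directed segments `ab` and `cd`: `1` if `cd`
crosses `ab` from the right to the left, `-1` if it crosses from the left to the right, `0` if the
projections do not cross -/
noncomputable def cross (a b c d : Pt) : ℤ :=
  if orient a b c ≠ orient a b d ∧ orient c d a ≠ orient c d b then orient a b d else 0

/-- the segment `ab` passes over the segment `cd`: a point of `ab` lies vertically above a point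
of `cd` -/
def Over (a b c d : Pt) : Prop :=
  ∃ x ∈ segment ℝ a b, ∃ y ∈ segment ℝ c d, x.1 = y.1 ∧ x.2.1 = y.2.1 ∧ y.2.2 < x.2.2

/-- the segments of a polygonal path, given by the list of its corners -/
def segs (p : List Pt) : List (Pt × Pt) := p.zip p.tail

open Classical in
/-- the sum of the signs of the crossings at which the polygonal path `p` passes over `q` -/
noncomputable def ov (p q : List Pt) : ℤ :=
  ((segs p).map fun s => ((segs q).map fun t =>
    if Over s.1 s.2 t.1 t.2 then cross s.1 s.2 t.1 t.2 else 0).sum).sum

/-- the sum of the signs of all crossings of the projections of two polygonal paths -/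
noncomputable def X (p q : List Pt) : ℤ :=
  ((segs p).map fun s => ((segs q).map fun t => cross s.1 s.2 t.1 t.2).sum).sum

/-- the projections of three different points of the list are not collinear -/
def Gen (l : List Pt) : Prop :=
  ∀ a ∈ l, ∀ b ∈ l, ∀ c ∈ l, a ≠ b → a ≠ c → b ≠ c → area a b c ≠ 0

/-- A polygonal embedding of the complete graph with `n` vertices in space, in general position with
respect to the projection: the vertices, and for every edge the corners of a polygonal arc; two
different segments of these arcs meet only in common end points. -/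
structure SpatialK (n : ℕ) where
  /-- the vertices -/
  vert : Fin n → Pt
  /-- the corners of the arc from the vertex `i` to the vertex `j`, without its two ends -/
  inner : Fin n → Fin n → List Pt
  inner_symm : ∀ i j, inner j i = (inner i j).reverse
  /-- all vertices and corners are different -/
  nodup : ((List.finRange n).map vert ++ (List.finRange n).flatMap fun i =>
    ((List.finRange n).filter fun j => i < j).flatMap fun j => inner i j).Nodup
  /-- all vertices and corners are in general position -/
  generic : Gen ((List.finRange n).map vert ++ (List.finRange n).flatMap fun i =>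
    ((List.finRange n).filter fun j => i < j).flatMap fun j => inner i j)
  embedded : ∀ i j k l, i ≠ j → k ≠ l → 
    ∀ s ∈ segs (vert i :: (inner i j ++ [vert j])), ∀ t ∈ segs (vert k :: (inner k l ++ [vert l])),
      s ≠ t → s ≠ t.swap → ∀ x ∈ segment ℝ s.1 s.2, x ∈ segment ℝ t.1 t.2 → 
        (x = s.1 ∨ x = s.2) ∧ (x = t.1 ∨ x = t.2)

/-- the corners of the arc from `i` to `j` -/
def SpatialK.path {n : ℕ} (G : SpatialK n) (i j : Fin n) : List Pt :=
  G.vert i :: (G.inner i j ++ [G.vert j])

/-- a cycle of the complete graph: at least three different vertices in cyclic order -/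
def IsCycle {n : ℕ} (c : List (Fin n)) : Prop := 3 ≤ c.length ∧ c.Nodup

/-- the directed edges of a cycle -/
def edges {n : ℕ} (c : List (Fin n)) : List (Fin n × Fin n) := c.zip (c.rotate 1)

/-- the sum of `ω` over the edges of two cycles -/
def total {n : ℕ} (ω : Fin n → Fin n → Fin n → Fin n → ℤ) (c c' : List (Fin n)) : ℤ :=
  ((edges c).map fun e => ((edges c').map fun f => ω e.1 e.2 f.1 f.2).sum).sum

/-- the linking number of two disjoint cycles in a spatial complete graph: the sum of the signs of
the crossings at which the first one passes over the second one -/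
noncomputable def SpatialK.lk {n : ℕ} (G : SpatialK n) (c c' : List (Fin n)) : ℤ :=
  total (fun i j k l => ov (G.path i j) (G.path k l)) c c'

/-! ### auxiliary notions -/

/-- position of a point relative to an oriented triangle: the orientation of the triangle if the
point lies inside, otherwise 0 -/
noncomputable def ins (x y z p : Pt) : ℤ :=
  if orient x y p = orient y z p ∧ orient y z p = orient z x p then orient x y p else 0

/-- a path `p` in space is a polygonal path from `a` to `b` -/
def Path (a b : Pt) (p : List Pt) : Prop := ∃ l : List Pt, p = a :: (l ++ [b])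

/-- the linking number of two disjoint triangles -/
def tri {n : ℕ} (ω : Fin n → Fin n → Fin n → Fin n → ℤ) (a b c d e f : Fin n) : ℤ :=
  total ω [a, b, c] [d, e, f]

/-- the sum over the ten pairs of disjoint triangles of a complete graph with six vertices -/
def ten {n : ℕ} (ω : Fin n → Fin n → Fin n → Fin n → ℤ) (a b c d e f : Fin n) : ℤ :=
  tri ω a b c d e f + tri ω a b d c e f + tri ω a b e c d f + tri ω a b f c d e + 
  tri ω a c d b e f + tri ω a c e b d f + tri ω a c f b d e + tri ω a d e b c f + 
  tri ω a d f b c e + tri ω a e f b c d

/-- the sum over the 15 pairs of disjoint edges of a complete graph with five vertices -/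
def K5sum (Y : Fin 5 → Fin 5 → Fin 5 → Fin 5 → ℤ) : ℤ :=
  Y 0 1 2 3 + Y 0 1 2 4 + Y 0 1 3 4 + Y 0 2 1 3 + Y 0 2 1 4 + Y 0 2 3 4 + Y 0 3 1 2 + Y 0 3 1 4 +
  Y 0 3 2 4 + Y 0 4 1 2 + Y 0 4 1 3 + Y 0 4 2 3 + Y 1 2 3 4 + Y 1 3 2 4 + Y 1 4 2 3

/-- the formal properties of the linking numbers of a spatial graph -/
structure Good {n : ℕ} (ω : Fin n → Fin n → Fin n → Fin n → ℤ) : Prop where
  anti₁ : ∀ i j k l, [i, j, k, l].Nodup → ω j i k l = - ω i j k l
  anti₂ : ∀ i j k l, [i, j, k, l].Nodup → ω i j l k = - ω i j k l
  symm : ∀ a b c d e f, [a, b, c, d, e, f].Nodup → tri ω a b c d e f = tri ω d e f a b c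
  parity : ∀ a b c d e f, [a, b, c, d, e, f].Nodup → Odd (ten ω a b c d e f)
  bound : ∀ c c' : List (Fin n), IsCycle c → IsCycle c' → c.Disjoint c' → |total ω c c'| ≤ 1

end Pool.Agent.H891R2.KN
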