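import Pool.Agent.H891R2.KN.Check
import Pool.Agent.H891R2.KN.Defs

set_option autoImplicit false

/-! The meaning of the tables. -/

namespace Pool.Agent.H891R2.KN

/-- the linking number of the triangles number `T` and `U` -/
def val (ω : Fin 9 → Fin 9 → Fin 9 → Fin 9 → ℤ) (T U : ℕ) : ℤ :=
  tri ω (tr T).1 (tr T).2.1 (tr T).2.2 (tr U).1 (tr U).2.1 (tr U).2.2

/-- the triangle number `T` has the type `t` -/
def HasType (ω : Fin 9 → Fin 9 → Fin 9 → Fin 9 → ℤ) (T t : ℕ) : Prop :=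
  t < 151 ∧ ∀ l < 20, ((ty t l : ℕ) : ℤ) - 1 = val ω T (nb T l / 32)

/-- the 20 triangles of `K_6` -/
def T6 : List (Fin 6 × Fin 6 × Fin 6) := [(0, 1, 2), (0, 1, 3), (0, 1, 4), (0, 1, 5), (0, 2, 3),
  (0, 2, 4), (0, 2, 5), (0, 3, 4), (0, 3, 5), (0, 4, 5), (1, 2, 3), (1, 2, 4), (1, 2, 5), (1, 3, 4),
  (1, 3, 5), (1, 4, 5), (2, 3, 4), (2, 3, 5), (2, 4, 5), (3, 4, 5)]

def t6 (l : ℕ) : Fin 6 × Fin 6 × Fin 6 := T6.getD l (0, 0, 0)

/-- the 37 cycles of `K_5` as signed sums of the 10 triangles of `K_5` -/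
def CYC : List (List (ℕ × ℤ)) := [[(0, 1)], [(1, 1)], [(2, 1)], [(3, 1)], [(4, 1)], [(5, 1)], [(6, 1)], [(7, 1)], [(8, 1)], [(9,
  1)], [(0, 1), (3, 1)], [(1, 1), (3, -1)], [(0, -1), (1, 1)], [(0, 1), (4, 1)], [(2, 1), (4,
  -1)], [(0, -1), (2, 1)], [(1, 1), (5, 1)], [(2, 1), (5, -1)], [(1, -1), (2, 1)], [(3, 1), (5,
  1)], [(4, 1), (5, -1)], [(3, -1), (4, 1)], [(6, 1), (8, 1)], [(7, 1), (8, -1)], [(6, -1), (7,
  1)], [(0, 1), (3, 1), (5, 1)], [(0, 1), (4, 1), (5, -1)], [(1, 1), (3, -1), (4, 1)], [(1, 1),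
  (5, 1), (4, -1)], [(2, 1), (4, -1), (3, 1)], [(2, 1), (5, -1), (3, -1)], [(0, -1), (1, 1),
  (5, 1)], [(0, -1), (2, 1), (5, -1)], [(3, 1), (1, -1), (2, 1)], [(4, 1), (2, -1), (1, 1)],
  [(1, -1), (0, 1), (4, 1)], [(3, -1), (0, -1), (2, 1)]]

/-- the sum (`s = 0`) or difference (`s = 1`) of two cocycles of `K_5`, given by their values on the
triangles, has values `-1, 0, 1` on all cycles -/
def compat (s : ℕ) (x y : ℕ → ℤ) : Prop :=
  ∀ c ∈ CYC, |(c.map fun p => p.2 * (x p.1 + (if s = 0 then 1 else -1) * y p.1)).sum| ≤ 1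

/-- `τ` chooses a type for every triangle in a consistent way -/
structure Model (τ : ℕ → ℕ) : Prop where
  lt : ∀ T < 84, τ T < 151
  pair : ∀ T < 84, ∀ l < 20, nb T l / 32 < 84 ∧ nb T l % 32 < 20 ∧ 
    ty (τ T) l = ty (τ (nb T l / 32)) (nb T l % 32)
  comp : ∀ T < 84, ∀ a < 18, ∀ c < 51, ad T a / 128 < 84 ∧ ad T a / 2 % 8 < 6 ∧ 
    (Nat.testBit (rm (ad T a / 2 % 8) c) (τ (ad T a / 128)) = true → 
      Nat.testBit (cm (ad T a % 2) (ad T a / 16 % 8) c) (τ T) = true)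
  par : ∀ x < 84, (∀ i < 10, sx x i / 32 < 84 ∧ sx x i % 32 < 20) ∧ 
    Odd (∑ i ∈ Finset.range 10, (if ty (τ (sx x i / 32)) (sx x i % 32) = 1 then 0 else 1 : ℕ))

/-- the types chosen by `τ` are in the domains of the state `s` -/
def Sat (s : ℕ) (τ : ℕ → ℕ) : Prop := ∀ T < 84, Nat.testBit s (151 * T + τ T) = true

/-- two triangles which have exactly one vertex in common are linked with a third triangle -/
def S2 (ω : Fin 9 → Fin 9 → Fin 9 → Fin 9 → ℤ) : Prop :=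
  ∃ x y z v a b c d : Fin 9, [x, y, z, v, a, b, c, d].Nodup ∧ tri ω x y z v a b ≠ 0 ∧ 
    tri ω x y z v c d ≠ 0

end Pool.Agent.H891R2.KN
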