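import Pool.Agent.H891R2.KN.Defs
import Pool.Agent.H891R2.KN.Sem

set_option autoImplicit false

/-!
KC9: relabelling and mirror images; permutations of the vertices of a triangle.
-/

namespace Pool.Agent.H891R2.KN.C9

open Pool.Agent.H891R2.KN

theorem edges3 {n : ℕ} (a b c : Fin n) : edges [a, b, c] = [(a, b), (b, c), (c, a)] := rfl

theorem tri_eq {n : ℕ} (ω : Fin n → Fin n → Fin n → Fin n → ℤ) (a b c d e f : Fin n) :
    tri ω a b c d e f =
      (ω a b d e + ω a b e f + ω a b f d) + (ω b c d e + ω b c e f + ω b c f d) +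
        (ω c a d e + ω c a e f + ω c a f d) := by
  unfold tri total
  rw [edges3, edges3]
  simp only [List.map_cons, List.map_nil, List.sum_cons, List.sum_nil]
  ring

theorem tri_map (ω : Fin 9 → Fin 9 → Fin 9 → Fin 9 → ℤ) (g : Fin 9 → Fin 9) (ε : ℤ)
    (a b c d e f : Fin 9) :
    tri (fun i j k l => ε * ω (g i) (g j) (g k) (g l)) a b c d e f =
      ε * tri ω (g a) (g b) (g c) (g d) (g e) (g f) := by
  rw [tri_eq, tri_eq]
  ring

theorem tri_perm (ω : Fin 9 → Fin 9 → Fin 9 → Fin 9 → ℤ) (hω : Good ω) (a b c d e f : Fin 9)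
    (h : [a, b, c, d, e, f].Nodup) :
    tri ω b c a d e f = tri ω a b c d e f ∧ tri ω b a c d e f = - tri ω a b c d e f ∧
    tri ω a b c e f d = tri ω a b c d e f ∧ tri ω a b c e d f = - tri ω a b c d e f := by
  simp only [List.nodup_cons, List.mem_cons, List.not_mem_nil, or_false, not_or, not_false_eq_true,
    List.nodup_nil, and_true] at h
  obtain ⟨⟨hab, hac, had, hae, haf⟩, ⟨hbc, hbd, hbe, hbf⟩, ⟨hcd, hce, hcf⟩, ⟨hde, hdf⟩, hef⟩ := h
  have key : ∀ x y z w : Fin 9, x ≠ y → x ≠ z → x ≠ w → y ≠ z → y ≠ w → z ≠ w →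
      [x, y, z, w].Nodup := by
    intro x y z w h1 h2 h3 h4 h5 h6
    simp [h1, h2, h3, h4, h5, h6]
  have A : ∀ x y z w : Fin 9, x ≠ y → x ≠ z → x ≠ w → y ≠ z → y ≠ w → z ≠ w →
      ω y x z w = - ω x y z w := fun x y z w h1 h2 h3 h4 h5 h6 =>
    hω.anti₁ x y z w (key x y z w h1 h2 h3 h4 h5 h6)
  have B : ∀ x y z w : Fin 9, x ≠ y → x ≠ z → x ≠ w → y ≠ z → y ≠ w → z ≠ w →
      ω x y w z = - ω x y z w := fun x y z w h1 h2 h3 h4 h5 h6 =>
    hω.anti₂ x y z w (key x y z w h1 h2 h3 h4 h5 h6)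
  refine ⟨?_, ?_, ?_, ?_⟩
  · rw [tri_eq, tri_eq]; ring
  · rw [tri_eq, tri_eq]
    rw [A a b d e hab had hae hbd hbe hde, A a b e f hab hae haf hbe hbf hef,
      A a b f d hab haf had hbf hbd (Ne.symm hdf),
      A c a d e (Ne.symm hac) hcd hce had hae hde, A c a e f (Ne.symm hac) hce hcf hae haf hef,
      A c a f d (Ne.symm hac) hcf hcd haf had (Ne.symm hdf),
      A b c d e hbc hbd hbe hcd hce hde, A b c e f hbc hbe hbf hce hcf hef,
      A b c f d hbc hbf hbd hcf hcd (Ne.symm hdf)]
    ring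
  · rw [tri_eq, tri_eq]; ring
  · rw [tri_eq, tri_eq]
    rw [B a b d e hab had hae hbd hbe hde, B a b e f hab hae haf hbe hbf hef,
      B a b f d hab haf had hbf hbd (Ne.symm hdf),
      B c a d e (Ne.symm hac) hcd hce had hae hde, B c a e f (Ne.symm hac) hce hcf hae haf hef,
      B c a f d (Ne.symm hac) hcf hcd haf had (Ne.symm hdf),
      B b c d e hbc hbd hbe hcd hce hde, B b c e f hbc hbe hbf hce hcf hef,
      B b c f d hbc hbf hbd hcf hcd (Ne.symm hdf)]
    ring

theorem edges_map {n : ℕ} (g : Fin n → Fin n) (c : List (Fin n)) :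
    edges (c.map g) = (edges c).map (Prod.map g g) := by
  unfold edges
  rw [← List.map_rotate, List.zip_map]

theorem total_map {n : ℕ} (ω : Fin n → Fin n → Fin n → Fin n → ℤ) (g : Fin n → Fin n) (ε : ℤ)
    (c c' : List (Fin n)) :
    total (fun i j k l => ε * ω (g i) (g j) (g k) (g l)) c c' =
      ε * total ω (c.map g) (c'.map g) := by
  unfold total
  rw [edges_map, edges_map, List.map_map, ← List.sum_map_mul_left]
  congr 1
  apply List.map_congr_left
  intro e _
  simp only [Function.comp, List.map_map, Prod.map]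
  rw [← List.sum_map_mul_left]
  rfl

theorem good_map (ω : Fin 9 → Fin 9 → Fin 9 → Fin 9 → ℤ) (hω : Good ω) (g : Equiv.Perm (Fin 9))
    (ε : ℤ) (hε : ε = 1 ∨ ε = -1) : Good (fun i j k l => ε * ω (g i) (g j) (g k) (g l)) where
  anti₁ := by
    intro i j k l h
    have h' : [g i, g j, g k, g l].Nodup := h.map g.injective
    rw [hω.anti₁ _ _ _ _ h']
    ring
  anti₂ := by
    intro i j k l h
    have h' : [g i, g j, g k, g l].Nodup := h.map g.injective
    rw [hω.anti₂ _ _ _ _ h']
    ring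
  symm := by
    intro a b c d e f h
    have h' : [g a, g b, g c, g d, g e, g f].Nodup := h.map g.injective
    rw [tri_map ω g ε, tri_map ω g ε, hω.symm _ _ _ _ _ _ h']
  parity := by
    intro a b c d e f h
    have h' : [g a, g b, g c, g d, g e, g f].Nodup := h.map g.injective
    have h2 := hω.parity _ _ _ _ _ _ h'
    have h3 : ten (fun i j k l => ε * ω (g i) (g j) (g k) (g l)) a b c d e f =
        ε * ten ω (g a) (g b) (g c) (g d) (g e) (g f) := by
      unfold ten
      simp only [tri_map ω g ε]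
      ring
    rw [h3]
    rcases hε with rfl | rfl
    · simpa using h2
    · simpa using h2
  bound := by
    intro c c' hc hc' hd
    rw [total_map ω g ε, abs_mul]
    have h1 : |ε| = 1 := by rcases hε with rfl | rfl <;> rfl
    rw [h1, one_mul]
    apply hω.bound
    · exact ⟨by rw [List.length_map]; exact hc.1, hc.2.map g.injective⟩
    · exact ⟨by rw [List.length_map]; exact hc'.1, hc'.2.map g.injective⟩
    · intro x hx hx'
      rw [List.mem_map] at hx hx'
      obtain ⟨y, hy, rfl⟩ := hx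
      obtain ⟨z, hz, hzy⟩ := hx'
      have := g.injective hzy
      subst this
      exact hd hy hz

end Pool.Agent.H891R2.KN.C9
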