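import Pool.Agent.H891R2.KN.Data

set_option autoImplicit false

/-! The checker for certificates. -/

namespace Pool.Agent.H891R2.KN

/-- remove the types in `m` from the domain of the triangle `U` in the state `s` -/
def rmv (s U m : ℕ) : ℕ := Nat.xor s (Nat.land s (Nat.shiftLeft m (Nat.mul 151 U)))

/-- no type in `m` is in the domain of the triangle `T` in the state `s` -/
def non (s T m : ℕ) : Bool := Nat.beq (Nat.land (Nat.shiftRight s (Nat.mul 151 T)) m) 0

/-- if no type of `T` has the value `v` at `l` then remove the types of `U` with value `v` at `l'` -/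
def pairStep (s T l v : ℕ) : ℕ :=
  cond (and (Nat.blt T 84) (and (Nat.blt l 20) (and (Nat.blt v 3) (non s T (vm v l)))))
    (rmv s (Nat.div (nb T l) 32) (vm v (Nat.mod (nb T l) 32))) s

/-- the compatibility rule -/
def compStep (s T a c : ℕ) : ℕ :=
  cond (and (Nat.blt T 84) (and (Nat.blt a 18) (and (Nat.blt c 51) 
      (non s T (cm (Nat.mod (ad T a) 2) (Nat.mod (Nat.div (ad T a) 16) 8) c)))))
    (rmv s (Nat.div (ad T a) 128) (rm (Nat.mod (Nat.div (ad T a) 2) 8) c)) s

/-- the parity of the value of the pair `(A, l)` in the state `s`: 0 if the value is 0 for all types,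
1 if it is never 0, otherwise 2 -/
def par1 (s A l : ℕ) : ℕ :=
  cond (non s A (Nat.lor (vm 0 l) (vm 2 l))) 0 (cond (non s A (vm 1 l)) 1 2)

def par2 (s p : ℕ) : ℕ :=
  cond (Nat.beq (par1 s (Nat.div p 32) (Nat.mod p 32)) 2)
    (par1 s (Nat.div (nb (Nat.div p 32) (Nat.mod p 32)) 32) 
      (Nat.mod (nb (Nat.div p 32) (Nat.mod p 32)) 32))
    (par1 s (Nat.div p 32) (Nat.mod p 32))

/-- the sum of the parities of the pairs `i < n`, `i ≠ j` (plus at least 100 if one of them is not
determined) -/
def parSum (s x j : ℕ) : ℕ → ℕ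
  | 0 => 0
  | n + 1 => cond (Nat.beq n j) (parSum s x j n) 
      (cond (Nat.beq (par2 s (sx x n)) 2) 100 (Nat.add (par2 s (sx x n)) (parSum s x j n)))

/-- the parity rule for the pair number `j` of the six-set `x` -/
def parStep (s x j : ℕ) : ℕ :=
  cond (and (Nat.blt x 84) (and (Nat.blt j 10) (Nat.blt (parSum s x j 10) 100)))
    (cond (Nat.beq (Nat.mod (parSum s x j 10) 2) 0)
      (rmv s (Nat.div (sx x j) 32) (vm 1 (Nat.mod (sx x j) 32)))
      (rmv s (Nat.div (sx x j) 32) (Nat.lor (vm 0 (Nat.mod (sx x j) 32)) (vm 2 (Nat.mod (sx x j) 32))))) s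

/-- one step -/
def step (s c : ℕ) : ℕ :=
  cond (Nat.beq (Nat.shiftRight c 18) 1) 
    (pairStep s (Nat.mod (Nat.shiftRight c 11) 128) (Nat.mod (Nat.shiftRight c 6) 32) (Nat.mod c 64))
    (cond (Nat.beq (Nat.shiftRight c 18) 2) 
      (compStep s (Nat.mod (Nat.shiftRight c 11) 128) (Nat.mod (Nat.shiftRight c 6) 32) (Nat.mod c 64))
      (parStep s (Nat.mod (Nat.shiftRight c 4) 128) (Nat.mod c 16)))

/-- several steps, packed into the number `st` -/
def run : ℕ → ℕ → ℕ → ℕ
  | 0, _, s => s
  | n + 1, st, s => run n (Nat.shiftRight st 20) (step s (Nat.mod st 1048576))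

/-- Certificates: `leaf n st T`: after `n` steps the domain of `T` is empty; `node n st T l`: after
`n` steps, three cases for the value of the types of `T` at `l`. -/
inductive Cert : Type
  | leaf : ℕ → ℕ → ℕ → Cert
  | node : ℕ → ℕ → ℕ → ℕ → Cert → Cert → Cert → Cert

/-- keep only the types with the value `v` at `l` in the domain of `T` -/
def keep (s T v l : ℕ) : ℕ := rmv s T (Nat.xor full (vm v l))

def Cert.check : Cert → ℕ → Bool
  | .leaf n st T, s => and (Nat.blt T 84) (non (run n st s) T full)
  | .node n st T l c₀ c₁ c₂, s => 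
      and (and (Nat.blt T 84) (Nat.blt l 20)) (and (c₀.check (keep (run n st s) T 0 l)) 
        (and (c₁.check (keep (run n st s) T 1 l)) (c₂.check (keep (run n st s) T 2 l))))

/-- the state in which all triangles have all 151 types -/
def all : ℕ := Nat.sub (Nat.shiftLeft 1 12684) 1

/-- the state in which the triangle 012 has the type `t`, the triangle 345 has the type `u` -/
def start (t u : ℕ) : ℕ := 
  rmv (rmv all 0 (Nat.xor full (Nat.shiftLeft 1 t))) 64 (Nat.xor full (Nat.shiftLeft 1 u))

/-- the state in which all triangles have one of the first 31 types -/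
def all31 : ℕ → ℕ
  | 0 => 0
  | n + 1 => Nat.add (Nat.shiftLeft (all31 n) 151) 2147483647

/-- the state in which all triangles have one of the first 31 types, and the triangles 012 and 345
the types `t`, `u` -/
def start31 (t u : ℕ) : ℕ := 
  rmv (rmv (all31 84) 0 (Nat.xor full (Nat.shiftLeft 1 t))) 64 (Nat.xor full (Nat.shiftLeft 1 u))

end Pool.Agent.H891R2.KN
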