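import Pool.Agent.H891R2.KN.Defs

set_option autoImplicit false

/-! KN1: reversing a path. -/

namespace Pool.Agent.H891R2.KN.G1

theorem segs_cons (x y : Pt) (r : List Pt) : segs (x :: y :: r) = (x, y) :: segs (y :: r) := rfl

theorem segs_snoc (l : List Pt) (a b : Pt) : segs (l ++ [a] ++ [b]) = segs (l ++ [a]) ++ [(a, b)] := by
  induction l with
  | nil => rfl
  | cons x l ih =>
    cases l with
    | nil => rfl
    | cons y l =>
      simp only [List.cons_append] at ih ⊢
      rw [segs_cons, segs_cons, ih, List.cons_append]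

theorem segs_reverse (p : List Pt) : segs p.reverse = ((segs p).map Prod.swap).reverse := by
  induction p with
  | nil => rfl
  | cons x p ih =>
    cases p with
    | nil => rfl
    | cons y r =>
      rw [List.reverse_cons, List.reverse_cons, segs_snoc, ← List.reverse_cons, ih, segs_cons,
        List.map_cons, List.reverse_cons]
      rfl

theorem sum_segs_reverse (p : List Pt) (f : Pt × Pt → ℤ) :
    ((segs p.reverse).map f).sum = ((segs p).map fun s => f s.swap).sum := by
  rw [segs_reverse, List.map_reverse, List.sum_reverse, List.map_map]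
  rfl

theorem sum_neg (l : List (Pt × Pt)) (f g : Pt × Pt → ℤ) (h : ∀ s ∈ l, g s = - f s) :
    (l.map g).sum = - (l.map f).sum := by
  induction l with
  | nil => simp
  | cons x l ih =>
    rw [List.map_cons, List.map_cons, List.sum_cons, List.sum_cons, h x (by simp),
      ih fun s hs => h s (List.mem_cons_of_mem _ hs)]
    ring

theorem mem_segs {p : List Pt} {s : Pt × Pt} (h : s ∈ segs p) : s.1 ∈ p ∧ s.2 ∈ p := by
  unfold segs at h
  have h1 := List.of_mem_zip h
  exact ⟨h1.1, List.mem_of_mem_tail h1.2⟩

theorem area_swap (a b c : Pt) : area b a c = - area a b c := by unfold area; ring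

theorem orient_swap (a b c : Pt) : orient b a c = - orient a b c := by
  unfold orient
  rw [area_swap]
  rcases lt_trichotomy (area a b c) 0 with h | h | h
  · have h1 : 0 < - area a b c := by linarith
    have h2 : ¬ 0 < area a b c := by linarith
    rw [if_pos h1, if_neg h2, if_pos h]
    rfl
  · simp [h]
  · have h1 : ¬ 0 < - area a b c := by linarith
    have h2 : - area a b c < 0 := by linarith
    rw [if_neg h1, if_pos h2, if_pos h]

theorem orient_self (a c : Pt) : orient a a c = 0 := by
  have : area a a c = 0 := by unfold area; ring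
  unfold orient
  simp [this]

theorem orient_cases {a b c : Pt} (h : area a b c ≠ 0) : orient a b c = 1 ∨ orient a b c = -1 := by
  unfold orient
  rcases lt_or_gt_of_ne h with h1 | h1
  · have h2 : ¬ 0 < area a b c := by linarith
    right
    rw [if_neg h2, if_pos h1]
  · left
    rw [if_pos h1]

theorem cross_swap_left (a b c d : Pt) : cross b a c d = - cross a b c d := by
  unfold cross
  rw [orient_swap a b c, orient_swap a b d]
  by_cases h : orient a b c ≠ orient a b d ∧ orient c d a ≠ orient c d b
  · rw [if_pos h, if_pos ⟨fun e => h.1 (neg_injective e), fun e => h.2 e.symm⟩]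
  · rw [if_neg h, if_neg]
    · simp
    · rintro ⟨h1, h2⟩
      exact h ⟨fun e => h1 (by rw [e]), fun e => h2 e.symm⟩

theorem cross_swap_right (a b c d : Pt)
    (h : orient a b c ≠ orient a b d → orient a b c = - orient a b d) :
    cross a b d c = - cross a b c d := by
  unfold cross
  rw [orient_swap c d a, orient_swap c d b]
  by_cases h' : orient a b c ≠ orient a b d ∧ orient c d a ≠ orient c d b
  · rw [if_pos h', if_pos ⟨fun e => h'.1 e.symm, fun e => h'.2 (neg_injective e)⟩]
    exact h h'.1
  · rw [if_neg h', if_neg]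
    · simp
    · rintro ⟨h1, h2⟩
      exact h' ⟨fun e => h1 e.symm, fun e => h2 (by rw [e])⟩

theorem opp {p q : List Pt} (h : Gen (p ++ q)) (hd : p.Disjoint q) {s t : Pt × Pt}
    (hs : s ∈ segs p) (ht : t ∈ segs q) :
    orient s.1 s.2 t.1 ≠ orient s.1 s.2 t.2 → orient s.1 s.2 t.1 = - orient s.1 s.2 t.2 := by
  intro hne
  have hs' := mem_segs hs
  have ht' := mem_segs ht
  by_cases hab : s.1 = s.2
  · exfalso
    apply hne
    rw [hab, orient_self, orient_self]
  · have key : ∀ c ∈ q, area s.1 s.2 c ≠ 0 := by
      intro c hc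
      refine h _ (List.mem_append_left _ hs'.1) _ (List.mem_append_left _ hs'.2) _
        (List.mem_append_right _ hc) hab ?_ ?_
      · rintro rfl
        exact hd hs'.1 hc
      · rintro rfl
        exact hd hs'.2 hc
    rcases orient_cases (key _ ht'.1) with h1 | h1 <;>
    rcases orient_cases (key _ ht'.2) with h2 | h2 <;> rw [h1, h2] at hne ⊢ <;>
    first | exact absurd rfl hne | rfl

theorem over_swap_left (a b c d : Pt) : Over b a c d ↔ Over a b c d := by
  unfold Over
  rw [segment_symm]

theorem over_swap_right (a b c d : Pt) : Over a b d c ↔ Over a b c d := by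
  unfold Over
  rw [segment_symm ℝ d c]

theorem X_reverse_left (p q : List Pt) (_h : Gen (p ++ q)) (_hd : p.Disjoint q) :
    X p.reverse q = - X p q := by
  unfold X
  rw [sum_segs_reverse]
  refine sum_neg _ _ _ fun s _ => ?_
  refine sum_neg _ _ _ fun t _ => ?_
  exact cross_swap_left _ _ _ _

theorem X_reverse_right (p q : List Pt) (h : Gen (p ++ q)) (hd : p.Disjoint q) :
    X p q.reverse = - X p q := by
  unfold X
  refine sum_neg _ _ _ fun s hs => ?_
  rw [sum_segs_reverse]
  refine sum_neg _ _ _ fun t ht => ?_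
  exact cross_swap_right _ _ _ _ (opp h hd hs ht)

theorem ov_reverse_left (p q : List Pt) (_h : Gen (p ++ q)) (_hd : p.Disjoint q) :
    ov p.reverse q = - ov p q := by
  classical
  unfold ov
  rw [sum_segs_reverse]
  refine sum_neg _ _ _ fun s _ => ?_
  refine sum_neg _ _ _ fun t _ => ?_
  show (if Over s.2 s.1 t.1 t.2 then cross s.2 s.1 t.1 t.2 else 0) =
    - (if Over s.1 s.2 t.1 t.2 then cross s.1 s.2 t.1 t.2 else 0)
  by_cases ho : Over s.1 s.2 t.1 t.2
  · rw [if_pos ho, if_pos ((over_swap_left _ _ _ _).2 ho)]
    exact cross_swap_left _ _ _ _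
  · rw [if_neg ho, if_neg fun h' => ho ((over_swap_left _ _ _ _).1 h')]
    simp

theorem ov_reverse_right (p q : List Pt) (h : Gen (p ++ q)) (hd : p.Disjoint q) :
    ov p q.reverse = - ov p q := by
  classical
  unfold ov
  refine sum_neg _ _ _ fun s hs => ?_
  rw [sum_segs_reverse]
  refine sum_neg _ _ _ fun t ht => ?_
  show (if Over s.1 s.2 t.2 t.1 then cross s.1 s.2 t.2 t.1 else 0) =
    - (if Over s.1 s.2 t.1 t.2 then cross s.1 s.2 t.1 t.2 else 0)
  by_cases ho : Over s.1 s.2 t.1 t.2
  · rw [if_pos ho, if_pos ((over_swap_right _ _ _ _).2 ho)]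
    exact cross_swap_right _ _ _ _ (opp h hd hs ht)
  · rw [if_neg ho, if_neg fun h' => ho ((over_swap_right _ _ _ _).1 h')]
    simp

end Pool.Agent.H891R2.KN.G1
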