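import Pool.Agent.H891R2.KN.Defs

set_option autoImplicit false

/-!
# The theorem of Conway, Gordon and Sachs for polygonal embeddings (task KN10)
-/

namespace Pool.Agent.H891R2.KN.G10

/-- all corners of a spatial graph -/
def corners {n : ℕ} (G : SpatialK n) : List Pt := 
  (List.finRange n).map G.vert ++ (List.finRange n).flatMap fun i =>
    ((List.finRange n).filter fun j => i < j).flatMap fun j => G.inner i j

theorem tri_eq {n : ℕ} (W : Fin n → Fin n → Fin n → Fin n → ℤ)
    (h1 : ∀ i j k l, [i, j, k, l].Nodup → W j i k l = - W i j k l)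
    (h2 : ∀ i j k l, [i, j, k, l].Nodup → W i j l k = - W i j k l)
    (x y z u v w : Fin n) (h : [x, y, z, u, v, w].Nodup) :
    tri W x y z u v w = W x y u v + W x y v w - W x y u w + (W y z u v + W y z v w - W y z u w)
      - (W x z u v + W x z v w - W x z u w) := by
  have e : tri W x y z u v w = (W x y u v + (W x y v w + W x y w u)) +
      ((W y z u v + (W y z v w + W y z w u)) + (W z x u v + (W z x v w + W z x w u))) := by
    simp [tri, total, edges]
  have n1 : [x, y, u, w].Nodup := by simp at h ⊢; tauto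
  have n2 : [y, z, u, w].Nodup := by simp at h ⊢; tauto
  have n3 : [x, z, u, w].Nodup := by simp at h ⊢; tauto
  have n4 : [x, z, u, v].Nodup := by simp at h ⊢; tauto
  have n5 : [x, z, v, w].Nodup := by simp at h ⊢; tauto
  have n6 : [x, z, w, u].Nodup := by simp at h ⊢; tauto
  rw [e, h2 x y u w n1, h2 y z u w n2, h1 x z u v n4, h1 x z v w n5, h1 x z w u n6, h2 x z u w n3]
  ring

theorem parity {n : ℕ} (W Y : Fin n → Fin n → Fin n → Fin n → ℤ)
    (h1 : ∀ i j k l, [i, j, k, l].Nodup → W j i k l = - W i j k l)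
    (h2 : ∀ i j k l, [i, j, k, l].Nodup → W i j l k = - W i j k l)
    (h3 : ∀ i j k l, [i, j, k, l].Nodup → Y i j k l = W i j k l - W k l i j)
    (a b c d e f : Fin n) (h : [a, b, c, d, e, f].Nodup)
    (hY : Odd (Y b c d e + Y b c d f + Y b c e f + Y b d c e + Y b d c f + Y b d e f + Y b e c d +
      Y b e c f + Y b e d f + Y b f c d + Y b f c e + Y b f d e + Y c d e f + Y c e d f +
      Y c f d e)) : Odd (ten W a b c d e f) := by
  have m1 : [a, b, d, c, e, f].Nodup := by simp at h ⊢; tauto
  have m2 : [a, b, e, c, d, f].Nodup := by simp at h ⊢; tauto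
  have m3 : [a, b, f, c, d, e].Nodup := by simp at h ⊢; tauto
  have m4 : [a, c, d, b, e, f].Nodup := by simp at h ⊢; tauto
  have m5 : [a, c, e, b, d, f].Nodup := by simp at h ⊢; tauto
  have m6 : [a, c, f, b, d, e].Nodup := by simp at h ⊢; tauto
  have m7 : [a, d, e, b, c, f].Nodup := by simp at h ⊢; tauto
  have m8 : [a, d, f, b, c, e].Nodup := by simp at h ⊢; tauto
  have m9 : [a, e, f, b, c, d].Nodup := by simp at h ⊢; tauto
  unfold ten
  rw [tri_eq W h1 h2 a b c d e f h, tri_eq W h1 h2 a b d c e f m1, tri_eq W h1 h2 a b e c d f m2,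
    tri_eq W h1 h2 a b f c d e m3, tri_eq W h1 h2 a c d b e f m4, tri_eq W h1 h2 a c e b d f m5,
    tri_eq W h1 h2 a c f b d e m6, tri_eq W h1 h2 a d e b c f m7, tri_eq W h1 h2 a d f b c e m8,
    tri_eq W h1 h2 a e f b c d m9]
  rw [h3 b c d e (by simp at h ⊢; tauto), h3 b c d f (by simp at h ⊢; tauto),
    h3 b c e f (by simp at h ⊢; tauto), h3 b d c e (by simp at h ⊢; tauto),
    h3 b d c f (by simp at h ⊢; tauto), h3 b d e f (by simp at h ⊢; tauto),
    h3 b e c d (by simp at h ⊢; tauto), h3 b e c f (by simp at h ⊢; tauto),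
    h3 b e d f (by simp at h ⊢; tauto), h3 b f c d (by simp at h ⊢; tauto),
    h3 b f c e (by simp at h ⊢; tauto), h3 b f d e (by simp at h ⊢; tauto),
    h3 c d e f (by simp at h ⊢; tauto), h3 c e d f (by simp at h ⊢; tauto),
    h3 c f d e (by simp at h ⊢; tauto)] at hY
  rw [Int.odd_iff] at hY ⊢
  clear h1 h2 h3 m1 m2 m3 m4 m5 m6 m7 m8 m9 h
  omega

/-- KN10: the theorem of Conway, Gordon and Sachs (uses KN1, KN4, KN7, KN8) -/
theorem conway_gordon
    (ov_reverse_left : ∀ (p q : List Pt), Gen (p ++ q) → p.Disjoint q →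
      ov p.reverse q = - ov p q)
    (ov_reverse_right : ∀ (p q : List Pt), Gen (p ++ q) → p.Disjoint q →
      ov p q.reverse = - ov p q)
    (ov_sub : ∀ (p q : List Pt), Gen (p ++ q) → p.Disjoint q →
      (∀ s ∈ segs p, ∀ t ∈ segs q, Disjoint (segment ℝ s.1 s.2) (segment ℝ t.1 t.2)) →
      ov p q - ov q p = X p q)
    (K5_paths : ∀ (v : Fin 5 → Pt), Function.Injective v → ∀ (p : Fin 5 → Fin 5 → List Pt),
      (∀ i j, i ≠ j → Path (v i) (v j) (p i j)) → (∀ i j, p j i = (p i j).reverse) →
      ∀ (L : List Pt), Gen L → (∀ i j, i ≠ j → ∀ x ∈ p i j, x ∈ L) →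
      (∀ i j k l, [i, j, k, l].Nodup → (p i j).Disjoint (p k l)) →
      Odd (K5sum fun i j k l => X (p i j) (p k l)))
    (path_facts : ∀ {n : ℕ} (G : SpatialK n),
      Gen (corners G) ∧ (∀ i j, i ≠ j → ∀ x ∈ G.path i j, x ∈ corners G) ∧ 
      Function.Injective G.vert ∧
      (∀ i j, G.path j i = (G.path i j).reverse) ∧
      (∀ i j, Path (G.vert i) (G.vert j) (G.path i j)) ∧ 
      (∀ i j k l, [i, j, k, l].Nodup → (G.path i j).Disjoint (G.path k l)) ∧ 
      (∀ i j k l, [i, j, k, l].Nodup → ∀ s ∈ segs (G.path i j), ∀ t ∈ segs (G.path k l), 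
        Disjoint (segment ℝ s.1 s.2) (segment ℝ t.1 t.2)))
    {n : ℕ} (G : SpatialK n) (a b c d e f : Fin n) 
    (h : [a, b, c, d, e, f].Nodup) :
    Odd (ten (fun i j k l => ov (G.path i j) (G.path k l)) a b c d e f) := by
  obtain ⟨hG, hmem, hinj, hrev, hpath, hdis, hseg⟩ := path_facts G
  have gen : ∀ i j k l, [i, j, k, l].Nodup → Gen (G.path i j ++ G.path k l) := by
    intro i j k l hn
    have hij : i ≠ j := by simp at hn; tauto
    have hkl : k ≠ l := by simp at hn; tauto
    have hsub : ∀ x ∈ G.path i j ++ G.path k l, x ∈ corners G := by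
      intro x hx
      rcases List.mem_append.1 hx with hx | hx
      · exact hmem i j hij x hx
      · exact hmem k l hkl x hx
    intro x hx y hy z hz
    exact hG x (hsub x hx) y (hsub y hy) z (hsub z hz)
  apply parity (fun i j k l => ov (G.path i j) (G.path k l))
    (fun i j k l => X (G.path i j) (G.path k l)) _ _ _ a b c d e f h
  · -- five vertices
    have hu : Function.Injective ![b, c, d, e, f] := by
      have h5 : [b, c, d, e, f].Nodup := by simp at h ⊢; tauto
      intro i j hij
      fin_cases i <;> fin_cases j <;> simp at hij h5 ⊢ <;> tauto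
    set u : Fin 5 → Fin n := ![b, c, d, e, f] with hud
    have hK := K5_paths (fun i => G.vert (u i)) (fun i j hij => hu (hinj hij))
      (fun i j => G.path (u i) (u j)) (fun i j _ => hpath _ _) (fun i j => hrev _ _)
      (corners G) hG (fun i j hij => hmem _ _ (fun hc => hij (hu hc))) (by
        intro i j k l hn
        apply hdis
        have : [u i, u j, u k, u l] = [i, j, k, l].map u := rfl
        rw [this]
        exact hn.map hu)
    exact hK
  · intro i j k l hn
    show ov (G.path j i) (G.path k l) = - ov (G.path i j) (G.path k l)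
    rw [hrev i j]
    exact ov_reverse_left _ _ (gen i j k l hn) (hdis i j k l hn)
  · intro i j k l hn
    show ov (G.path i j) (G.path l k) = - ov (G.path i j) (G.path k l)
    rw [hrev k l]
    exact ov_reverse_right _ _ (gen i j k l hn) (hdis i j k l hn)
  · intro i j k l hn
    exact (ov_sub _ _ (gen i j k l hn) (hdis i j k l hn) (hseg i j k l hn)).symm

end Pool.Agent.H891R2.KN.G10
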