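import Pool.Agent.H891R2.KN.Defs

set_option autoImplicit false

namespace Pool.Agent.H891R2.KN.G2

/-- sign of a truth value -/
def sb (b : Bool) : ℤ := if b then 1 else -1

theorem orient_b {a b c : Pt} (h : area a b c ≠ 0) : ∃ s : Bool, orient a b c = sb s ∧
    (s = true → 0 < area a b c) ∧ (s = false → area a b c < 0) := by
  rcases lt_or_gt_of_ne h with h | h
  · refine ⟨false, ?_, by simp, fun _ => h⟩
    unfold orient sb
    rw [if_neg (not_lt.mpr h.le), if_pos h]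
    simp
  · refine ⟨true, ?_, fun _ => h, by simp⟩
    unfold orient sb
    rw [if_pos h]
    simp

theorem orient_swap (a b c : Pt) : orient b a c = - orient a b c := by
  have h : area b a c = - area a b c := by unfold area; ring
  unfold orient
  rw [h]
  rcases lt_trichotomy (area a b c) 0 with h1 | h1 | h1
  · rw [if_pos (by linarith), if_neg (by linarith), if_pos h1]
    simp
  · rw [h1]
    simp
  · rw [if_neg (by linarith), if_pos (by linarith), if_pos h1]

theorem orient_same (a c : Pt) : orient a a c = 0 := by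
  have h := orient_swap a a c
  omega

theorem cross_swap (a b c d : Pt) : cross b a c d = - cross a b c d := by
  unfold cross
  rw [orient_swap a b c, orient_swap a b d]
  by_cases h1 : orient a b c ≠ orient a b d ∧ orient c d a ≠ orient c d b
  · rw [if_pos h1, if_pos ⟨fun h => h1.1 (neg_inj.mp h), fun h => h1.2 h.symm⟩]
  · rw [if_neg h1, if_neg, neg_zero]
    rintro ⟨h2, h3⟩
    exact h1 ⟨fun h => h2 (by rw [h]), fun h => h3 h.symm⟩

theorem cross_same (a c d : Pt) : cross a a c d = 0 := by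
  have h := cross_swap a a c d
  omega

theorem cross_same' (a b c : Pt) : cross a b c c = 0 := by
  unfold cross
  rw [if_neg]
  rintro ⟨h, _⟩
  exact h rfl

/-- the combinatorial statement, as a truth value -/
def chk (X Y Z p1 p2 p3 q1 q2 q3 : Bool) : Bool :=
  (!X && Y && !p1 && q1) || (X && !Y && p1 && !q1) || (!Y && Z && !p2 && q2) ||
  (Y && !Z && p2 && !q2) || (!Z && X && !p3 && q3) || (Z && !X && p3 && !q3) ||
  (X == p2 && Y == p3 && Z == p1) || (X != p2 && Y != p3 && Z != p1) ||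
  (X == q2 && Y == q3 && Z == q1) || (X != q2 && Y != q3 && Z != q1) ||
  ((if sb p1 ≠ sb q1 ∧ sb X ≠ sb Y then sb q1 else 0) +
      (if sb p2 ≠ sb q2 ∧ sb Y ≠ sb Z then sb q2 else 0) +
      (if sb p3 ≠ sb q3 ∧ sb Z ≠ sb X then sb q3 else 0) ==
    (if sb q1 = sb q2 ∧ sb q2 = sb q3 then sb q1 else 0) -
      (if sb p1 = sb p2 ∧ sb p2 = sb p3 then sb p1 else 0))

theorem chk_all : ∀ X Y Z p1 p2 p3 q1 q2 q3 : Bool, chk X Y Z p1 p2 p3 q1 q2 q3 = true := by
  decide

theorem key (X Y Z p1 p2 p3 q1 q2 q3 : Bool)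
    (h1 : ¬ (X = false ∧ Y = true ∧ p1 = false ∧ q1 = true))
    (h2 : ¬ (X = true ∧ Y = false ∧ p1 = true ∧ q1 = false))
    (h3 : ¬ (Y = false ∧ Z = true ∧ p2 = false ∧ q2 = true))
    (h4 : ¬ (Y = true ∧ Z = false ∧ p2 = true ∧ q2 = false))
    (h5 : ¬ (Z = false ∧ X = true ∧ p3 = false ∧ q3 = true))
    (h6 : ¬ (Z = true ∧ X = false ∧ p3 = true ∧ q3 = false))
    (h7 : ¬ (X = p2 ∧ Y = p3 ∧ Z = p1)) (h8 : ¬ (X ≠ p2 ∧ Y ≠ p3 ∧ Z ≠ p1))
    (h9 : ¬ (X = q2 ∧ Y = q3 ∧ Z = q1)) (h10 : ¬ (X ≠ q2 ∧ Y ≠ q3 ∧ Z ≠ q1)) :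
    (if sb p1 ≠ sb q1 ∧ sb X ≠ sb Y then sb q1 else 0) +
      (if sb p2 ≠ sb q2 ∧ sb Y ≠ sb Z then sb q2 else 0) +
      (if sb p3 ≠ sb q3 ∧ sb Z ≠ sb X then sb q3 else 0) =
    (if sb q1 = sb q2 ∧ sb q2 = sb q3 then sb q1 else 0) -
      (if sb p1 = sb p2 ∧ sb p2 = sb p3 then sb p1 else 0) := by
  have h := chk_all X Y Z p1 p2 p3 q1 q2 q3
  unfold chk at h
  simp only [Bool.or_eq_true, Bool.and_eq_true, Bool.not_eq_true', beq_iff_eq, bne_iff_ne] at h
  rcases h with (((((((((h | h) | h) | h) | h) | h) | h) | h) | h) | h) | h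
  · exact absurd ⟨h.1.1.1, h.1.1.2, h.1.2, h.2⟩ h1
  · exact absurd ⟨h.1.1.1, h.1.1.2, h.1.2, h.2⟩ h2
  · exact absurd ⟨h.1.1.1, h.1.1.2, h.1.2, h.2⟩ h3
  · exact absurd ⟨h.1.1.1, h.1.1.2, h.1.2, h.2⟩ h4
  · exact absurd ⟨h.1.1.1, h.1.1.2, h.1.2, h.2⟩ h5
  · exact absurd ⟨h.1.1.1, h.1.1.2, h.1.2, h.2⟩ h6
  · exact absurd ⟨h.1.1, h.1.2, h.2⟩ h7
  · exact absurd ⟨h.1.1, h.1.2, h.2⟩ h8
  · exact absurd ⟨h.1.1, h.1.2, h.2⟩ h9
  · exact absurd ⟨h.1.1, h.1.2, h.2⟩ h10
  · exact h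

theorem eqpos {r s : ℝ} {b c : Bool} (h1 : b = true → 0 < r) (h2 : b = false → r < 0)
    (h3 : c = true → 0 < s) (h4 : c = false → s < 0) (h : b = c) : 0 < r * s := by
  subst h
  cases b
  · exact mul_pos_of_neg_of_neg (h2 rfl) (h4 rfl)
  · exact mul_pos (h1 rfl) (h3 rfl)

theorem nepos {r s : ℝ} {b c : Bool} (h1 : b = true → 0 < r) (h2 : b = false → r < 0)
    (h3 : c = true → 0 < s) (h4 : c = false → s < 0) (h : b ≠ c) : r * s < 0 := by
  cases b <;> cases c
  · exact absurd rfl h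
  · exact mul_neg_of_neg_of_pos (h2 rfl) (h3 rfl)
  · exact mul_neg_of_pos_of_neg (h1 rfl) (h4 rfl)
  · exact absurd rfl h

theorem ins_xx (x z p : Pt) : ins x x z p = 0 := by
  unfold ins
  rw [orient_same]
  split_ifs <;> rfl

theorem ins_yy (x y p : Pt) : ins x y y p = 0 := by
  unfold ins
  rw [orient_same]
  split_ifs with h
  · exact h.1
  · rfl

theorem ins_zx (x y p : Pt) : ins x y x p = 0 := by
  unfold ins
  rw [orient_same]
  split_ifs with h
  · rw [h.1, h.2]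
  · rfl

/-- KN2 -/
theorem five (x y z c d : Pt) (h : Gen [x, y, z, c, d]) (hc : c ∉ [x, y, z]) (hd : d ∉ [x, y, z]) :
    cross x y c d + cross y z c d + cross z x c d = ins x y z d - ins x y z c := by
  by_cases hcd : c = d
  · subst hcd
    rw [cross_same', cross_same', cross_same']
    ring
  by_cases hxy : x = y
  · subst hxy
    rw [cross_same, cross_swap x z, ins_xx, ins_xx]
    ring
  by_cases hyz : y = z
  · subst hyz
    rw [cross_same, cross_swap x y, ins_yy, ins_yy]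
    ring
  by_cases hzx : z = x
  · subst hzx
    rw [cross_same, cross_swap z y, ins_zx, ins_zx]
    ring
  simp only [List.mem_cons, List.not_mem_nil, or_false, not_or] at hc hd
  obtain ⟨hcx, hcy, hcz⟩ := hc
  obtain ⟨hdx, hdy, hdz⟩ := hd
  have mx : x ∈ [x, y, z, c, d] := by simp
  have my : y ∈ [x, y, z, c, d] := by simp
  have mz : z ∈ [x, y, z, c, d] := by simp
  have mc : c ∈ [x, y, z, c, d] := by simp
  have md : d ∈ [x, y, z, c, d] := by simp
  obtain ⟨X, hX, hX1, hX2⟩ := orient_b (h c mc d md x mx hcd hcx hdx)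
  obtain ⟨Y, hY, hY1, hY2⟩ := orient_b (h c mc d md y my hcd hcy hdy)
  obtain ⟨Z, hZ, hZ1, hZ2⟩ := orient_b (h c mc d md z mz hcd hcz hdz)
  obtain ⟨p1, hp1, hp1a, hp1b⟩ := orient_b (h x mx y my c mc hxy (Ne.symm hcx) (Ne.symm hcy))
  obtain ⟨p2, hp2, hp2a, hp2b⟩ := orient_b (h y my z mz c mc hyz (Ne.symm hcy) (Ne.symm hcz))
  obtain ⟨p3, hp3, hp3a, hp3b⟩ := orient_b (h z mz x mx c mc hzx (Ne.symm hcz) (Ne.symm hcx))
  obtain ⟨q1, hq1, hq1a, hq1b⟩ := orient_b (h x mx y my d md hxy (Ne.symm hdx) (Ne.symm hdy))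
  obtain ⟨q2, hq2, hq2a, hq2b⟩ := orient_b (h y my z mz d md hyz (Ne.symm hdy) (Ne.symm hdz))
  obtain ⟨q3, hq3, hq3a, hq3b⟩ := orient_b (h z mz x mx d md hzx (Ne.symm hdz) (Ne.symm hdx))
  have e1 : area x y d = area x y c + area c d x - area c d y := by unfold area; ring
  have e2 : area y z d = area y z c + area c d y - area c d z := by unfold area; ring
  have e3 : area z x d = area z x c + area c d z - area c d x := by unfold area; ring
  have e4 : area c d x * area y z c + area c d y * area z x c + area c d z * area x y c = 0 := by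
    unfold area; ring
  have e5 : area c d x * area y z d + area c d y * area z x d + area c d z * area x y d = 0 := by
    unfold area; ring
  unfold cross ins
  rw [hX, hY, hZ, hp1, hp2, hp3, hq1, hq2, hq3]
  apply key
  · rintro ⟨k1, k2, k3, k4⟩
    have := hX2 k1; have := hY1 k2; have := hp1b k3; have := hq1a k4
    linarith
  · rintro ⟨k1, k2, k3, k4⟩
    have := hX1 k1; have := hY2 k2; have := hp1a k3; have := hq1b k4
    linarith
  · rintro ⟨k1, k2, k3, k4⟩
    have := hY2 k1; have := hZ1 k2; have := hp2b k3; have := hq2a k4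
    linarith
  · rintro ⟨k1, k2, k3, k4⟩
    have := hY1 k1; have := hZ2 k2; have := hp2a k3; have := hq2b k4
    linarith
  · rintro ⟨k1, k2, k3, k4⟩
    have := hZ2 k1; have := hX1 k2; have := hp3b k3; have := hq3a k4
    linarith
  · rintro ⟨k1, k2, k3, k4⟩
    have := hZ1 k1; have := hX2 k2; have := hp3a k3; have := hq3b k4
    linarith
  · rintro ⟨k1, k2, k3⟩
    have := eqpos hX1 hX2 hp2a hp2b k1
    have := eqpos hY1 hY2 hp3a hp3b k2
    have := eqpos hZ1 hZ2 hp1a hp1b k3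
    linarith
  · rintro ⟨k1, k2, k3⟩
    have := nepos hX1 hX2 hp2a hp2b k1
    have := nepos hY1 hY2 hp3a hp3b k2
    have := nepos hZ1 hZ2 hp1a hp1b k3
    linarith
  · rintro ⟨k1, k2, k3⟩
    have := eqpos hX1 hX2 hq2a hq2b k1
    have := eqpos hY1 hY2 hq3a hq3b k2
    have := eqpos hZ1 hZ2 hq1a hq1b k3
    linarith
  · rintro ⟨k1, k2, k3⟩
    have := nepos hX1 hX2 hq2a hq2b k1
    have := nepos hY1 hY2 hq3a hq3b k2
    have := nepos hZ1 hZ2 hq1a hq1b k3
    linarith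

end Pool.Agent.H891R2.KN.G2
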