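import Pool.Agent.H891R2.KN.G2

set_option autoImplicit false

namespace Pool.Agent.H891R2.KN.G3

theorem segs_cons (a b : Pt) (l : List Pt) : segs (a :: b :: l) = (a, b) :: segs (b :: l) := by
  unfold segs
  simp

theorem segs_single (a : Pt) : segs [a] = [] := by
  unfold segs
  simp

theorem tele (f : Pt → ℤ) : ∀ (l : List Pt) (a b : Pt), (a :: l).getLast? = some b →
    ((segs (a :: l)).map fun s => f s.2 - f s.1).sum = f b - f a := by
  intro l
  induction l with
  | nil =>
    intro a b h
    rw [segs_single]
    simp only [List.getLast?_singleton, Option.some.injEq] at h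
    subst h
    simp
  | cons c l ih =>
    intro a b h
    rw [segs_cons]
    rw [List.getLast?_cons_cons] at h
    have := ih c b h
    simp only [List.map_cons, List.sum_cons]
    rw [this]
    ring

theorem tele_closed (f : Pt → ℤ) (p : List Pt) (hp : p.head? = p.getLast?) :
    ((segs p).map fun s => f s.2 - f s.1).sum = 0 := by
  cases p with
  | nil => simp [segs]
  | cons a l =>
    have h : (a :: l).getLast? = some a := by
      rw [← hp]
      rfl
    rw [tele f l a a h]
    ring

theorem mem_segs {p : List Pt} {s : Pt × Pt} (h : s ∈ segs p) : s.1 ∈ p ∧ s.2 ∈ p := by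
  unfold segs at h
  have h1 := List.of_mem_zip (a := s.1) (b := s.2) h
  exact ⟨h1.1, List.mem_of_mem_tail h1.2⟩

theorem sum_sub {α : Type} (l : List α) (f g h : α → ℤ) :
    (l.map fun t => (f t - g t) + h t).sum = (l.map f).sum - (l.map g).sum + (l.map h).sum := by
  induction l with
  | nil => simp
  | cons a l ih =>
    simp only [List.map_cons, List.sum_cons, ih]
    ring

/-- KN3 -/
theorem X_closed (P Q : List Pt) (hP : P.head? = P.getLast?) (hQ : Q.head? = Q.getLast?)
    (hd : P.Disjoint Q) (h : Gen (P ++ Q)) : X P Q = 0 := by
  cases P with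
  | nil => simp [X, segs]
  | cons o l =>
    obtain ⟨H, hH⟩ : ∃ H : Pt → ℤ, ∀ u, H u = ((segs Q).map fun t => cross o u t.1 t.2).sum :=
      ⟨_, fun _ => rfl⟩
    have hmain : ∀ s ∈ segs (o :: l), ((segs Q).map fun t => cross s.1 s.2 t.1 t.2).sum =
        H s.2 - H s.1 := by
      intro s hs
      obtain ⟨hs1, hs2⟩ := mem_segs hs
      have h0 := tele_closed (fun q => ins o s.1 s.2 q) Q hQ
      have h1 : ((segs Q).map fun t => cross s.1 s.2 t.1 t.2) = (segs Q).map fun t =>
          ((cross o s.2 t.1 t.2 - cross o s.1 t.1 t.2) +
            (ins o s.1 s.2 t.2 - ins o s.1 s.2 t.1)) := by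
        apply List.map_congr_left
        intro t ht
        obtain ⟨ht1, ht2⟩ := mem_segs ht
        have hg : Gen [o, s.1, s.2, t.1, t.2] := by
          have hsub : ∀ x ∈ [o, s.1, s.2, t.1, t.2], x ∈ (o :: l) ++ Q := by
            intro x hx
            simp only [List.mem_cons, List.not_mem_nil, or_false] at hx
            rw [List.mem_append]
            rcases hx with rfl | rfl | rfl | rfl | rfl
            · exact Or.inl List.mem_cons_self
            · exact Or.inl hs1
            · exact Or.inl hs2
            · exact Or.inr ht1
            · exact Or.inr ht2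
          intro a ha b hb c hc
          exact h a (hsub a ha) b (hsub b hb) c (hsub c hc)
        have hno : ∀ q ∈ Q, q ∉ [o, s.1, s.2] := by
          intro q hq hq2
          simp only [List.mem_cons, List.not_mem_nil, or_false] at hq2
          rcases hq2 with rfl | rfl | rfl
          · exact hd List.mem_cons_self hq
          · exact hd hs1 hq
          · exact hd hs2 hq
        have h5 := G2.five o s.1 s.2 t.1 t.2 hg (hno _ ht1) (hno _ ht2)
        have h6 := G2.cross_swap o s.2 t.1 t.2
        omega
      rw [h1, sum_sub, h0, add_zero, ← hH, ← hH]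
    have h2 : X (o :: l) Q = ((segs (o :: l)).map fun s => H s.2 - H s.1).sum := by
      unfold X
      congr 1
      apply List.map_congr_left
      intro s hs
      exact hmain s hs
    rw [h2]
    exact tele_closed H (o :: l) hP

end Pool.Agent.H891R2.KN.G3
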