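import Pool.Agent.H891R2.KN.Defs

set_option autoImplicit false

/-! KN4 (helper841): symmetry of crossings, crossings over and under. -/

namespace Pool.Agent.H891R2.KN.G4

open Pool.Agent.H891R2.KN

theorem area_id (a b c d : Pt) :
    area a b c - area a b d = area c d b - area c d a := by
  unfold area
  ring

theorem area_aa (a c : Pt) : area a a c = 0 := by
  unfold area
  ring

theorem orient_aa (a c : Pt) : orient a a c = 0 := by
  unfold orient
  simp [area_aa]

theorem orient_pos {a b c : Pt} (h : 0 < area a b c) : orient a b c = 1 := by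
  unfold orient
  simp [h]

theorem orient_neg {a b c : Pt} (h : area a b c < 0) : orient a b c = -1 := by
  unfold orient
  simp [h, not_lt.mpr h.le]

theorem areas_ne {a b c d : Pt} (h : Gen [a, b, c, d]) (ha : a ∉ [c, d]) (hb : b ∉ [c, d])
    (hab : a ≠ b) (hcd : c ≠ d) :
    area a b c ≠ 0 ∧ area a b d ≠ 0 ∧ area c d a ≠ 0 ∧ area c d b ≠ 0 := by
  simp only [List.mem_cons, List.not_mem_nil, or_false, not_or] at ha hb
  refine ⟨h a (by simp) b (by simp) c (by simp) hab ha.1 hb.1,
    h a (by simp) b (by simp) d (by simp) hab ha.2 hb.2,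
    h c (by simp) d (by simp) a (by simp) hcd (Ne.symm ha.1) (Ne.symm ha.2),
    h c (by simp) d (by simp) b (by simp) hcd (Ne.symm hb.1) (Ne.symm hb.2)⟩

/-- KN4 -/
theorem cross_comm (a b c d : Pt) (h : Gen [a, b, c, d]) (hab : a ∉ [c, d]) (hb : b ∉ [c, d]) :
    cross c d a b = - cross a b c d := by
  by_cases e1 : a = b
  · subst e1
    simp [cross, orient_aa]
  by_cases e2 : c = d
  · subst e2
    simp [cross, orient_aa]
  obtain ⟨h1, h2, h3, h4⟩ := areas_ne h hab hb e1 e2
  have hid := area_id a b c d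
  rcases lt_or_gt_of_ne h1 with k1 | k1 <;> rcases lt_or_gt_of_ne h2 with k2 | k2 <;>
    rcases lt_or_gt_of_ne h3 with k3 | k3 <;> rcases lt_or_gt_of_ne h4 with k4 | k4 <;>
    first
      | (exfalso; linarith)
      | simp [cross, k1, k2, k3, k4, orient_neg, orient_pos]

theorem seg_mem (a b x : Pt) : x ∈ segment ℝ a b ↔ ∃ s : ℝ, 0 ≤ s ∧ s ≤ 1 ∧
    x.1 = a.1 + s * (b.1 - a.1) ∧ x.2.1 = a.2.1 + s * (b.2.1 - a.2.1) ∧
    x.2.2 = a.2.2 + s * (b.2.2 - a.2.2) := by
  rw [segment_eq_image']
  constructor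
  · rintro ⟨s, hs, rfl⟩
    exact ⟨s, hs.1, hs.2, by simp, by simp, by simp⟩
  · rintro ⟨s, h0, h1, e1, e2, e3⟩
    refine ⟨s, ⟨h0, h1⟩, ?_⟩
    ext
    · simp [e1]
    · simp [e2]
    · simp [e3]

/-- the parameters of two points with the same projection -/
theorem param {a b c d : Pt} {s t : ℝ}
    (e1 : a.1 + s * (b.1 - a.1) = c.1 + t * (d.1 - c.1))
    (e2 : a.2.1 + s * (b.2.1 - a.2.1) = c.2.1 + t * (d.2.1 - c.2.1)) :
    s * (area c d a - area c d b) = area c d a ∧ t * (area a b c - area a b d) = area a b c := by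
  unfold area
  constructor
  · linear_combination (-(d.2.1 - c.2.1)) * e1 * (-1) + (-(d.1 - c.1)) * e2
  · linear_combination (-(b.2.1 - a.2.1)) * e1 + (b.1 - a.1) * e2

theorem over_dich (a b c d : Pt) (h : Gen [a, b, c, d]) (ha : a ∉ [c, d]) (hb : b ∉ [c, d])
    (hdis : Disjoint (segment ℝ a b) (segment ℝ c d)) (hc : cross a b c d ≠ 0) :
    (Over a b c d ∧ ¬ Over c d a b) ∨ (¬ Over a b c d ∧ Over c d a b) := by
  by_cases e1 : a = b
  · subst e1
    simp [cross, orient_aa] at hc
  by_cases e2 : c = d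
  · subst e2
    simp [cross, orient_aa] at hc
  obtain ⟨h1, h2, h3, h4⟩ := areas_ne h ha hb e1 e2
  have hid := area_id a b c d
  -- signs
  have hs12 : (area a b c < 0 ∧ 0 < area a b d ∧ 0 < area c d a ∧ area c d b < 0) ∨
      (0 < area a b c ∧ area a b d < 0 ∧ area c d a < 0 ∧ 0 < area c d b) := by
    rcases lt_or_gt_of_ne h1 with k1 | k1 <;> rcases lt_or_gt_of_ne h2 with k2 | k2 <;>
      rcases lt_or_gt_of_ne h3 with k3 | k3 <;> rcases lt_or_gt_of_ne h4 with k4 | k4 <;>
      first
        | (exfalso; linarith)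
        | exact Or.inl ⟨k1, k2, k3, k4⟩
        | exact Or.inr ⟨k1, k2, k3, k4⟩
        | (exfalso; apply hc; simp [cross, k1, k2, k3, k4, orient_neg, orient_pos])
  have hD : area c d a - area c d b ≠ 0 := by
    rcases hs12 with ⟨_, _, k3, k4⟩ | ⟨_, _, k3, k4⟩
    · exact ne_of_gt (by linarith)
    · exact ne_of_lt (by linarith)
  have hE : area a b c - area a b d ≠ 0 := by
    rcases hs12 with ⟨k3, k4, _, _⟩ | ⟨k3, k4, _, _⟩
    · exact ne_of_lt (by linarith)
    · exact ne_of_gt (by linarith)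
  set S : ℝ := area c d a / (area c d a - area c d b) with hS
  set T : ℝ := area a b c / (area a b c - area a b d) with hT
  have hS0 : 0 ≤ S ∧ S ≤ 1 := by
    rcases hs12 with ⟨_, _, k3, k4⟩ | ⟨_, _, k3, k4⟩
    · constructor
      · exact div_nonneg k3.le (by linarith)
      · rw [hS, div_le_one (by linarith)]; linarith
    · constructor
      · exact div_nonneg_of_nonpos k3.le (by linarith)
      · rw [hS, div_le_one_of_neg (by linarith)]; linarith
  have hT0 : 0 ≤ T ∧ T ≤ 1 := by
    rcases hs12 with ⟨k3, k4, _, _⟩ | ⟨k3, k4, _, _⟩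
    · constructor
      · exact div_nonneg_of_nonpos k3.le (by linarith)
      · rw [hT, div_le_one_of_neg (by linarith)]; linarith
    · constructor
      · exact div_nonneg k3.le (by linarith)
      · rw [hT, div_le_one (by linarith)]; linarith
  have hSe : S * (area c d a - area c d b) = area c d a := by
    rw [hS]; field_simp
  have hTe : T * (area a b c - area a b d) = area a b c := by
    rw [hT]; field_simp
  -- same projection
  have hP1 : a.1 + S * (b.1 - a.1) = c.1 + T * (d.1 - c.1) := by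
    have hD' : (area c d a - area c d b) ≠ 0 := hD
    have hED : area a b c - area a b d = -(area c d a - area c d b) := by linarith
    have e3 : T * (area c d a - area c d b) = - area a b c := by
      have := hTe
      rw [hED] at this
      linarith
    apply mul_right_cancel₀ hD'
    have : (a.1 + S * (b.1 - a.1)) * (area c d a - area c d b) =
        a.1 * (area c d a - area c d b) + (S * (area c d a - area c d b)) * (b.1 - a.1) := by ring
    rw [this, hSe]
    have : (c.1 + T * (d.1 - c.1)) * (area c d a - area c d b) =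
        c.1 * (area c d a - area c d b) + (T * (area c d a - area c d b)) * (d.1 - c.1) := by ring
    rw [this, e3]
    unfold area
    ring
  have hP2 : a.2.1 + S * (b.2.1 - a.2.1) = c.2.1 + T * (d.2.1 - c.2.1) := by
    have hD' : (area c d a - area c d b) ≠ 0 := hD
    have hED : area a b c - area a b d = -(area c d a - area c d b) := by linarith
    have e3 : T * (area c d a - area c d b) = - area a b c := by
      have := hTe
      rw [hED] at this
      linarith
    apply mul_right_cancel₀ hD'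
    have : (a.2.1 + S * (b.2.1 - a.2.1)) * (area c d a - area c d b) =
        a.2.1 * (area c d a - area c d b) +
          (S * (area c d a - area c d b)) * (b.2.1 - a.2.1) := by ring
    rw [this, hSe]
    have : (c.2.1 + T * (d.2.1 - c.2.1)) * (area c d a - area c d b) =
        c.2.1 * (area c d a - area c d b) +
          (T * (area c d a - area c d b)) * (d.2.1 - c.2.1) := by ring
    rw [this, e3]
    unfold area
    ring
  set X : Pt := (a.1 + S * (b.1 - a.1), a.2.1 + S * (b.2.1 - a.2.1),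
    a.2.2 + S * (b.2.2 - a.2.2)) with hX
  set Y : Pt := (c.1 + T * (d.1 - c.1), c.2.1 + T * (d.2.1 - c.2.1),
    c.2.2 + T * (d.2.2 - c.2.2)) with hY
  have hXm : X ∈ segment ℝ a b := (seg_mem a b X).2 ⟨S, hS0.1, hS0.2, rfl, rfl, rfl⟩
  have hYm : Y ∈ segment ℝ c d := (seg_mem c d Y).2 ⟨T, hT0.1, hT0.2, rfl, rfl, rfl⟩
  -- uniqueness
  have huniq : ∀ x ∈ segment ℝ a b, ∀ y ∈ segment ℝ c d, x.1 = y.1 → x.2.1 = y.2.1 →
      x.2.2 = X.2.2 ∧ y.2.2 = Y.2.2 := by
    intro x hx y hy e e'
    obtain ⟨s, _, _, x1, x2, x3⟩ := (seg_mem a b x).1 hx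
    obtain ⟨t, _, _, y1, y2, y3⟩ := (seg_mem c d y).1 hy
    obtain ⟨q1, q2⟩ := param (a := a) (b := b) (c := c) (d := d) (s := s) (t := t)
      (by rw [← x1, ← y1, e]) (by rw [← x2, ← y2, e'])
    have es : s = S := mul_right_cancel₀ hD (by rw [q1, hSe])
    have et : t = T := mul_right_cancel₀ hE (by rw [q2, hTe])
    constructor
    · rw [x3, es]
    · rw [y3, et]
  have hne : X.2.2 ≠ Y.2.2 := by
    intro he
    have hXY : X = Y := by
      apply Prod.ext
      · exact hP1
      · apply Prod.ext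
        · exact hP2
        · exact he
    exact Set.disjoint_left.1 hdis hXm (hXY ▸ hYm)
  rcases lt_or_gt_of_ne hne with hl | hl
  · right
    refine ⟨?_, Y, hYm, X, hXm, hP1.symm, hP2.symm, hl⟩
    rintro ⟨x, hx, y, hy, e, e', hlt⟩
    obtain ⟨u1, u2⟩ := huniq x hx y hy e e'
    rw [u1, u2] at hlt
    exact absurd hlt (not_lt.mpr hl.le)
  · left
    refine ⟨⟨X, hXm, Y, hYm, hP1, hP2, hl⟩, ?_⟩
    rintro ⟨y, hy, x, hx, e, e', hlt⟩
    obtain ⟨u1, u2⟩ := huniq x hx y hy e.symm e'.symm
    rw [u1, u2] at hlt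
    exact absurd hlt (not_lt.mpr (le_of_lt hl))

theorem sum_swap {α β : Type} (l₁ : List α) (l₂ : List β) (f : α → β → ℤ) :
    (l₁.map fun s => (l₂.map fun t => f s t).sum).sum =
      (l₂.map fun t => (l₁.map fun s => f s t).sum).sum := by
  induction l₁ with
  | nil => simp
  | cons a l ih =>
    simp only [List.map_cons, List.sum_cons, ih]
    rw [← List.sum_map_add]

theorem sum_sub₁ {α : Type} (l : List α) (f g k : α → ℤ) (h : ∀ s ∈ l, f s - g s = k s) :
    (l.map f).sum - (l.map g).sum = (l.map k).sum := by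
  induction l with
  | nil => simp
  | cons a l ih =>
    simp only [List.map_cons, List.sum_cons]
    have h1 := h a (by simp)
    have h2 := ih fun s hs => h s (by simp [hs])
    rw [← h1, ← h2]
    ring

theorem seg_mem_list (p : List Pt) (s : Pt × Pt) (hs : s ∈ segs p) : s.1 ∈ p ∧ s.2 ∈ p := by
  unfold segs at hs
  obtain ⟨h1, h2⟩ := List.of_mem_zip (a := s.1) (b := s.2) hs
  exact ⟨h1, List.mem_of_mem_tail h2⟩

theorem ov_sub (p q : List Pt) (h : Gen (p ++ q)) (hd : p.Disjoint q)
    (hs : ∀ s ∈ segs p, ∀ t ∈ segs q, Disjoint (segment ℝ s.1 s.2) (segment ℝ t.1 t.2)) :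
    ov p q - ov q p = X p q := by
  classical
  unfold ov X
  rw [sum_swap (segs q) (segs p)]
  apply sum_sub₁
  intro s hsm
  apply sum_sub₁
  intro t htm
  obtain ⟨s1, s2⟩ := seg_mem_list p s hsm
  obtain ⟨t1, t2⟩ := seg_mem_list q t htm
  have hG : Gen [s.1, s.2, t.1, t.2] := by
    intro a ha b hb c hc
    have hsub : ∀ z ∈ [s.1, s.2, t.1, t.2], z ∈ p ++ q := by
      intro z hz
      simp only [List.mem_cons, List.not_mem_nil, or_false] at hz
      rcases hz with rfl | rfl | rfl | rfl
      · exact List.mem_append_left _ s1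
      · exact List.mem_append_left _ s2
      · exact List.mem_append_right _ t1
      · exact List.mem_append_right _ t2
    exact h a (hsub a ha) b (hsub b hb) c (hsub c hc)
  have ha : s.1 ∉ [t.1, t.2] := by
    simp only [List.mem_cons, List.not_mem_nil, or_false, not_or]
    exact ⟨fun e => hd s1 (e ▸ t1), fun e => hd s1 (e ▸ t2)⟩
  have hb : s.2 ∉ [t.1, t.2] := by
    simp only [List.mem_cons, List.not_mem_nil, or_false, not_or]
    exact ⟨fun e => hd s2 (e ▸ t1), fun e => hd s2 (e ▸ t2)⟩
  have hcc := cross_comm s.1 s.2 t.1 t.2 hG ha hb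
  by_cases hz : cross s.1 s.2 t.1 t.2 = 0
  · rw [hcc, hz]
    simp
  · rcases over_dich s.1 s.2 t.1 t.2 hG ha hb (hs s hsm t htm) hz with ⟨o1, o2⟩ | ⟨o1, o2⟩
    · simp [o1, o2]
    · simp [o1, o2, hcc]

end Pool.Agent.H891R2.KN.G4
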