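import Pool.Agent.H891R2.KN.Defs

set_option autoImplicit false

/-! Task KN5: gluing of polygonal paths. -/

namespace Pool.Agent.H891R2.KN.G5

open Pool.Agent.H891R2.KN

theorem segs_glue (r : List Pt) (b : Pt) : ∀ p : List Pt, p.getLast? = some b →
    segs (p ++ r) = segs p ++ segs (b :: r)
  | [], h => by simp at h
  | [x], h => by
    have hx : x = b := by simpa using h
    subst hx
    simp [segs]
  | x :: y :: t, h => by
    have h' : (y :: t).getLast? = some b := by
      rw [List.getLast?_cons_cons] at h
      exact h
    have ih := segs_glue r b (y :: t) h'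
    have e1 : segs (x :: y :: t ++ r) = (x, y) :: segs (y :: t ++ r) := rfl
    have e2 : segs (x :: y :: t) = (x, y) :: segs (y :: t) := rfl
    rw [e1, e2, ih]
    rfl

theorem segs_glue' (p p' : List Pt) (b : Pt) (hp : p.getLast? = some b)
    (hp' : p'.head? = some b) : segs (p ++ p'.tail) = segs p ++ segs p' := by
  cases p' with
  | nil => simp at hp'
  | cons x r =>
    have hx : x = b := by simpa using hp'
    subst hx
    exact segs_glue r x p hp

/-- KN5 -/
theorem X_glue_left (p p' q : List Pt) (b : Pt) (hp : p.getLast? = some b)
    (hp' : p'.head? = some b) : X (p ++ p'.tail) q = X p q + X p' q := by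
  unfold X
  rw [segs_glue' p p' b hp hp', List.map_append, List.sum_append]

theorem X_glue_right (p p' q : List Pt) (b : Pt) (hp : p.getLast? = some b)
    (hp' : p'.head? = some b) : X q (p ++ p'.tail) = X q p + X q p' := by
  unfold X
  rw [segs_glue' p p' b hp hp']
  rw [← List.sum_map_add]
  congr 1
  apply List.map_congr_left
  intro s _
  rw [List.map_append, List.sum_append]

end Pool.Agent.H891R2.KN.G5
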