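import Pool.Agent.H891R2.KN.Defs

set_option autoImplicit false

/-! KN6: five points in the plane in general position. -/

namespace Pool.Agent.H891R2.KN.G6

/-- parity as a Boolean -/
def tb (t : ℤ) : Bool := decide (t % 2 = 1)

theorem tb_add (a b : ℤ) : tb (a + b) = (tb a ^^ tb b) := by
  unfold tb
  rcases Int.emod_two_eq_zero_or_one a with h | h <;>
  rcases Int.emod_two_eq_zero_or_one b with h' | h' <;>
  (have : (a + b) % 2 = (a % 2 + b % 2) % 2 := Int.add_emod a b 2
   rw [this, h, h']
   decide)

theorem tb_odd {t : ℤ} (h : tb t = true) : Odd t := by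
  unfold tb at h
  exact Int.odd_iff.2 (of_decide_eq_true h)

open Classical in
/-- sign as a Boolean -/
noncomputable def s (x : ℝ) : Bool := decide (0 < x)

theorem s_neg {x : ℝ} (h : x ≠ 0) : s (-x) = !(s x) := by
  unfold s
  rcases lt_or_gt_of_ne h with h | h
  · have h1 : 0 < -x := by linarith
    have h2 : ¬ 0 < x := by linarith
    simp [h1, h2]
  · have h1 : ¬ 0 < -x := by linarith
    simp [h, h.le]

theorem s_true {x : ℝ} (h : s x = true) : 0 < x := by
  unfold s at h
  exact of_decide_eq_true h

theorem s_false {x : ℝ} (hx : x ≠ 0) (h : s x = false) : x < 0 := by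
  unfold s at h
  have := of_decide_eq_false h
  exact lt_of_le_of_ne (not_lt.1 this) hx

/-- the parity of a crossing sign -/
def par (x1 x2 y1 y2 : Bool) : Bool := (x1 ^^ x2) && (y1 ^^ y2)

theorem orient_s {a b c : Pt} (h : area a b c ≠ 0) :
    orient a b c = if s (area a b c) then 1 else -1 := by
  unfold orient
  rcases lt_or_gt_of_ne h with h1 | h1
  · have h2 : ¬ 0 < area a b c := by linarith
    have h3 : s (area a b c) = false := by unfold s; simp [h2]
    rw [if_neg h2, if_pos h1, h3]
    rfl
  · have h3 : s (area a b c) = true := by unfold s; simp [h1]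
    rw [if_pos h1, h3]
    rfl

theorem cross_par {a b c d : Pt} (h1 : area a b c ≠ 0) (h2 : area a b d ≠ 0)
    (h3 : area c d a ≠ 0) (h4 : area c d b ≠ 0) :
    tb (cross a b c d) = par (s (area a b c)) (s (area a b d)) (s (area c d a)) (s (area c d b)) := by
  unfold cross
  rw [orient_s h1, orient_s h2, orient_s h3, orient_s h4]
  generalize s (area a b c) = x1
  generalize s (area a b d) = x2
  generalize s (area c d a) = y1
  generalize s (area c d b) = y2
  cases x1 <;> cases x2 <;> cases y1 <;> cases y2 <;> simp [par, tb]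

theorem area_rot (a b c : Pt) : area b c a = area a b c := by unfold area; ring
theorem area_rot' (a b c : Pt) : area c a b = area a b c := by unfold area; ring
theorem area_flip (a b c : Pt) : area a c b = - area a b c := by unfold area; ring

/-- first kind of condition -/
def c1 (s1 s2 s3 s4 : Bool) : Bool :=
  !((s1 && !s2 && s3 && !s4) || (!s1 && s2 && !s3 && s4))

theorem c1_ok {x1 x2 x3 x4 : ℝ} (h : x1 - x2 + x3 - x4 = 0) (n1 : x1 ≠ 0) (n2 : x2 ≠ 0)
    (n3 : x3 ≠ 0) (n4 : x4 ≠ 0) : c1 (s x1) (s x2) (s x3) (s x4) = true := by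
  cases e1 : s x1 <;> cases e2 : s x2 <;> cases e3 : s x3 <;> cases e4 : s x4 <;>
    first
    | rfl
    | (exfalso
       first
       | (have := s_true e1; have := s_false n2 e2; have := s_true e3; have := s_false n4 e4
          linarith)
       | (have := s_false n1 e1; have := s_true e2; have := s_false n3 e3; have := s_true e4
          linarith))

/-- second kind of condition -/
def c2 (s1 t1 s2 t2 s3 t3 : Bool) : Bool :=
  !((s1 == t1) && (s2 != t2) && (s3 == t3)) && !((s1 != t1) && (s2 == t2) && (s3 != t3))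

theorem s_mul {x y : ℝ} (hx : x ≠ 0) (hy : y ≠ 0) : s (x * y) = (s x == s y) := by
  cases e1 : s x <;> cases e2 : s y
  · have h1 := s_false hx e1
    have h2 := s_false hy e2
    have : 0 < x * y := mul_pos_of_neg_of_neg h1 h2
    simp [s, this]
  · have h1 := s_false hx e1
    have h2 := s_true e2
    have : ¬ 0 < x * y := not_lt.2 (mul_neg_of_neg_of_pos h1 h2).le
    simp [s, this]
  · have h1 := s_true e1
    have h2 := s_false hy e2
    have : ¬ 0 < x * y := not_lt.2 (mul_neg_of_pos_of_neg h1 h2).le
    simp [s, this]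
  · have h1 := s_true e1
    have h2 := s_true e2
    have : 0 < x * y := mul_pos h1 h2
    simp [s, this]

theorem c2_ok {x1 y1 x2 y2 x3 y3 : ℝ} (h : x1 * y1 - x2 * y2 + x3 * y3 = 0) (n1 : x1 ≠ 0)
    (m1 : y1 ≠ 0) (n2 : x2 ≠ 0) (m2 : y2 ≠ 0) (n3 : x3 ≠ 0) (m3 : y3 ≠ 0) :
    c2 (s x1) (s y1) (s x2) (s y2) (s x3) (s y3) = true := by
  have p1 := s_mul n1 m1
  have p2 := s_mul n2 m2
  have p3 := s_mul n3 m3
  have q1 := mul_ne_zero n1 m1
  have q2 := mul_ne_zero n2 m2
  have q3 := mul_ne_zero n3 m3
  have key : ¬ (s (x1 * y1) = true ∧ s (x2 * y2) = false ∧ s (x3 * y3) = true) ∧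
      ¬ (s (x1 * y1) = false ∧ s (x2 * y2) = true ∧ s (x3 * y3) = false) := by
    refine ⟨?_, ?_⟩
    · rintro ⟨a1, a2, a3⟩
      have := s_true a1
      have := s_false q2 a2
      have := s_true a3
      linarith
    · rintro ⟨a1, a2, a3⟩
      have := s_false q1 a1
      have := s_true a2
      have := s_false q3 a3
      linarith
  obtain ⟨k1, k2⟩ := key
  rw [p1, p2, p3] at k1 k2
  revert k1 k2
  generalize s x1 = u1
  generalize s y1 = v1
  generalize s x2 = u2
  generalize s y2 = v2
  generalize s x3 = u3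
  generalize s y3 = v3
  revert u1 v1 u2 v2 u3 v3
  decide

/-- the statement on ten signs -/
def fin (a012 a013 a014 a023 a024 a034 a123 a124 a134 a234 : Bool) : Bool :=
  !(c1 a123 a023 a013 a012 && c1 a124 a024 a014 a012 && c1 a134 a034 a014 a013 &&
    c1 a234 a034 a024 a023 && c1 a234 a134 a124 a123 &&
    c2 a012 a034 a013 a024 a014 a023 && c2 a012 a134 a013 a124 a014 a123 &&
    c2 a012 a234 a023 a124 a024 a123 && c2 a013 a234 a023 a134 a034 a123 &&
    c2 a014 a234 a024 a134 a034 a124) ||
  (par a012 a013 a023 a123 ^^ par a012 a014 a024 a124 ^^ par a013 a014 a034 a134 ^^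
    par (!a012) a023 a013 (!a123) ^^ par (!a012) a024 a014 (!a124) ^^ par a023 a024 a034 a234 ^^
    par (!a013) (!a023) a012 a123 ^^ par (!a013) a034 a014 (!a134) ^^
    par (!a023) a034 a024 (!a234) ^^ par (!a014) (!a024) a012 a124 ^^
    par (!a014) (!a034) a013 a134 ^^ par (!a024) (!a034) a023 a234 ^^ par a123 a124 a134 a234 ^^
    par (!a123) a134 a124 (!a234) ^^ par (!a124) (!a134) a123 a234)

theorem fin_ok : ∀ a012 a013 a014 a023 a024 a034 a123 a124 a134 a234 : Bool,
    fin a012 a013 a014 a023 a024 a034 a123 a124 a134 a234 = true := by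
  decide

theorem X_two (a b c d : Pt) : X [a, b] [c, d] = cross a b c d := by
  simp [X, segs]

theorem K5_straight (v : Fin 5 → Pt) (hv : Function.Injective v) (h : Gen (List.ofFn v)) :
    Odd (K5sum fun i j k l => X [v i, v j] [v k, v l]) := by
  have hne : ∀ i j k : Fin 5, i ≠ j → i ≠ k → j ≠ k → area (v i) (v j) (v k) ≠ 0 := by
    intro i j k hij hik hjk
    have hm : ∀ i : Fin 5, v i ∈ List.ofFn v := fun i => (List.mem_ofFn' v (v i)).2 ⟨i, rfl⟩
    exact h _ (hm i) _ (hm j) _ (hm k) (fun e => hij (hv e)) (fun e => hik (hv e))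
      (fun e => hjk (hv e))
  apply tb_odd
  unfold K5sum
  simp only [X_two, tb_add]
  rw [cross_par (hne 0 1 2 (by decide) (by decide) (by decide))
      (hne 0 1 3 (by decide) (by decide) (by decide)) (hne 2 3 0 (by decide) (by decide) (by decide))
      (hne 2 3 1 (by decide) (by decide) (by decide)),
    cross_par (hne 0 1 2 (by decide) (by decide) (by decide))
      (hne 0 1 4 (by decide) (by decide) (by decide)) (hne 2 4 0 (by decide) (by decide) (by decide))
      (hne 2 4 1 (by decide) (by decide) (by decide)),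
    cross_par (hne 0 1 3 (by decide) (by decide) (by decide))
      (hne 0 1 4 (by decide) (by decide) (by decide)) (hne 3 4 0 (by decide) (by decide) (by decide))
      (hne 3 4 1 (by decide) (by decide) (by decide)),
    cross_par (hne 0 2 1 (by decide) (by decide) (by decide))
      (hne 0 2 3 (by decide) (by decide) (by decide)) (hne 1 3 0 (by decide) (by decide) (by decide))
      (hne 1 3 2 (by decide) (by decide) (by decide)),
    cross_par (hne 0 2 1 (by decide) (by decide) (by decide))
      (hne 0 2 4 (by decide) (by decide) (by decide)) (hne 1 4 0 (by decide) (by decide) (by decide))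
      (hne 1 4 2 (by decide) (by decide) (by decide)),
    cross_par (hne 0 2 3 (by decide) (by decide) (by decide))
      (hne 0 2 4 (by decide) (by decide) (by decide)) (hne 3 4 0 (by decide) (by decide) (by decide))
      (hne 3 4 2 (by decide) (by decide) (by decide)),
    cross_par (hne 0 3 1 (by decide) (by decide) (by decide))
      (hne 0 3 2 (by decide) (by decide) (by decide)) (hne 1 2 0 (by decide) (by decide) (by decide))
      (hne 1 2 3 (by decide) (by decide) (by decide)),
    cross_par (hne 0 3 1 (by decide) (by decide) (by decide))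
      (hne 0 3 4 (by decide) (by decide) (by decide)) (hne 1 4 0 (by decide) (by decide) (by decide))
      (hne 1 4 3 (by decide) (by decide) (by decide)),
    cross_par (hne 0 3 2 (by decide) (by decide) (by decide))
      (hne 0 3 4 (by decide) (by decide) (by decide)) (hne 2 4 0 (by decide) (by decide) (by decide))
      (hne 2 4 3 (by decide) (by decide) (by decide)),
    cross_par (hne 0 4 1 (by decide) (by decide) (by decide))
      (hne 0 4 2 (by decide) (by decide) (by decide)) (hne 1 2 0 (by decide) (by decide) (by decide))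
      (hne 1 2 4 (by decide) (by decide) (by decide)),
    cross_par (hne 0 4 1 (by decide) (by decide) (by decide))
      (hne 0 4 3 (by decide) (by decide) (by decide)) (hne 1 3 0 (by decide) (by decide) (by decide))
      (hne 1 3 4 (by decide) (by decide) (by decide)),
    cross_par (hne 0 4 2 (by decide) (by decide) (by decide))
      (hne 0 4 3 (by decide) (by decide) (by decide)) (hne 2 3 0 (by decide) (by decide) (by decide))
      (hne 2 3 4 (by decide) (by decide) (by decide)),
    cross_par (hne 1 2 3 (by decide) (by decide) (by decide))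
      (hne 1 2 4 (by decide) (by decide) (by decide)) (hne 3 4 1 (by decide) (by decide) (by decide))
      (hne 3 4 2 (by decide) (by decide) (by decide)),
    cross_par (hne 1 3 2 (by decide) (by decide) (by decide))
      (hne 1 3 4 (by decide) (by decide) (by decide)) (hne 2 4 1 (by decide) (by decide) (by decide))
      (hne 2 4 3 (by decide) (by decide) (by decide)),
    cross_par (hne 1 4 2 (by decide) (by decide) (by decide))
      (hne 1 4 3 (by decide) (by decide) (by decide)) (hne 2 3 1 (by decide) (by decide) (by decide))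
      (hne 2 3 4 (by decide) (by decide) (by decide))]
  rw [area_rot (v 0) (v 2) (v 3), area_rot (v 1) (v 2) (v 3), area_rot (v 0) (v 2) (v 4),
    area_rot (v 1) (v 2) (v 4), area_rot (v 0) (v 3) (v 4), area_rot (v 1) (v 3) (v 4),
    area_flip (v 0) (v 1) (v 2), area_rot (v 0) (v 1) (v 3), area_flip (v 1) (v 2) (v 3),
    area_rot (v 0) (v 1) (v 4), area_flip (v 1) (v 2) (v 4), area_rot (v 2) (v 3) (v 4),
    area_flip (v 0) (v 1) (v 3), area_flip (v 0) (v 2) (v 3), area_rot (v 0) (v 1) (v 2),
    area_flip (v 1) (v 3) (v 4), area_flip (v 2) (v 3) (v 4), area_flip (v 0) (v 1) (v 4),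
    area_flip (v 0) (v 2) (v 4), area_flip (v 0) (v 3) (v 4)]
  have n012 := hne 0 1 2 (by decide) (by decide) (by decide)
  have n013 := hne 0 1 3 (by decide) (by decide) (by decide)
  have n014 := hne 0 1 4 (by decide) (by decide) (by decide)
  have n023 := hne 0 2 3 (by decide) (by decide) (by decide)
  have n024 := hne 0 2 4 (by decide) (by decide) (by decide)
  have n034 := hne 0 3 4 (by decide) (by decide) (by decide)
  have n123 := hne 1 2 3 (by decide) (by decide) (by decide)
  have n124 := hne 1 2 4 (by decide) (by decide) (by decide)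
  have n134 := hne 1 3 4 (by decide) (by decide) (by decide)
  have n234 := hne 2 3 4 (by decide) (by decide) (by decide)
  rw [s_neg n012, s_neg n013, s_neg n014, s_neg n023, s_neg n024, s_neg n034, s_neg n123,
    s_neg n124, s_neg n134, s_neg n234]
  have k1 : c1 (s (area (v 1) (v 2) (v 3))) (s (area (v 0) (v 2) (v 3)))
      (s (area (v 0) (v 1) (v 3))) (s (area (v 0) (v 1) (v 2))) = true :=
    c1_ok (by unfold area; ring) n123 n023 n013 n012
  have k2 : c1 (s (area (v 1) (v 2) (v 4))) (s (area (v 0) (v 2) (v 4)))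
      (s (area (v 0) (v 1) (v 4))) (s (area (v 0) (v 1) (v 2))) = true :=
    c1_ok (by unfold area; ring) n124 n024 n014 n012
  have k3 : c1 (s (area (v 1) (v 3) (v 4))) (s (area (v 0) (v 3) (v 4)))
      (s (area (v 0) (v 1) (v 4))) (s (area (v 0) (v 1) (v 3))) = true :=
    c1_ok (by unfold area; ring) n134 n034 n014 n013
  have k4 : c1 (s (area (v 2) (v 3) (v 4))) (s (area (v 0) (v 3) (v 4)))
      (s (area (v 0) (v 2) (v 4))) (s (area (v 0) (v 2) (v 3))) = true :=
    c1_ok (by unfold area; ring) n234 n034 n024 n023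
  have k5 : c1 (s (area (v 2) (v 3) (v 4))) (s (area (v 1) (v 3) (v 4)))
      (s (area (v 1) (v 2) (v 4))) (s (area (v 1) (v 2) (v 3))) = true :=
    c1_ok (by unfold area; ring) n234 n134 n124 n123
  have m1 : c2 (s (area (v 0) (v 1) (v 2))) (s (area (v 0) (v 3) (v 4)))
      (s (area (v 0) (v 1) (v 3))) (s (area (v 0) (v 2) (v 4)))
      (s (area (v 0) (v 1) (v 4))) (s (area (v 0) (v 2) (v 3))) = true :=
    c2_ok (by unfold area; ring) n012 n034 n013 n024 n014 n023
  have m2 : c2 (s (area (v 0) (v 1) (v 2))) (s (area (v 1) (v 3) (v 4)))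
      (s (area (v 0) (v 1) (v 3))) (s (area (v 1) (v 2) (v 4)))
      (s (area (v 0) (v 1) (v 4))) (s (area (v 1) (v 2) (v 3))) = true :=
    c2_ok (by unfold area; ring) n012 n134 n013 n124 n014 n123
  have m3 : c2 (s (area (v 0) (v 1) (v 2))) (s (area (v 2) (v 3) (v 4)))
      (s (area (v 0) (v 2) (v 3))) (s (area (v 1) (v 2) (v 4)))
      (s (area (v 0) (v 2) (v 4))) (s (area (v 1) (v 2) (v 3))) = true :=
    c2_ok (by unfold area; ring) n012 n234 n023 n124 n024 n123
  have m4 : c2 (s (area (v 0) (v 1) (v 3))) (s (area (v 2) (v 3) (v 4)))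
      (s (area (v 0) (v 2) (v 3))) (s (area (v 1) (v 3) (v 4)))
      (s (area (v 0) (v 3) (v 4))) (s (area (v 1) (v 2) (v 3))) = true :=
    c2_ok (by unfold area; ring) n013 n234 n023 n134 n034 n123
  have m5 : c2 (s (area (v 0) (v 1) (v 4))) (s (area (v 2) (v 3) (v 4)))
      (s (area (v 0) (v 2) (v 4))) (s (area (v 1) (v 3) (v 4)))
      (s (area (v 0) (v 3) (v 4))) (s (area (v 1) (v 2) (v 4))) = true :=
    c2_ok (by unfold area; ring) n014 n234 n024 n134 n034 n124
  have key := fin_ok (s (area (v 0) (v 1) (v 2))) (s (area (v 0) (v 1) (v 3)))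
    (s (area (v 0) (v 1) (v 4))) (s (area (v 0) (v 2) (v 3))) (s (area (v 0) (v 2) (v 4)))
    (s (area (v 0) (v 3) (v 4))) (s (area (v 1) (v 2) (v 3))) (s (area (v 1) (v 2) (v 4)))
    (s (area (v 1) (v 3) (v 4))) (s (area (v 2) (v 3) (v 4)))
  unfold fin at key
  rw [k1, k2, k3, k4, k5, m1, m2, m3, m4, m5] at key
  simpa only [Bool.and_self, Bool.not_true, Bool.false_or] using key

end Pool.Agent.H891R2.KN.G6
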