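import Pool.Agent.H891R2.KN.Defs

set_option autoImplicit false

/-! Task KN7 (helper329): parity of the crossings of a complete graph with five vertices. -/

namespace Pool.Agent.H891R2.KN.G7

open Pool.Agent.H891R2.KN

/-- admissible systems of paths -/
structure Adm (v : Fin 5 → Pt) (L : List Pt) (p : Fin 5 → Fin 5 → List Pt) : Prop where
  hp : ∀ i j, i ≠ j → Path (v i) (v j) (p i j)
  hr : ∀ i j, p j i = (p i j).reverse
  hpL : ∀ i j, i ≠ j → ∀ x ∈ p i j, x ∈ L
  hd : ∀ i j k l, [i, j, k, l].Nodup → (p i j).Disjoint (p k l)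

/-- the statement of `X_reverse_right` -/
def HRev : Prop := ∀ (p q : List Pt) (_h : Gen (p ++ q)) (_hd : p.Disjoint q),
    X p q.reverse = - X p q

/-- the statement of `X_reverse_left` -/
def HRevL : Prop := ∀ (p q : List Pt) (_h : Gen (p ++ q)) (_hd : p.Disjoint q),
    X p.reverse q = - X p q

/-- the statement of `X_closed` -/
def HClo : Prop := ∀ (P Q : List Pt) (_hP : P.head? = P.getLast?) (_hQ : Q.head? = Q.getLast?)
    (_hd : P.Disjoint Q) (_h : Gen (P ++ Q)), X P Q = 0

/-- the statement of `cross_comm` -/
def HCom : Prop := ∀ (a b c d : Pt) (_h : Gen [a, b, c, d]) (_hab : a ∉ [c, d])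
    (_hb : b ∉ [c, d]), cross c d a b = - cross a b c d

/-- the statement of `X_glue_left` -/
def HGlL : Prop := ∀ (p p' q : List Pt) (b : Pt) (_hp : p.getLast? = some b)
    (_hp' : p'.head? = some b), X (p ++ p'.tail) q = X p q + X p' q

/-- the statement of `X_glue_right` -/
def HGlR : Prop := ∀ (p p' q : List Pt) (b : Pt) (_hp : p.getLast? = some b)
    (_hp' : p'.head? = some b), X q (p ++ p'.tail) = X q p + X q p'

theorem swap (A B : List (Pt × Pt)) (f : Pt × Pt → Pt × Pt → ℤ) :
    (A.map fun s => (B.map fun t => f s t).sum).sum =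
      (B.map fun t => (A.map fun s => f s t).sum).sum := by
  induction A with
  | nil => simp
  | cons a A ih =>
    simp only [List.map_cons, List.sum_cons, ih]
    rw [← List.sum_map_add]

theorem mem_segs {p : List Pt} {s : Pt × Pt} (h : s ∈ segs p) : s.1 ∈ p ∧ s.2 ∈ p := by
  unfold segs at h
  have h1 := List.of_mem_zip (a := s.1) (b := s.2) h
  exact ⟨h1.1, List.mem_of_mem_tail h1.2⟩

theorem gen_of {l l' : List Pt} (h : Gen l) (hs : ∀ x ∈ l', x ∈ l) : Gen l' :=
  fun a ha b hb c hc => h a (hs a ha) b (hs b hb) c (hs c hc)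

theorem X_comm (hC : HCom) (p q : List Pt) (h : Gen (p ++ q)) (hd : p.Disjoint q) :
    X q p = - X p q := by
  unfold X
  rw [swap (segs q) (segs p)]
  have h1 : ∀ A B : List (Pt × Pt), (∀ s ∈ A, ∀ t ∈ B, cross t.1 t.2 s.1 s.2 =
      - cross s.1 s.2 t.1 t.2) →
      (A.map fun s => (B.map fun t => cross t.1 t.2 s.1 s.2).sum).sum =
        - (A.map fun s => (B.map fun t => cross s.1 s.2 t.1 t.2).sum).sum := by
    intro A B hAB
    induction A with
    | nil => simp
    | cons a A ih =>
      simp only [List.map_cons, List.sum_cons]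
      rw [ih fun s hs => hAB s (List.mem_cons_of_mem _ hs)]
      have h2 : ∀ C : List (Pt × Pt), (∀ t ∈ C, t ∈ B) →
          (C.map fun t => cross t.1 t.2 a.1 a.2).sum =
          - (C.map fun t => cross a.1 a.2 t.1 t.2).sum := by
        intro C hCB
        induction C with
        | nil => simp
        | cons c C ihC =>
          simp only [List.map_cons, List.sum_cons]
          rw [ihC fun t ht => hCB t (List.mem_cons_of_mem _ ht),
            hAB a List.mem_cons_self c (hCB c List.mem_cons_self)]
          ring
      rw [h2 B fun t ht => ht]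
      ring
  apply h1
  intro s hs t ht
  obtain ⟨hs1, hs2⟩ := mem_segs hs
  obtain ⟨ht1, ht2⟩ := mem_segs ht
  apply hC
  · apply gen_of h
    intro x hx
    simp only [List.mem_cons, List.not_mem_nil, or_false] at hx
    rw [List.mem_append]
    rcases hx with rfl | rfl | rfl | rfl
    · exact Or.inl hs1
    · exact Or.inl hs2
    · exact Or.inr ht1
    · exact Or.inr ht2
  · simp only [List.mem_cons, List.not_mem_nil, or_false, not_or]
    exact ⟨fun e => hd hs1 (e ▸ ht1), fun e => hd hs1 (e ▸ ht2)⟩
  · simp only [List.mem_cons, List.not_mem_nil, or_false, not_or]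
    exact ⟨fun e => hd hs2 (e ▸ ht1), fun e => hd hs2 (e ▸ ht2)⟩

section paths

variable {v : Fin 5 → Pt} {L : List Pt} {p p' : Fin 5 → Fin 5 → List Pt}

theorem Adm.ne12 {i j k l : Fin 5} (h : [i, j, k, l].Nodup) : i ≠ j := by
  simp only [List.nodup_cons, List.mem_cons, List.not_mem_nil, or_false, not_or] at h
  exact h.1.1

theorem Adm.ne34 {i j k l : Fin 5} (h : [i, j, k, l].Nodup) : k ≠ l := by
  simp only [List.nodup_cons, List.mem_cons, List.not_mem_nil, or_false, not_or] at h
  exact h.2.2.1

theorem Adm.gen (h : Adm v L p) (hL : Gen L) {i j k l : Fin 5} (hn : [i, j, k, l].Nodup) :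
    Gen (p i j ++ p k l) := by
  apply gen_of hL
  intro x hx
  rw [List.mem_append] at hx
  rcases hx with hx | hx
  · exact h.hpL i j (Adm.ne12 hn) x hx
  · exact h.hpL k l (Adm.ne34 hn) x hx

theorem Adm.comm (hC : HCom) (h : Adm v L p) (hL : Gen L) {i j k l : Fin 5}
    (hn : [i, j, k, l].Nodup) : X (p k l) (p i j) = - X (p i j) (p k l) :=
  X_comm hC _ _ (h.gen hL hn) (h.hd i j k l hn)

theorem Adm.rev (hR : HRev) (h : Adm v L p) (hL : Gen L) {i j k l : Fin 5}
    (hn : [i, j, k, l].Nodup) : X (p i j) (p l k) = - X (p i j) (p k l) := by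
  rw [h.hr k l]
  exact hR _ _ (h.gen hL hn) (h.hd i j k l hn)

theorem Adm.revL (hR : HRevL) (h : Adm v L p) (hL : Gen L) {i j k l : Fin 5}
    (hn : [i, j, k, l].Nodup) : X (p j i) (p k l) = - X (p i j) (p k l) := by
  rw [h.hr i j]
  exact hR _ _ (h.gen hL hn) (h.hd i j k l hn)

theorem Adm.head (h : Adm v L p) {i j : Fin 5} (hij : i ≠ j) : (p i j).head? = some (v i) := by
  obtain ⟨l, hl⟩ := h.hp i j hij
  rw [hl]
  rfl

theorem Adm.last (h : Adm v L p) {i j : Fin 5} (hij : i ≠ j) : (p i j).getLast? = some (v j) := by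
  obtain ⟨l, hl⟩ := h.hp i j hij
  rw [hl, ← List.cons_append, List.getLast?_append]
  simp

theorem Adm.lastt (h : Adm v L p) {i j : Fin 5} (hij : i ≠ j) (q : List Pt) :
    (q ++ (p i j).tail).getLast? = some (v j) := by
  obtain ⟨l, hl⟩ := h.hp i j hij
  rw [hl, List.tail_cons, ← List.append_assoc, List.getLast?_append]
  simp

theorem Adm.headt (h : Adm v L p) {i j : Fin 5} (hij : i ≠ j) (q : List Pt) :
    (p i j ++ q).head? = some (v i) := by
  obtain ⟨l, hl⟩ := h.hp i j hij
  rw [hl]
  rfl

/-- change of one edge -/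
theorem tri_rel (hR : HRev) (hRL : HRevL) (hK : HClo) (hGL : HGlL) (hGR : HGlR)
    (h : Adm v L p) (h' : Adm v L p') (hL : Gen L)
    (i j k l m : Fin 5) (hn : [i, j, k, l, m].Nodup) (hkl : p' k l = p k l) (hlm : p' l m = p l m)
    (hkm : p' k m = p k m) :
    X (p i j) (p k l) + X (p i j) (p l m) - X (p i j) (p k m) =
      X (p' i j) (p' k l) + X (p' i j) (p' l m) - X (p' i j) (p' k m) := by
  simp only [List.nodup_cons, List.mem_cons, List.not_mem_nil, or_false, not_or, not_false_eq_true,
    List.nodup_nil, and_true] at hn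
  obtain ⟨⟨hij, hik, hil, him⟩, ⟨hjk, hjl, hjm⟩, ⟨hkl', hkm'⟩, hlm'⟩ := hn
  have n1 : [i, j, k, l].Nodup := by simp [hij, hik, hil, hjk, hjl, hkl']
  have n2 : [i, j, l, m].Nodup := by simp [hij, hil, him, hjl, hjm, hlm']
  have n3 : [i, j, k, m].Nodup := by simp [hij, hik, him, hjk, hjm, hkm']
  have n3' : [i, j, m, k].Nodup := by
    simp [hij, hik, him, hjk, hjm, Ne.symm hkm']
  have hmk : p' m k = p m k := by rw [h'.hr k m, h.hr k m, hkm]
  have n1' : [j, i, k, l].Nodup := by simp [Ne.symm hij, hik, hil, hjk, hjl, hkl']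
  have n2' : [j, i, l, m].Nodup := by simp [Ne.symm hij, hil, him, hjl, hjm, hlm']
  have n3'' : [j, i, m, k].Nodup := by
    simp [Ne.symm hij, hik, him, hjk, hjm, Ne.symm hkm']
  obtain ⟨Q, hQ⟩ : ∃ Q : List Pt, Q = (p k l ++ (p l m).tail) ++ (p m k).tail := ⟨_, rfl⟩
  obtain ⟨P, hP⟩ : ∃ P : List Pt, P = p i j ++ (p' j i).tail := ⟨_, rfl⟩
  have hQX : ∀ q, X q Q = X q (p k l) + X q (p l m) + X q (p m k) := by
    intro q
    rw [hQ, hGR _ (p m k) q (v m) (h.lastt hlm' _) (h.head (Ne.symm hkm')),
      hGR _ (p l m) q (v l) (h.last hkl') (h.head hlm')]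
  have hPX : X P Q = X (p i j) Q + X (p' j i) Q := by
    rw [hP, hGL _ (p' j i) Q (v j) (h.last hij) (h'.head (Ne.symm hij))]
  have hPmem : ∀ x ∈ P, x ∈ p i j ∨ x ∈ p' j i := by
    intro x hx
    rw [hP, List.mem_append] at hx
    exact hx.imp id List.mem_of_mem_tail
  have hQmem : ∀ x ∈ Q, x ∈ p k l ∨ x ∈ p l m ∨ x ∈ p m k := by
    intro x hx
    rw [hQ, List.mem_append, List.mem_append] at hx
    rcases hx with (hx | hx) | hx
    · exact Or.inl hx
    · exact Or.inr (Or.inl (List.mem_of_mem_tail hx))
    · exact Or.inr (Or.inr (List.mem_of_mem_tail hx))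
  have hdis : P.Disjoint Q := by
    intro x hx hx'
    rcases hPmem x hx with h1 | h1 <;> rcases hQmem x hx' with h2 | h2 | h2
    · exact h.hd i j k l n1 h1 h2
    · exact h.hd i j l m n2 h1 h2
    · exact h.hd i j m k n3' h1 h2
    · exact h'.hd j i k l n1' h1 (hkl ▸ h2)
    · exact h'.hd j i l m n2' h1 (hlm ▸ h2)
    · exact h'.hd j i m k n3'' h1 (hmk ▸ h2)
  have hgen : Gen (P ++ Q) := by
    apply gen_of hL
    intro x hx
    rw [List.mem_append] at hx
    rcases hx with hx | hx
    · rcases hPmem x hx with h1 | h1
      · exact h.hpL i j hij x h1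
      · exact h'.hpL j i (Ne.symm hij) x h1
    · rcases hQmem x hx with h1 | h1 | h1
      · exact h.hpL k l hkl' x h1
      · exact h.hpL l m hlm' x h1
      · exact h.hpL m k (Ne.symm hkm') x h1
  have h0 : X P Q = 0 := by
    apply hK P Q _ _ hdis hgen
    · rw [hP, h.headt hij, h'.lastt (Ne.symm hij)]
    · rw [hQ, h.lastt (Ne.symm hkm'), List.append_assoc, h.headt hkl']
  rw [hPX, hQX, hQX] at h0
  have r1 := h.rev hR hL n3
  rw [← hkl, ← hlm, ← hmk] at h0
  have r2 := h'.revL hRL hL n1
  have r3 := h'.revL hRL hL n2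
  have r4 := h'.revL hRL hL n3'
  have r5 := h'.rev hR hL n3
  have e1 : X (p i j) (p' k l) = X (p i j) (p k l) := by rw [hkl]
  have e2 : X (p i j) (p' l m) = X (p i j) (p l m) := by rw [hlm]
  have e3 : X (p i j) (p' m k) = X (p i j) (p m k) := by rw [hmk]
  rw [e1, e2, e3, r2, r3, r4, r5, r1] at h0
  linarith

/-- parity does not change when one edge is changed -/
theorem step (hR : HRev) (hRL : HRevL) (hK : HClo) (hC : HCom) (hGL : HGlL) (hGR : HGlR)
    (h : Adm v L p) (h' : Adm v L p') (hL : Gen L) (i j : Fin 5) (hij : i < j)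
    (hoff : ∀ a b, (a, b) ≠ (i, j) → (b, a) ≠ (i, j) → p' a b = p a b) :
    (K5sum fun i j k l => X (p i j) (p k l)) % 2 = (K5sum fun i j k l => X (p' i j) (p' k l)) % 2 := by
  have same : ∀ a b c d, (a, b) ≠ (i, j) → (b, a) ≠ (i, j) → (c, d) ≠ (i, j) → (d, c) ≠ (i, j) →
      X (p' a b) (p' c d) = X (p a b) (p c d) := by
    intro a b c d h1 h2 h3 h4
    rw [hoff a b h1 h2, hoff c d h3 h4]
  have T := tri_rel hR hRL hK hGL hGR h h' hL i j
  simp only [K5sum]
  have hcases : (i = 0 ∧ j = 1) ∨ (i = 0 ∧ j = 2) ∨ (i = 0 ∧ j = 3) ∨ (i = 0 ∧ j = 4) ∨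
      (i = 1 ∧ j = 2) ∨ (i = 1 ∧ j = 3) ∨ (i = 1 ∧ j = 4) ∨ (i = 2 ∧ j = 3) ∨ (i = 2 ∧ j = 4) ∨
      (i = 3 ∧ j = 4) := by
    revert hij
    clear T same hoff
    revert i j
    decide
  rcases hcases with ⟨rfl, rfl⟩ | ⟨rfl, rfl⟩ | ⟨rfl, rfl⟩ | ⟨rfl, rfl⟩ | ⟨rfl, rfl⟩ | ⟨rfl, rfl⟩ | ⟨rfl, rfl⟩ | ⟨rfl, rfl⟩ | ⟨rfl, rfl⟩ | ⟨rfl, rfl⟩
  · have t := T 2 3 4 (by decide) (hoff 2 3 (by decide) (by decide)) (hoff 3 4 (by decide) (by decide)) (hoff 2 4 (by decide) (by decide))
    have s1 := same 0 2 1 3 (by decide) (by decide) (by decide) (by decide)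
    have s2 := same 0 2 1 4 (by decide) (by decide) (by decide) (by decide)
    have s3 := same 0 2 3 4 (by decide) (by decide) (by decide) (by decide)
    have s4 := same 0 3 1 2 (by decide) (by decide) (by decide) (by decide)
    have s5 := same 0 3 1 4 (by decide) (by decide) (by decide) (by decide)
    have s6 := same 0 3 2 4 (by decide) (by decide) (by decide) (by decide)
    have s7 := same 0 4 1 2 (by decide) (by decide) (by decide) (by decide)
    have s8 := same 0 4 1 3 (by decide) (by decide) (by decide) (by decide)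
    have s9 := same 0 4 2 3 (by decide) (by decide) (by decide) (by decide)
    have s10 := same 1 2 3 4 (by decide) (by decide) (by decide) (by decide)
    have s11 := same 1 3 2 4 (by decide) (by decide) (by decide) (by decide)
    have s12 := same 1 4 2 3 (by decide) (by decide) (by decide) (by decide)
    omega
  · have t := T 1 3 4 (by decide) (hoff 1 3 (by decide) (by decide)) (hoff 3 4 (by decide) (by decide)) (hoff 1 4 (by decide) (by decide))
    have s1 := same 0 1 2 3 (by decide) (by decide) (by decide) (by decide)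
    have s2 := same 0 1 2 4 (by decide) (by decide) (by decide) (by decide)
    have s3 := same 0 1 3 4 (by decide) (by decide) (by decide) (by decide)
    have s4 := same 0 3 1 2 (by decide) (by decide) (by decide) (by decide)
    have s5 := same 0 3 1 4 (by decide) (by decide) (by decide) (by decide)
    have s6 := same 0 3 2 4 (by decide) (by decide) (by decide) (by decide)
    have s7 := same 0 4 1 2 (by decide) (by decide) (by decide) (by decide)
    have s8 := same 0 4 1 3 (by decide) (by decide) (by decide) (by decide)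
    have s9 := same 0 4 2 3 (by decide) (by decide) (by decide) (by decide)
    have s10 := same 1 2 3 4 (by decide) (by decide) (by decide) (by decide)
    have s11 := same 1 3 2 4 (by decide) (by decide) (by decide) (by decide)
    have s12 := same 1 4 2 3 (by decide) (by decide) (by decide) (by decide)
    omega
  · have t := T 1 2 4 (by decide) (hoff 1 2 (by decide) (by decide)) (hoff 2 4 (by decide) (by decide)) (hoff 1 4 (by decide) (by decide))
    have s1 := same 0 1 2 3 (by decide) (by decide) (by decide) (by decide)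
    have s2 := same 0 1 2 4 (by decide) (by decide) (by decide) (by decide)
    have s3 := same 0 1 3 4 (by decide) (by decide) (by decide) (by decide)
    have s4 := same 0 2 1 3 (by decide) (by decide) (by decide) (by decide)
    have s5 := same 0 2 1 4 (by decide) (by decide) (by decide) (by decide)
    have s6 := same 0 2 3 4 (by decide) (by decide) (by decide) (by decide)
    have s7 := same 0 4 1 2 (by decide) (by decide) (by decide) (by decide)
    have s8 := same 0 4 1 3 (by decide) (by decide) (by decide) (by decide)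
    have s9 := same 0 4 2 3 (by decide) (by decide) (by decide) (by decide)
    have s10 := same 1 2 3 4 (by decide) (by decide) (by decide) (by decide)
    have s11 := same 1 3 2 4 (by decide) (by decide) (by decide) (by decide)
    have s12 := same 1 4 2 3 (by decide) (by decide) (by decide) (by decide)
    omega
  · have t := T 1 2 3 (by decide) (hoff 1 2 (by decide) (by decide)) (hoff 2 3 (by decide) (by decide)) (hoff 1 3 (by decide) (by decide))
    have s1 := same 0 1 2 3 (by decide) (by decide) (by decide) (by decide)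
    have s2 := same 0 1 2 4 (by decide) (by decide) (by decide) (by decide)
    have s3 := same 0 1 3 4 (by decide) (by decide) (by decide) (by decide)
    have s4 := same 0 2 1 3 (by decide) (by decide) (by decide) (by decide)
    have s5 := same 0 2 1 4 (by decide) (by decide) (by decide) (by decide)
    have s6 := same 0 2 3 4 (by decide) (by decide) (by decide) (by decide)
    have s7 := same 0 3 1 2 (by decide) (by decide) (by decide) (by decide)
    have s8 := same 0 3 1 4 (by decide) (by decide) (by decide) (by decide)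
    have s9 := same 0 3 2 4 (by decide) (by decide) (by decide) (by decide)
    have s10 := same 1 2 3 4 (by decide) (by decide) (by decide) (by decide)
    have s11 := same 1 3 2 4 (by decide) (by decide) (by decide) (by decide)
    have s12 := same 1 4 2 3 (by decide) (by decide) (by decide) (by decide)
    omega
  · have t := T 0 3 4 (by decide) (hoff 0 3 (by decide) (by decide)) (hoff 3 4 (by decide) (by decide)) (hoff 0 4 (by decide) (by decide))
    have s1 := same 0 1 2 3 (by decide) (by decide) (by decide) (by decide)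
    have s2 := same 0 1 2 4 (by decide) (by decide) (by decide) (by decide)
    have s3 := same 0 1 3 4 (by decide) (by decide) (by decide) (by decide)
    have s4 := same 0 2 1 3 (by decide) (by decide) (by decide) (by decide)
    have s5 := same 0 2 1 4 (by decide) (by decide) (by decide) (by decide)
    have s6 := same 0 2 3 4 (by decide) (by decide) (by decide) (by decide)
    have c7 := h.comm hC hL (i := 1) (j := 2) (k := 0) (l := 3) (by decide)
    have d7 := h'.comm hC hL (i := 1) (j := 2) (k := 0) (l := 3) (by decide)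
    have s8 := same 0 3 1 4 (by decide) (by decide) (by decide) (by decide)
    have s9 := same 0 3 2 4 (by decide) (by decide) (by decide) (by decide)
    have c10 := h.comm hC hL (i := 1) (j := 2) (k := 0) (l := 4) (by decide)
    have d10 := h'.comm hC hL (i := 1) (j := 2) (k := 0) (l := 4) (by decide)
    have s11 := same 0 4 1 3 (by decide) (by decide) (by decide) (by decide)
    have s12 := same 0 4 2 3 (by decide) (by decide) (by decide) (by decide)
    have s13 := same 1 3 2 4 (by decide) (by decide) (by decide) (by decide)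
    have s14 := same 1 4 2 3 (by decide) (by decide) (by decide) (by decide)
    omega
  · have t := T 0 2 4 (by decide) (hoff 0 2 (by decide) (by decide)) (hoff 2 4 (by decide) (by decide)) (hoff 0 4 (by decide) (by decide))
    have s1 := same 0 1 2 3 (by decide) (by decide) (by decide) (by decide)
    have s2 := same 0 1 2 4 (by decide) (by decide) (by decide) (by decide)
    have s3 := same 0 1 3 4 (by decide) (by decide) (by decide) (by decide)
    have c4 := h.comm hC hL (i := 1) (j := 3) (k := 0) (l := 2) (by decide)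
    have d4 := h'.comm hC hL (i := 1) (j := 3) (k := 0) (l := 2) (by decide)
    have s5 := same 0 2 1 4 (by decide) (by decide) (by decide) (by decide)
    have s6 := same 0 2 3 4 (by decide) (by decide) (by decide) (by decide)
    have s7 := same 0 3 1 2 (by decide) (by decide) (by decide) (by decide)
    have s8 := same 0 3 1 4 (by decide) (by decide) (by decide) (by decide)
    have s9 := same 0 3 2 4 (by decide) (by decide) (by decide) (by decide)
    have s10 := same 0 4 1 2 (by decide) (by decide) (by decide) (by decide)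
    have c11 := h.comm hC hL (i := 1) (j := 3) (k := 0) (l := 4) (by decide)
    have d11 := h'.comm hC hL (i := 1) (j := 3) (k := 0) (l := 4) (by decide)
    have s12 := same 0 4 2 3 (by decide) (by decide) (by decide) (by decide)
    have s13 := same 1 2 3 4 (by decide) (by decide) (by decide) (by decide)
    have s14 := same 1 4 2 3 (by decide) (by decide) (by decide) (by decide)
    omega
  · have t := T 0 2 3 (by decide) (hoff 0 2 (by decide) (by decide)) (hoff 2 3 (by decide) (by decide)) (hoff 0 3 (by decide) (by decide))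
    have s1 := same 0 1 2 3 (by decide) (by decide) (by decide) (by decide)
    have s2 := same 0 1 2 4 (by decide) (by decide) (by decide) (by decide)
    have s3 := same 0 1 3 4 (by decide) (by decide) (by decide) (by decide)
    have s4 := same 0 2 1 3 (by decide) (by decide) (by decide) (by decide)
    have c5 := h.comm hC hL (i := 1) (j := 4) (k := 0) (l := 2) (by decide)
    have d5 := h'.comm hC hL (i := 1) (j := 4) (k := 0) (l := 2) (by decide)
    have s6 := same 0 2 3 4 (by decide) (by decide) (by decide) (by decide)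
    have s7 := same 0 3 1 2 (by decide) (by decide) (by decide) (by decide)
    have c8 := h.comm hC hL (i := 1) (j := 4) (k := 0) (l := 3) (by decide)
    have d8 := h'.comm hC hL (i := 1) (j := 4) (k := 0) (l := 3) (by decide)
    have s9 := same 0 3 2 4 (by decide) (by decide) (by decide) (by decide)
    have s10 := same 0 4 1 2 (by decide) (by decide) (by decide) (by decide)
    have s11 := same 0 4 1 3 (by decide) (by decide) (by decide) (by decide)
    have s12 := same 0 4 2 3 (by decide) (by decide) (by decide) (by decide)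
    have s13 := same 1 2 3 4 (by decide) (by decide) (by decide) (by decide)
    have s14 := same 1 3 2 4 (by decide) (by decide) (by decide) (by decide)
    omega
  · have t := T 0 1 4 (by decide) (hoff 0 1 (by decide) (by decide)) (hoff 1 4 (by decide) (by decide)) (hoff 0 4 (by decide) (by decide))
    have c1 := h.comm hC hL (i := 2) (j := 3) (k := 0) (l := 1) (by decide)
    have d1 := h'.comm hC hL (i := 2) (j := 3) (k := 0) (l := 1) (by decide)
    have s2 := same 0 1 2 4 (by decide) (by decide) (by decide) (by decide)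
    have s3 := same 0 1 3 4 (by decide) (by decide) (by decide) (by decide)
    have s4 := same 0 2 1 3 (by decide) (by decide) (by decide) (by decide)
    have s5 := same 0 2 1 4 (by decide) (by decide) (by decide) (by decide)
    have s6 := same 0 2 3 4 (by decide) (by decide) (by decide) (by decide)
    have s7 := same 0 3 1 2 (by decide) (by decide) (by decide) (by decide)
    have s8 := same 0 3 1 4 (by decide) (by decide) (by decide) (by decide)
    have s9 := same 0 3 2 4 (by decide) (by decide) (by decide) (by decide)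
    have s10 := same 0 4 1 2 (by decide) (by decide) (by decide) (by decide)
    have s11 := same 0 4 1 3 (by decide) (by decide) (by decide) (by decide)
    have c12 := h.comm hC hL (i := 2) (j := 3) (k := 0) (l := 4) (by decide)
    have d12 := h'.comm hC hL (i := 2) (j := 3) (k := 0) (l := 4) (by decide)
    have s13 := same 1 2 3 4 (by decide) (by decide) (by decide) (by decide)
    have s14 := same 1 3 2 4 (by decide) (by decide) (by decide) (by decide)
    have c15 := h.comm hC hL (i := 2) (j := 3) (k := 1) (l := 4) (by decide)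
    have d15 := h'.comm hC hL (i := 2) (j := 3) (k := 1) (l := 4) (by decide)
    omega
  · have t := T 0 1 3 (by decide) (hoff 0 1 (by decide) (by decide)) (hoff 1 3 (by decide) (by decide)) (hoff 0 3 (by decide) (by decide))
    have s1 := same 0 1 2 3 (by decide) (by decide) (by decide) (by decide)
    have c2 := h.comm hC hL (i := 2) (j := 4) (k := 0) (l := 1) (by decide)
    have d2 := h'.comm hC hL (i := 2) (j := 4) (k := 0) (l := 1) (by decide)
    have s3 := same 0 1 3 4 (by decide) (by decide) (by decide) (by decide)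
    have s4 := same 0 2 1 3 (by decide) (by decide) (by decide) (by decide)
    have s5 := same 0 2 1 4 (by decide) (by decide) (by decide) (by decide)
    have s6 := same 0 2 3 4 (by decide) (by decide) (by decide) (by decide)
    have s7 := same 0 3 1 2 (by decide) (by decide) (by decide) (by decide)
    have s8 := same 0 3 1 4 (by decide) (by decide) (by decide) (by decide)
    have c9 := h.comm hC hL (i := 2) (j := 4) (k := 0) (l := 3) (by decide)
    have d9 := h'.comm hC hL (i := 2) (j := 4) (k := 0) (l := 3) (by decide)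
    have s10 := same 0 4 1 2 (by decide) (by decide) (by decide) (by decide)
    have s11 := same 0 4 1 3 (by decide) (by decide) (by decide) (by decide)
    have s12 := same 0 4 2 3 (by decide) (by decide) (by decide) (by decide)
    have s13 := same 1 2 3 4 (by decide) (by decide) (by decide) (by decide)
    have c14 := h.comm hC hL (i := 2) (j := 4) (k := 1) (l := 3) (by decide)
    have d14 := h'.comm hC hL (i := 2) (j := 4) (k := 1) (l := 3) (by decide)
    have s15 := same 1 4 2 3 (by decide) (by decide) (by decide) (by decide)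
    omega
  · have t := T 0 1 2 (by decide) (hoff 0 1 (by decide) (by decide)) (hoff 1 2 (by decide) (by decide)) (hoff 0 2 (by decide) (by decide))
    have s1 := same 0 1 2 3 (by decide) (by decide) (by decide) (by decide)
    have s2 := same 0 1 2 4 (by decide) (by decide) (by decide) (by decide)
    have c3 := h.comm hC hL (i := 3) (j := 4) (k := 0) (l := 1) (by decide)
    have d3 := h'.comm hC hL (i := 3) (j := 4) (k := 0) (l := 1) (by decide)
    have s4 := same 0 2 1 3 (by decide) (by decide) (by decide) (by decide)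
    have s5 := same 0 2 1 4 (by decide) (by decide) (by decide) (by decide)
    have c6 := h.comm hC hL (i := 3) (j := 4) (k := 0) (l := 2) (by decide)
    have d6 := h'.comm hC hL (i := 3) (j := 4) (k := 0) (l := 2) (by decide)
    have s7 := same 0 3 1 2 (by decide) (by decide) (by decide) (by decide)
    have s8 := same 0 3 1 4 (by decide) (by decide) (by decide) (by decide)
    have s9 := same 0 3 2 4 (by decide) (by decide) (by decide) (by decide)
    have s10 := same 0 4 1 2 (by decide) (by decide) (by decide) (by decide)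
    have s11 := same 0 4 1 3 (by decide) (by decide) (by decide) (by decide)
    have s12 := same 0 4 2 3 (by decide) (by decide) (by decide) (by decide)
    have c13 := h.comm hC hL (i := 3) (j := 4) (k := 1) (l := 2) (by decide)
    have d13 := h'.comm hC hL (i := 3) (j := 4) (k := 1) (l := 2) (by decide)
    have s14 := same 1 3 2 4 (by decide) (by decide) (by decide) (by decide)
    have s15 := same 1 4 2 3 (by decide) (by decide) (by decide) (by decide)
    omega

/-- some edges are replaced by straight ones -/
def strt (v : Fin 5 → Pt) (p : Fin 5 → Fin 5 → List Pt) (S : List (Fin 5 × Fin 5)) (i j : Fin 5) :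
    List Pt := if (i, j) ∈ S ∨ (j, i) ∈ S then [v i, v j] else p i j

theorem strt_sub (h : Adm v L p) (S : List (Fin 5 × Fin 5)) {i j : Fin 5} (hij : i ≠ j) :
    ∀ x ∈ strt v p S i j, x ∈ p i j := by
  intro x hx
  unfold strt at hx
  split_ifs at hx with hc
  · obtain ⟨l, hl⟩ := h.hp i j hij
    rw [hl]
    simp only [List.mem_cons, List.not_mem_nil, or_false] at hx
    rcases hx with rfl | rfl
    · simp
    · simp
  · exact hx

theorem strt_adm (h : Adm v L p) (S : List (Fin 5 × Fin 5)) : Adm v L (strt v p S) := by
  refine ⟨fun i j hij => ?_, fun i j => ?_, fun i j hij x hx => ?_, fun i j k l hn x hx hx' => ?_⟩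
  · unfold strt
    split_ifs with hc
    · exact ⟨[], rfl⟩
    · exact h.hp i j hij
  · unfold strt
    by_cases hc : (i, j) ∈ S ∨ (j, i) ∈ S
    · rw [if_pos hc, if_pos hc.symm]
      rfl
    · rw [if_neg hc, if_neg fun h' => hc h'.symm]
      exact h.hr i j
  · exact h.hpL i j hij x (strt_sub h S hij x hx)
  · exact h.hd i j k l hn (strt_sub h S (Adm.ne12 hn) x hx) (strt_sub h S (Adm.ne34 hn) x hx')

theorem strt_parity (hR : HRev) (hRL : HRevL) (hK : HClo) (hC : HCom) (hGL : HGlL) (hGR : HGlR)
    (h : Adm v L p) (hL : Gen L) (S : List (Fin 5 × Fin 5)) (hS : ∀ e ∈ S, e.1 < e.2) :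
    (K5sum fun i j k l => X (p i j) (p k l)) % 2 =
      (K5sum fun i j k l => X (strt v p S i j) (strt v p S k l)) % 2 := by
  induction S with
  | nil =>
    have : strt v p [] = p := by
      funext i j
      simp [strt]
    rw [this]
  | cons e S ih =>
    rw [ih fun e' he' => hS e' (List.mem_cons_of_mem _ he')]
    refine step hR hRL hK hC hGL hGR (strt_adm h S) (strt_adm h (e :: S)) hL e.1 e.2
      (hS e List.mem_cons_self) fun a b h1 h2 => ?_
    unfold strt
    have e1 : ((a, b) ∈ e :: S ∨ (b, a) ∈ e :: S) ↔ ((a, b) ∈ S ∨ (b, a) ∈ S) := by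
      rw [List.mem_cons, List.mem_cons]
      constructor
      · rintro ((h3 | h3) | (h3 | h3))
        · exact absurd h3 h1
        · exact Or.inl h3
        · exact absurd h3 h2
        · exact Or.inr h3
      · rintro (h3 | h3)
        · exact Or.inl (Or.inr h3)
        · exact Or.inr (Or.inr h3)
    by_cases hc : (a, b) ∈ S ∨ (b, a) ∈ S
    · rw [if_pos hc, if_pos (e1.mpr hc)]
    · rw [if_neg hc, if_neg fun h3 => hc (e1.mp h3)]

end paths

/-- KN7 (uses KN1, KN3, KN4, KN5, KN6) -/
theorem K5_paths
    (X_reverse_left : ∀ (p q : List Pt) (_h : Gen (p ++ q)) (_hd : p.Disjoint q),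
      X p.reverse q = - X p q)
    (X_reverse_right : ∀ (p q : List Pt) (_h : Gen (p ++ q)) (_hd : p.Disjoint q),
      X p q.reverse = - X p q)
    (X_closed : ∀ (P Q : List Pt) (_hP : P.head? = P.getLast?) (_hQ : Q.head? = Q.getLast?)
      (_hd : P.Disjoint Q) (_h : Gen (P ++ Q)), X P Q = 0)
    (cross_comm : ∀ (a b c d : Pt) (_h : Gen [a, b, c, d]) (_hab : a ∉ [c, d])
      (_hb : b ∉ [c, d]), cross c d a b = - cross a b c d)
    (X_glue_left : ∀ (p p' q : List Pt) (b : Pt) (_hp : p.getLast? = some b)
      (_hp' : p'.head? = some b), X (p ++ p'.tail) q = X p q + X p' q)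
    (X_glue_right : ∀ (p p' q : List Pt) (b : Pt) (_hp : p.getLast? = some b)
      (_hp' : p'.head? = some b), X q (p ++ p'.tail) = X q p + X q p')
    (K5_straight : ∀ (v : Fin 5 → Pt) (_hv : Function.Injective v) (_h : Gen (List.ofFn v)),
      Odd (K5sum fun i j k l => X [v i, v j] [v k, v l]))
    (v : Fin 5 → Pt) (hv : Function.Injective v) (p : Fin 5 → Fin 5 → List Pt)
    (hp : ∀ i j, i ≠ j → Path (v i) (v j) (p i j)) (hr : ∀ i j, p j i = (p i j).reverse)
    (L : List Pt) (hL : Gen L) (hpL : ∀ i j, i ≠ j → ∀ x ∈ p i j, x ∈ L)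
    (hd : ∀ i j k l, [i, j, k, l].Nodup → (p i j).Disjoint (p k l)) :
    Odd (K5sum fun i j k l => X (p i j) (p k l)) := by
  have h : Adm v L p := ⟨hp, hr, hpL, hd⟩
  have hvL : ∀ i, v i ∈ L := by
    intro i
    obtain ⟨j, hj⟩ : ∃ j, i ≠ j := by
      by_cases h0 : i = 0
      · exact ⟨1, by rw [h0]; decide⟩
      · exact ⟨0, h0⟩
    obtain ⟨l, hl⟩ := hp i j hj
    apply hpL i j hj
    rw [hl]
    exact List.mem_cons_self
  have hgen : Gen (List.ofFn v) := by
    apply gen_of hL
    intro x hx
    rw [List.mem_ofFn] at hx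
    obtain ⟨i, rfl⟩ := hx
    exact hvL i
  have hst := K5_straight v hv hgen
  rw [Int.odd_iff] at hst ⊢
  rw [strt_parity X_reverse_right X_reverse_left X_closed cross_comm X_glue_left X_glue_right h hL
    [(0, 1), (0, 2), (0, 3), (0, 4), (1, 2), (1, 3), (1, 4), (2, 3), (2, 4), (3, 4)] (by decide)]
  have e : ∀ i j : Fin 5, i ≠ j → strt v p
      [(0, 1), (0, 2), (0, 3), (0, 4), (1, 2), (1, 3), (1, 4), (2, 3), (2, 4), (3, 4)] i j =
      [v i, v j] := by
    intro i j hij
    unfold strt
    rw [if_pos]
    revert i j
    decide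
  rw [← hst]
  simp only [K5sum]
  simp only [e 0 1 (by decide), e 0 2 (by decide), e 0 3 (by decide), e 0 4 (by decide),
    e 1 2 (by decide), e 1 3 (by decide), e 1 4 (by decide), e 2 3 (by decide), e 2 4 (by decide),
    e 3 4 (by decide)]

end Pool.Agent.H891R2.KN.G7
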