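import Pool.Agent.H891R2.KN.Defs

set_option autoImplicit false

/-! KN8: bookkeeping about spatial complete graphs. -/

namespace Pool.Agent.H891R2.KN.G8

/-- all corners of a spatial graph -/
def corners {n : ℕ} (G : SpatialK n) : List Pt := 
  (List.finRange n).map G.vert ++ (List.finRange n).flatMap fun i =>
    ((List.finRange n).filter fun j => i < j).flatMap fun j => G.inner i j

theorem vert_mem {n : ℕ} (G : SpatialK n) (i : Fin n) : G.vert i ∈ corners G :=
  List.mem_append_left _ (List.mem_map_of_mem (List.mem_finRange i))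

theorem inner_mem_lt {n : ℕ} (G : SpatialK n) {i j : Fin n} (h : i < j) {x : Pt}
    (hx : x ∈ G.inner i j) : x ∈ corners G := by
  refine List.mem_append_right _ ?_
  rw [List.mem_flatMap]
  refine ⟨i, List.mem_finRange i, ?_⟩
  rw [List.mem_flatMap]
  refine ⟨j, ?_, hx⟩
  simp [h]

theorem inner_mem_comm {n : ℕ} (G : SpatialK n) {i j : Fin n} {x : Pt} :
    x ∈ G.inner j i ↔ x ∈ G.inner i j := by
  rw [G.inner_symm i j, List.mem_reverse]

theorem inner_mem {n : ℕ} (G : SpatialK n) {i j : Fin n} (h : i ≠ j) {x : Pt}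
    (hx : x ∈ G.inner i j) : x ∈ corners G := by
  rcases lt_or_gt_of_ne h with h | h
  · exact inner_mem_lt G h hx
  · exact inner_mem_lt G h ((inner_mem_comm G).2 hx)

theorem vert_inj {n : ℕ} (G : SpatialK n) : Function.Injective G.vert := by
  have h := G.nodup
  rw [List.nodup_append] at h
  have h1 := h.1
  intro i j hij
  exact List.inj_on_of_nodup_map h1 (List.mem_finRange i) (List.mem_finRange j) hij

theorem vert_inner_lt {n : ℕ} (G : SpatialK n) {i j k : Fin n} (h : i < j) :
    G.vert k ∉ G.inner i j := by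
  intro hx
  have hn := G.nodup
  rw [List.nodup_append] at hn
  refine hn.2.2 (G.vert k) (List.mem_map_of_mem (List.mem_finRange k)) (G.vert k) ?_ rfl
  rw [List.mem_flatMap]
  refine ⟨i, List.mem_finRange i, ?_⟩
  rw [List.mem_flatMap]
  refine ⟨j, ?_, hx⟩
  simp [h]

theorem vert_inner {n : ℕ} (G : SpatialK n) {i j k : Fin n} (h : i ≠ j) :
    G.vert k ∉ G.inner i j := by
  rcases lt_or_gt_of_ne h with h | h
  · exact vert_inner_lt G h
  · intro hx
    exact vert_inner_lt G h ((inner_mem_comm G).2 hx)

theorem inner_inner_lt {n : ℕ} (G : SpatialK n) {i j k l : Fin n} (h : i < j) (h' : k < l)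
    (hne : i ≠ k ∨ j ≠ l) {x : Pt} (hx : x ∈ G.inner i j) : x ∉ G.inner k l := by
  intro hy
  have hn := G.nodup
  rw [List.nodup_append] at hn
  have h2 := hn.2.1
  rw [List.nodup_flatMap] at h2
  obtain ⟨h3, h4⟩ := h2
  by_cases hik : i = k
  · subst hik
    have h5 := h3 i (List.mem_finRange i)
    rw [List.nodup_flatMap] at h5
    have h6 := h5.2
    have hjl : j ≠ l := by
      rcases hne with hne | hne
      · exact absurd rfl hne
      · exact hne
    have : Std.Symm (Function.onFun List.Disjoint fun j => G.inner i j) :=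
      ⟨fun a b hab => List.Disjoint.symm hab⟩
    have h7 := List.Pairwise.forall h6 (a := j) (b := l) (by simp [h]) (by simp [h']) hjl
    exact h7 hx hy
  · have : Std.Symm (Function.onFun List.Disjoint fun i =>
        List.flatMap (fun j => G.inner i j)
          (List.filter (fun j => decide (i < j)) (List.finRange n))) :=
      ⟨fun a b hab => List.Disjoint.symm hab⟩
    have h7 := List.Pairwise.forall h4 (a := i) (b := k) (List.mem_finRange i)
      (List.mem_finRange k) hik
    refine h7 (a := x) ?_ ?_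
    · rw [List.mem_flatMap]
      exact ⟨j, by simp [h], hx⟩
    · rw [List.mem_flatMap]
      exact ⟨l, by simp [h'], hy⟩

theorem inner_inner {n : ℕ} (G : SpatialK n) {i j k l : Fin n} (h : [i, j, k, l].Nodup) {x : Pt}
    (hx : x ∈ G.inner i j) : x ∉ G.inner k l := by
  simp only [List.nodup_cons, List.mem_cons, List.not_mem_nil, or_false, not_or,
    not_false_eq_true, List.nodup_nil, and_true] at h
  obtain ⟨⟨hij, hik, hil⟩, ⟨hjk, hjl⟩, hkl⟩ := h
  rcases lt_or_gt_of_ne hij with h1 | h1 <;> rcases lt_or_gt_of_ne hkl with h2 | h2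
  · exact inner_inner_lt G h1 h2 (Or.inl hik) hx
  · rw [← inner_mem_comm]
    exact inner_inner_lt G h1 h2 (Or.inl hil) hx
  · rw [← inner_mem_comm] at hx
    exact inner_inner_lt G h1 h2 (Or.inl hjk) hx
  · rw [← inner_mem_comm] at hx ⊢
    exact inner_inner_lt G h1 h2 (Or.inl hjl) hx

theorem mem_path {n : ℕ} (G : SpatialK n) {i j : Fin n} {x : Pt} :
    x ∈ G.path i j ↔ x = G.vert i ∨ x ∈ G.inner i j ∨ x = G.vert j := by
  simp [SpatialK.path]

theorem path_disjoint {n : ℕ} (G : SpatialK n) {i j k l : Fin n} (h : [i, j, k, l].Nodup) :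
    (G.path i j).Disjoint (G.path k l) := by
  intro x hx hy
  have h' := h
  simp only [List.nodup_cons, List.mem_cons, List.not_mem_nil, or_false, not_or,
    not_false_eq_true, List.nodup_nil, and_true] at h'
  obtain ⟨⟨hij, hik, hil⟩, ⟨hjk, hjl⟩, hkl⟩ := h'
  rw [mem_path] at hx hy
  rcases hx with rfl | hx | rfl
  · rcases hy with hy | hy | hy
    · exact hik (vert_inj G hy)
    · exact vert_inner G hkl hy
    · exact hil (vert_inj G hy)
  · rcases hy with rfl | hy | rfl
    · exact vert_inner G hij hx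
    · exact inner_inner G h hx hy
    · exact vert_inner G hij hx
  · rcases hy with hy | hy | hy
    · exact hjk (vert_inj G hy)
    · exact vert_inner G hkl hy
    · exact hjl (vert_inj G hy)

theorem segs_mem {p : List Pt} {s : Pt × Pt} (hs : s ∈ segs p) : s.1 ∈ p ∧ s.2 ∈ p := by
  obtain ⟨a, b⟩ := s
  have h := List.of_mem_zip hs
  exact ⟨h.1, List.mem_of_mem_tail h.2⟩

/-- KN8: bookkeeping -/
theorem path_facts {n : ℕ} (G : SpatialK n) : 
    Gen (corners G) ∧ (∀ i j, i ≠ j → ∀ x ∈ G.path i j, x ∈ corners G) ∧ 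
    Function.Injective G.vert ∧
    (∀ i j, G.path j i = (G.path i j).reverse) ∧ (∀ i j, Path (G.vert i) (G.vert j) (G.path i j)) ∧ 
    (∀ i j k l, [i, j, k, l].Nodup → (G.path i j).Disjoint (G.path k l)) ∧ 
    (∀ i j k l, [i, j, k, l].Nodup → ∀ s ∈ segs (G.path i j), ∀ t ∈ segs (G.path k l), 
      Disjoint (segment ℝ s.1 s.2) (segment ℝ t.1 t.2)) := by
  refine ⟨G.generic, ?_, vert_inj G, ?_, ?_, ?_, ?_⟩
  · intro i j hij x hx
    rw [mem_path] at hx
    rcases hx with rfl | hx | rfl
    · exact vert_mem G i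
    · exact inner_mem G hij hx
    · exact vert_mem G j
  · intro i j
    simp [SpatialK.path, G.inner_symm i j]
  · intro i j
    exact ⟨G.inner i j, rfl⟩
  · intro i j k l h
    exact path_disjoint G h
  · intro i j k l h s hs t ht
    have hd := path_disjoint G h
    have h' := h
    simp only [List.nodup_cons, List.mem_cons, List.not_mem_nil, or_false, not_or,
      not_false_eq_true, List.nodup_nil, and_true] at h'
    obtain ⟨⟨hij, hik, hil⟩, ⟨hjk, hjl⟩, hkl⟩ := h'
    have h1 := segs_mem hs
    have h2 := segs_mem ht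
    rw [Set.disjoint_left]
    intro x hx hy
    have hst : s ≠ t := by
      rintro rfl
      exact hd h1.1 h2.1
    have hst' : s ≠ t.swap := by
      rintro rfl
      exact hd h1.1 h2.2
    obtain ⟨h3, h4⟩ := G.embedded i j k l hij hkl s hs t ht hst hst' x hx hy
    have h5 : x ∈ G.path i j := by
      rcases h3 with rfl | rfl
      · exact h1.1
      · exact h1.2
    have h6 : x ∈ G.path k l := by
      rcases h4 with rfl | rfl
      · exact h2.1
      · exact h2.2
    exact hd h5 h6

end Pool.Agent.H891R2.KN.G8
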