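import Pool.Agent.H891R2.KN.Defs

set_option autoImplicit false

/-! KN9: symmetry of the linking number of two triangles. -/

namespace Pool.Agent.H891R2.KN.G9

/-- all corners of a spatial graph -/
def corners {n : ℕ} (G : SpatialK n) : List Pt := 
  (List.finRange n).map G.vert ++ (List.finRange n).flatMap fun i =>
    ((List.finRange n).filter fun j => i < j).flatMap fun j => G.inner i j

theorem gen_mono {L l : List Pt} (hL : Gen L) (h : ∀ x ∈ l, x ∈ L) : Gen l :=
  fun a ha b hb c hc => hL a (h a ha) b (h b hb) c (h c hc)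

theorem path_head {a b : Pt} {p : List Pt} (h : Path a b p) : p.head? = some a := by
  obtain ⟨l, rfl⟩ := h
  rfl

theorem path_last {a b : Pt} {p : List Pt} (h : Path a b p) : p.getLast? = some b := by
  obtain ⟨l, rfl⟩ := h
  rw [← List.cons_append, List.getLast?_concat]

theorem glue_head {a b c : Pt} {p p' : List Pt} (h : Path a b p) (h' : Path b c p') :
    Path a c (p ++ p'.tail) := by
  obtain ⟨l, rfl⟩ := h
  obtain ⟨l', rfl⟩ := h'
  refine ⟨l ++ [b] ++ l', ?_⟩
  simp

theorem total_three {n : ℕ} (ω : Fin n → Fin n → Fin n → Fin n → ℤ) (a b c d e f : Fin n) :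
    tri ω a b c d e f = ω a b d e + ω a b e f + ω a b f d + ω b c d e + ω b c e f + ω b c f d +
      ω c a d e + ω c a e f + ω c a f d := by
  unfold tri total edges
  simp [List.rotate]
  ring

theorem tri_symm 
    (X_closed : ∀ (P Q : List Pt), P.head? = P.getLast? → Q.head? = Q.getLast? →
      P.Disjoint Q → Gen (P ++ Q) → X P Q = 0)
    (ov_sub : ∀ (p q : List Pt), Gen (p ++ q) → p.Disjoint q →
      (∀ s ∈ segs p, ∀ t ∈ segs q, Disjoint (segment ℝ s.1 s.2) (segment ℝ t.1 t.2)) →
      ov p q - ov q p = X p q)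
    (X_glue_left : ∀ (p p' q : List Pt) (b : Pt), p.getLast? = some b → p'.head? = some b →
      X (p ++ p'.tail) q = X p q + X p' q)
    (X_glue_right : ∀ (p p' q : List Pt) (b : Pt), p.getLast? = some b → p'.head? = some b →
      X q (p ++ p'.tail) = X q p + X q p')
    (path_facts : ∀ {n : ℕ} (G : SpatialK n), 
      Gen (corners G) ∧ (∀ i j, i ≠ j → ∀ x ∈ G.path i j, x ∈ corners G) ∧ 
      Function.Injective G.vert ∧
      (∀ i j, G.path j i = (G.path i j).reverse) ∧
      (∀ i j, Path (G.vert i) (G.vert j) (G.path i j)) ∧ 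
      (∀ i j k l, [i, j, k, l].Nodup → (G.path i j).Disjoint (G.path k l)) ∧ 
      (∀ i j k l, [i, j, k, l].Nodup → ∀ s ∈ segs (G.path i j), ∀ t ∈ segs (G.path k l), 
        Disjoint (segment ℝ s.1 s.2) (segment ℝ t.1 t.2)))
    {n : ℕ} (G : SpatialK n) (a b c d e f : Fin n) (h : [a, b, c, d, e, f].Nodup) :
    tri (fun i j k l => ov (G.path i j) (G.path k l)) a b c d e f = 
      tri (fun i j k l => ov (G.path i j) (G.path k l)) d e f a b c := by
  obtain ⟨f1, f2, -, -, f5, f6, f7⟩ := path_facts G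
  -- distinctness
  simp only [List.nodup_cons, List.mem_cons, List.not_mem_nil, or_false, not_or] at h
  obtain ⟨⟨hab, hac, had, hae, haf⟩, ⟨hbc, hbd, hbe, hbf⟩, ⟨hcd, hce, hcf⟩, ⟨hde, hdf⟩, hef, -⟩ := h
  have nd : ∀ i j k l : Fin n, i ≠ j → i ≠ k → i ≠ l → j ≠ k → j ≠ l → k ≠ l →
      [i, j, k, l].Nodup := by
    intro i j k l h1 h2 h3 h4 h5 h6
    simp [h1, h2, h3, h4, h5, h6]
  have sub : ∀ i j k l : Fin n, i ≠ j → i ≠ k → i ≠ l → j ≠ k → j ≠ l → k ≠ l →
      ov (G.path i j) (G.path k l) - ov (G.path k l) (G.path i j) =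
        X (G.path i j) (G.path k l) := by
    intro i j k l h1 h2 h3 h4 h5 h6
    have hn := nd i j k l h1 h2 h3 h4 h5 h6
    refine ov_sub _ _ (gen_mono f1 fun x hx => ?_) (f6 _ _ _ _ hn) (f7 _ _ _ _ hn)
    rcases List.mem_append.1 hx with hx | hx
    · exact f2 _ _ h1 x hx
    · exact f2 _ _ h6 x hx
  have e1 := sub a b d e hab had hae hbd hbe hde
  have e2 := sub a b e f hab hae haf hbe hbf hef
  have e3 := sub a b f d hab haf had hbf hbd (Ne.symm hdf)
  have e4 := sub b c d e hbc hbd hbe hcd hce hde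
  have e5 := sub b c e f hbc hbe hbf hce hcf hef
  have e6 := sub b c f d hbc hbf hbd hcf hcd (Ne.symm hdf)
  have e7 := sub c a d e (Ne.symm hac) hcd hce had hae hde
  have e8 := sub c a e f (Ne.symm hac) hce hcf hae haf hef
  have e9 := sub c a f d (Ne.symm hac) hcf hcd haf had (Ne.symm hdf)
  -- the closed paths
  have pP1 := glue_head (f5 a b) (f5 b c)
  have pP := glue_head pP1 (f5 c a)
  have pQ1 := glue_head (f5 d e) (f5 e f)
  have pQ := glue_head pQ1 (f5 f d)
  have hP : ∀ x ∈ G.path a b ++ (G.path b c).tail ++ (G.path c a).tail,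
      x ∈ G.path a b ∨ x ∈ G.path b c ∨ x ∈ G.path c a := by
    intro x hx
    rcases List.mem_append.1 hx with hx | hx
    · rcases List.mem_append.1 hx with hx | hx
      · exact Or.inl hx
      · exact Or.inr (Or.inl (List.mem_of_mem_tail hx))
    · exact Or.inr (Or.inr (List.mem_of_mem_tail hx))
  have hQ : ∀ x ∈ G.path d e ++ (G.path e f).tail ++ (G.path f d).tail,
      x ∈ G.path d e ∨ x ∈ G.path e f ∨ x ∈ G.path f d := by
    intro x hx
    rcases List.mem_append.1 hx with hx | hx
    · rcases List.mem_append.1 hx with hx | hx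
      · exact Or.inl hx
      · exact Or.inr (Or.inl (List.mem_of_mem_tail hx))
    · exact Or.inr (Or.inr (List.mem_of_mem_tail hx))
  have hdisj : (G.path a b ++ (G.path b c).tail ++ (G.path c a).tail).Disjoint
      (G.path d e ++ (G.path e f).tail ++ (G.path f d).tail) := by
    intro x hx hy
    rcases hP x hx with h1 | h1 | h1 <;> rcases hQ x hy with h2 | h2 | h2
    · exact f6 a b d e (nd _ _ _ _ hab had hae hbd hbe hde) h1 h2
    · exact f6 a b e f (nd _ _ _ _ hab hae haf hbe hbf hef) h1 h2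
    · exact f6 a b f d (nd _ _ _ _ hab haf had hbf hbd (Ne.symm hdf)) h1 h2
    · exact f6 b c d e (nd _ _ _ _ hbc hbd hbe hcd hce hde) h1 h2
    · exact f6 b c e f (nd _ _ _ _ hbc hbe hbf hce hcf hef) h1 h2
    · exact f6 b c f d (nd _ _ _ _ hbc hbf hbd hcf hcd (Ne.symm hdf)) h1 h2
    · exact f6 c a d e (nd _ _ _ _ (Ne.symm hac) hcd hce had hae hde) h1 h2
    · exact f6 c a e f (nd _ _ _ _ (Ne.symm hac) hce hcf hae haf hef) h1 h2
    · exact f6 c a f d (nd _ _ _ _ (Ne.symm hac) hcf hcd haf had (Ne.symm hdf)) h1 h2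
  have hgen : Gen ((G.path a b ++ (G.path b c).tail ++ (G.path c a).tail) ++
      (G.path d e ++ (G.path e f).tail ++ (G.path f d).tail)) := by
    refine gen_mono f1 fun x hx => ?_
    rcases List.mem_append.1 hx with hx | hx
    · rcases hP x hx with h1 | h1 | h1
      · exact f2 _ _ hab x h1
      · exact f2 _ _ hbc x h1
      · exact f2 _ _ (Ne.symm hac) x h1
    · rcases hQ x hx with h1 | h1 | h1
      · exact f2 _ _ hde x h1
      · exact f2 _ _ hef x h1
      · exact f2 _ _ (Ne.symm hdf) x h1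
  have hcl := X_closed _ _ ((path_head pP).trans (path_last pP).symm)
    ((path_head pQ).trans (path_last pQ).symm) hdisj hgen
  have gl : ∀ q : List Pt, X (G.path a b ++ (G.path b c).tail ++ (G.path c a).tail) q =
      X (G.path a b) q + X (G.path b c) q + X (G.path c a) q := by
    intro q
    rw [X_glue_left _ _ q _ (path_last pP1) (path_head (f5 c a)),
      X_glue_left _ _ q _ (path_last (f5 a b)) (path_head (f5 b c))]
  have gr : ∀ p : List Pt, X p (G.path d e ++ (G.path e f).tail ++ (G.path f d).tail) =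
      X p (G.path d e) + X p (G.path e f) + X p (G.path f d) := by
    intro p
    rw [X_glue_right _ _ p _ (path_last pQ1) (path_head (f5 f d)),
      X_glue_right _ _ p _ (path_last (f5 d e)) (path_head (f5 e f))]
  rw [gl, gr, gr, gr] at hcl
  rw [total_three, total_three]
  linarith

end Pool.Agent.H891R2.KN.G9
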