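import Pool.Agent.H891R2.KN.Defs

set_option autoImplicit false

/-! Statements of the geometric tasks (for distribution only; do not import). -/

namespace Pool.Agent.H891R2.KN

/-- KN1 -/
theorem ov_reverse_left (p q : List Pt) (h : Gen (p ++ q)) (hd : p.Disjoint q) : 
    ov p.reverse q = - ov p q := by
  sorry

theorem ov_reverse_right (p q : List Pt) (h : Gen (p ++ q)) (hd : p.Disjoint q) : 
    ov p q.reverse = - ov p q := by
  sorry

theorem X_reverse_left (p q : List Pt) (h : Gen (p ++ q)) (hd : p.Disjoint q) : 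
    X p.reverse q = - X p q := by
  sorry

theorem X_reverse_right (p q : List Pt) (h : Gen (p ++ q)) (hd : p.Disjoint q) : 
    X p q.reverse = - X p q := by
  sorry

/-- KN2 -/
theorem five (x y z c d : Pt) (h : Gen [x, y, z, c, d]) (hc : c ∉ [x, y, z]) (hd : d ∉ [x, y, z]) :
    cross x y c d + cross y z c d + cross z x c d = ins x y z d - ins x y z c := by
  sorry

/-- KN3 (uses KN2) -/
theorem X_closed (P Q : List Pt) (hP : P.head? = P.getLast?) (hQ : Q.head? = Q.getLast?)
    (hd : P.Disjoint Q) (h : Gen (P ++ Q)) : X P Q = 0 := by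
  sorry

/-- KN4 -/
theorem cross_comm (a b c d : Pt) (h : Gen [a, b, c, d]) (hab : a ∉ [c, d]) (hb : b ∉ [c, d]) : 
    cross c d a b = - cross a b c d := by
  sorry

theorem ov_sub (p q : List Pt) (h : Gen (p ++ q)) (hd : p.Disjoint q)
    (hs : ∀ s ∈ segs p, ∀ t ∈ segs q, Disjoint (segment ℝ s.1 s.2) (segment ℝ t.1 t.2)) :
    ov p q - ov q p = X p q := by
  sorry

/-- KN5 -/
theorem X_glue_left (p p' q : List Pt) (b : Pt) (hp : p.getLast? = some b) 
    (hp' : p'.head? = some b) : X (p ++ p'.tail) q = X p q + X p' q := by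
  sorry

theorem X_glue_right (p p' q : List Pt) (b : Pt) (hp : p.getLast? = some b) 
    (hp' : p'.head? = some b) : X q (p ++ p'.tail) = X q p + X q p' := by
  sorry

/-- KN6 -/
theorem K5_straight (v : Fin 5 → Pt) (hv : Function.Injective v) (h : Gen (List.ofFn v)) :
    Odd (K5sum fun i j k l => X [v i, v j] [v k, v l]) := by
  sorry

/-- KN7 (uses KN1, KN3, KN5, KN6) -/
theorem K5_paths (v : Fin 5 → Pt) (hv : Function.Injective v) (p : Fin 5 → Fin 5 → List Pt) 
    (hp : ∀ i j, i ≠ j → Path (v i) (v j) (p i j)) (hr : ∀ i j, p j i = (p i j).reverse)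
    (L : List Pt) (hL : Gen L) (hpL : ∀ i j, i ≠ j → ∀ x ∈ p i j, x ∈ L)
    (hd : ∀ i j k l, [i, j, k, l].Nodup → (p i j).Disjoint (p k l)) :
    Odd (K5sum fun i j k l => X (p i j) (p k l)) := by
  sorry

/-- all corners of a spatial graph -/
def corners {n : ℕ} (G : SpatialK n) : List Pt := 
  (List.finRange n).map G.vert ++ (List.finRange n).flatMap fun i =>
    ((List.finRange n).filter fun j => i < j).flatMap fun j => G.inner i j

/-- KN8: bookkeeping -/
theorem path_facts {n : ℕ} (G : SpatialK n) : 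
    Gen (corners G) ∧ (∀ i j, i ≠ j → ∀ x ∈ G.path i j, x ∈ corners G) ∧ 
    Function.Injective G.vert ∧
    (∀ i j, G.path j i = (G.path i j).reverse) ∧ (∀ i j, Path (G.vert i) (G.vert j) (G.path i j)) ∧ 
    (∀ i j k l, [i, j, k, l].Nodup → (G.path i j).Disjoint (G.path k l)) ∧ 
    (∀ i j k l, [i, j, k, l].Nodup → ∀ s ∈ segs (G.path i j), ∀ t ∈ segs (G.path k l), 
      Disjoint (segment ℝ s.1 s.2) (segment ℝ t.1 t.2)) := by
  sorry

/-- KN9: symmetry of the linking number of two triangles (uses KN1, KN3, KN4, KN5, KN8) -/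
theorem tri_symm {n : ℕ} (G : SpatialK n) (a b c d e f : Fin n) (h : [a, b, c, d, e, f].Nodup) :
    tri (fun i j k l => ov (G.path i j) (G.path k l)) a b c d e f = 
      tri (fun i j k l => ov (G.path i j) (G.path k l)) d e f a b c := by
  sorry

/-- KN10: the theorem of Conway, Gordon and Sachs (uses KN1, KN4, KN7, KN8) -/
theorem conway_gordon {n : ℕ} (G : SpatialK n) (a b c d e f : Fin n) 
    (h : [a, b, c, d, e, f].Nodup) :
    Odd (ten (fun i j k l => ov (G.path i j) (G.path k l)) a b c d e f) := by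
  sorry

end Pool.Agent.H891R2.KN
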