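import Pool.Agent.H891R2.KN.Sem

set_option autoImplicit false

/-! Statements of the combinatorial tasks (for distribution only; do not import). -/

namespace Pool.Agent.H891R2.KN

/-- KC1: the types are all cocycles of `K_6` with values `-1, 0, 1` on all cycles -/
theorem classify (f : Fin 6 → Fin 6 → ℤ) (hf : ∀ i j, f j i = - f i j)
    (hb : ∀ c : List (Fin 6), IsCycle c → |((edges c).map fun e => f e.1 e.2).sum| ≤ 1) :
    ∃ t < 151, ∀ l < 20, ((ty t l : ℕ) : ℤ) - 1 = 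
      f (t6 l).1 (t6 l).2.1 + f (t6 l).2.1 (t6 l).2.2 + f (t6 l).2.2 (t6 l).1 := by
  sorry

/-- KC2 (uses KC1) -/
theorem exists_type (ω : Fin 9 → Fin 9 → Fin 9 → Fin 9 → ℤ) (hω : Good ω) (T : ℕ) (hT : T < 84) :
    ∃ t, HasType ω T t := by
  sorry

/-- KC3: two adjacent triangles; the two paths of length two form a cycle of length four -/
theorem compat_val (ω : Fin 9 → Fin 9 → Fin 9 → Fin 9 → ℤ) (hω : Good ω) (T a : ℕ) (hT : T < 84) 
    (ha : a < 18) : 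
    (∀ k < 10, nb T (rl (ad T a / 16 % 8) k) / 32 = nb (ad T a / 128) (rl (ad T a / 2 % 8) k) / 32) ∧ 
    compat (ad T a % 2) (fun k => val ω T (nb T (rl (ad T a / 16 % 8) k) / 32))
      (fun k => val ω (ad T a / 128) (nb (ad T a / 128) (rl (ad T a / 2 % 8) k) / 32)) := by
  sorry

/-- KC4: the tables of triangles, symmetry and parity -/
theorem nb_facts (T l : ℕ) (hT : T < 84) (hl : l < 20) : 
    nb T l / 32 < 84 ∧ nb T l % 32 < 20 ∧ nb (nb T l / 32) (nb T l % 32) = 32 * T + l ∧ 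
    [(tr T).1, (tr T).2.1, (tr T).2.2, (tr (nb T l / 32)).1, (tr (nb T l / 32)).2.1, 
      (tr (nb T l / 32)).2.2].Nodup := by
  sorry

theorem ad_facts (T a : ℕ) (hT : T < 84) (ha : a < 18) : 
    ad T a / 128 < 84 ∧ ad T a / 16 % 8 < 6 ∧ ad T a / 2 % 8 < 6 ∧ 
    ∀ o < 6, ∀ k < 10, rl o k < 20 := by
  sorry

theorem sx_facts (x i : ℕ) (hx : x < 84) (hi : i < 10) : sx x i / 32 < 84 ∧ sx x i % 32 < 20 := by
  sorry

theorem val_symm (ω : Fin 9 → Fin 9 → Fin 9 → Fin 9 → ℤ) (hω : Good ω) (T l : ℕ) (hT : T < 84) 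
    (hl : l < 20) : val ω T (nb T l / 32) = val ω (nb T l / 32) T := by
  sorry

theorem val_parity (ω : Fin 9 → Fin 9 → Fin 9 → Fin 9 → ℤ) (hω : Good ω) (x : ℕ) (hx : x < 84) :
    Odd (∑ i ∈ Finset.range 10, val ω (sx x i / 32) (nb (sx x i / 32) (sx x i % 32) / 32)) := by
  sorry

/-- KC5: the masks -/
theorem vm_spec (v l t : ℕ) (hv : v < 3) (hl : l < 20) (ht : t < 151) : 
    (Nat.testBit (vm v l) t = true ↔ ty t l = v) ∧ ty t l < 3 := by
  sorry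

theorem mask_lt (v l : ℕ) : vm v l < 2 ^ 151 ∧ rm v l < 2 ^ 151 := by
  sorry

theorem rm_spec (o c t : ℕ) (ho : o < 6) (hc : c < 51) (ht : t < 151) : 
    Nat.testBit (rm o c) t = true ↔ ∀ k < 10, ty t (rl o k) = cv c k := by
  sorry

theorem cm_spec (s o c t : ℕ) (hs : s < 2) (ho : o < 6) (hc : c < 51) (ht : t < 151) 
    (h : compat s (fun k => ((ty t (rl o k) : ℕ) : ℤ) - 1) (fun k => ((cv c k : ℕ) : ℤ) - 1)) : 
    Nat.testBit (cm s o c) t = true := by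
  sorry

/-- KC6: states -/
theorem rmv_spec (s U m : ℕ) (τ : ℕ → ℕ) (hτ : ∀ T < 84, τ T < 151) (hm : m < 2 ^ 151) 
    (hs : Sat s τ) (h : Nat.testBit m (τ U) = false) : Sat (rmv s U m) τ := by
  sorry

theorem non_spec (s T m : ℕ) (τ : ℕ → ℕ) (hT : T < 84) (hs : Sat s τ) (h : non s T m = true) : 
    Nat.testBit m (τ T) = false := by
  sorry

theorem start_spec (t u : ℕ) (ht : t < 151) (hu : u < 151) (τ : ℕ → ℕ) (hτ : ∀ T < 84, τ T < 151) 
    (h0 : τ 0 = t) (h1 : τ 64 = u) : Sat (start t u) τ := by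
  sorry

theorem start31_spec (t u : ℕ) (ht : t < 151) (hu : u < 151) (τ : ℕ → ℕ) 
    (hτ : ∀ T < 84, τ T < 31) (h0 : τ 0 = t) (h1 : τ 64 = u) : Sat (start31 t u) τ := by
  sorry

/-- KC7: soundness of the checker (uses KC5 vm_spec, mask_lt, KC6 rmv_spec, non_spec) -/
theorem check_sound (τ : ℕ → ℕ) (h : Model τ) (c : Cert) (s : ℕ) (hs : Sat s τ) : 
    c.check s = false := by
  sorry

/-- KC8: (uses KC3, KC4, KC5) -/
theorem model_of_good (ω : Fin 9 → Fin 9 → Fin 9 → Fin 9 → ℤ) (hω : Good ω) (τ : ℕ → ℕ) 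
    (hτ : ∀ T < 84, HasType ω T (τ T)) : Model τ := by
  sorry

/-- KC9: relabelling and mirror images; permutations of the vertices of a triangle -/
theorem good_map (ω : Fin 9 → Fin 9 → Fin 9 → Fin 9 → ℤ) (hω : Good ω) (g : Equiv.Perm (Fin 9)) 
    (ε : ℤ) (hε : ε = 1 ∨ ε = -1) : Good (fun i j k l => ε * ω (g i) (g j) (g k) (g l)) := by
  sorry

theorem tri_perm (ω : Fin 9 → Fin 9 → Fin 9 → Fin 9 → ℤ) (hω : Good ω) (a b c d e f : Fin 9) 
    (h : [a, b, c, d, e, f].Nodup) : 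
    tri ω b c a d e f = tri ω a b c d e f ∧ tri ω b a c d e f = - tri ω a b c d e f ∧ 
    tri ω a b c e f d = tri ω a b c d e f ∧ tri ω a b c e d f = - tri ω a b c d e f := by
  sorry

theorem tri_map (ω : Fin 9 → Fin 9 → Fin 9 → Fin 9 → ℤ) (g : Fin 9 → Fin 9) (ε : ℤ) 
    (a b c d e f : Fin 9) : 
    tri (fun i j k l => ε * ω (g i) (g j) (g k) (g l)) a b c d e f = 
      ε * tri ω (g a) (g b) (g c) (g d) (g e) (g f) := by
  sorry

/-- KC10 (uses KC2, KC9): the case of a triangle of the third kind -/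
theorem wlog_S2 (ω : Fin 9 → Fin 9 → Fin 9 → Fin 9 → ℤ) (hω : Good ω) (h : S2 ω) : 
    ∃ ω' : Fin 9 → Fin 9 → Fin 9 → Fin 9 → ℤ, Good ω' ∧ HasType ω' 0 143 ∧ 
      (HasType ω' 64 30 ∨ HasType ω' 64 143 ∨ HasType ω' 64 147) := by
  sorry

/-- KC11 (uses KC2, KC4, KC9) -/
theorem type_lt (ω : Fin 9 → Fin 9 → Fin 9 → Fin 9 → ℤ) (hω : Good ω) (h : ¬ S2 ω) (T t : ℕ) 
    (hT : T < 84) (ht : HasType ω T t) : t < 31 := by
  sorry

theorem wlog_E (ω : Fin 9 → Fin 9 → Fin 9 → Fin 9 → ℤ) (hω : Good ω) (h : ¬ S2 ω) : 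
    ∃ ω' : Fin 9 → Fin 9 → Fin 9 → Fin 9 → ℤ, Good ω' ∧ ¬ S2 ω' ∧ HasType ω' 0 30 ∧ 
      HasType ω' 64 30 := by
  sorry

end Pool.Agent.H891R2.KN
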